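import Mathlib

set_option autoImplicit false

namespace Pool.Agent.MP_88e4f4_nt

open Finset

/-- `G i u v = u^(i-1) + u^(i-2) v + ... + v^(i-1)`, the quotient `(u^i - v^i)/(u - v)`. -/
def G (i u v : ℕ) : ℕ := ∑ j ∈ range i, u ^ j * v ^ (i - 1 - j)

/-- The sum of the quotients `(u^i - v^i)/(u - v)` for `i < m`. -/
def S (m u v : ℕ) : ℕ := ∑ i ∈ range m, G i u v

theorem G_zero (u v : ℕ) : G 0 u v = 0 := by simp [G]

theorem G_one (u v : ℕ) : G 1 u v = 1 := by simp [G]

theorem G_mul (i y K : ℕ) : K * G i (y + K) y + y ^ i = (y + K) ^ i := by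
  have h := geom_sum₂_mul ((y + K : ℕ) : ℤ) (y : ℤ) i
  have h2 : ((G i (y + K) y : ℕ) : ℤ) = ∑ j ∈ range i, ((y + K : ℕ) : ℤ) ^ j * (y : ℤ) ^ (i - 1 - j) := by
    simp [G]
  zify
  rw [h2]
  push_cast at h ⊢
  linarith [h]

theorem S_mul (m y K : ℕ) :
    K * S m (y + K) y + ∑ i ∈ range m, y ^ i = ∑ i ∈ range m, (y + K) ^ i := by
  rw [S, mul_sum, ← sum_add_distrib]
  exact sum_congr rfl fun i _ => G_mul i y K

/-- the key factorisation: `(x - y) S = y^m` -/
theorem key {m y K : ℕ}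
    (h : ∑ i ∈ range m, (y + K) ^ i = ∑ i ∈ range (m + 1), y ^ i) :
    K * S m (y + K) y = y ^ m := by
  have h1 := S_mul m y K
  rw [h, sum_range_succ] at h1
  omega

theorem G_dvd {p u v i : ℕ} (hi : 2 ≤ i) (hu : p ∣ u) (hv : p ∣ v) : p ∣ G i u v := by
  refine Finset.dvd_sum fun j hj => ?_
  rw [mem_range] at hj
  rcases Nat.eq_zero_or_pos j with h0 | h0
  · subst h0
    exact Dvd.dvd.mul_left (dvd_pow hv (by omega)) _
  · exact Dvd.dvd.mul_right (dvd_pow hu (by omega)) _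

theorem S_mod {p u v m : ℕ} (hm : 2 ≤ m) (hu : p ∣ u) (hv : p ∣ v) : ∃ t, S m u v = 1 + p * t := by
  induction m, hm using Nat.le_induction with
  | base => exact ⟨0, by simp [S, sum_range_succ, G_zero, G_one]⟩
  | succ n hn ih =>
    obtain ⟨t, ht⟩ := ih
    obtain ⟨s, hs⟩ := G_dvd (i := n) hn hu hv
    refine ⟨t + s, ?_⟩
    rw [S, sum_range_succ, ← S, ht, hs]
    ring

theorem coprime_S {m y K : ℕ} (hm : 2 ≤ m)
    (h : K * S m (y + K) y = y ^ m) : Nat.Coprime K (S m (y + K) y) := by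
  rw [Nat.coprime_iff_gcd_eq_one]
  by_contra hne
  obtain ⟨p, hp, hpd⟩ := Nat.exists_prime_and_dvd hne
  have hK : p ∣ K := hpd.trans (Nat.gcd_dvd_left _ _)
  have hS : p ∣ S m (y + K) y := hpd.trans (Nat.gcd_dvd_right _ _)
  have hy : p ∣ y := by
    have : p ∣ y ^ m := h ▸ hK.mul_right _
    exact hp.dvd_of_dvd_pow this
  obtain ⟨t, ht⟩ := S_mod (m := m) hm (hy.add hK) hy
  rw [ht] at hS
  have : p ∣ 1 := (Nat.dvd_add_left (Dvd.intro t rfl)).1 hS
  exact hp.one_lt.ne' (Nat.dvd_one.1 this)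

theorem structure_aux {m y K : ℕ} (hm : 2 ≤ m) (hy : 0 < y)
    (h : K * S m (y + K) y = y ^ m) :
    ∃ g a : ℕ, 0 < g ∧ 0 < a ∧ Nat.Coprime g a ∧ K = g ^ m ∧ y = g * a ∧ S m (y + K) y = a ^ m := by
  have hc := coprime_S hm h
  have hu1 : IsUnit (gcd K (S m (y + K) y)) := by
    rw [Nat.isUnit_iff]; exact hc
  have hu2 : IsUnit (gcd (S m (y + K) y) K) := by
    rw [Nat.isUnit_iff]; exact hc.symm
  obtain ⟨g, hg⟩ := exists_eq_pow_of_mul_eq_pow hu1 h
  obtain ⟨a, ha⟩ := exists_eq_pow_of_mul_eq_pow hu2 (by rw [mul_comm]; exact h)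
  have hyga : y = g * a := by
    have : y ^ m = (g * a) ^ m := by rw [← h, ha, mul_pow]; rw [← hg]
    exact Nat.pow_left_injective (by omega : m ≠ 0) this
  refine ⟨g, a, ?_, ?_, ?_, hg, hyga, ha⟩
  · rcases Nat.eq_zero_or_pos g with h0 | h0
    · subst h0; simp at hyga; omega
    · exact h0
  · rcases Nat.eq_zero_or_pos a with h0 | h0
    · subst h0; simp at hyga; omega
    · exact h0
  · rw [ha, hg] at hc
    exact Nat.Coprime.coprime_dvd_left (dvd_pow_self g (by omega))
      (Nat.Coprime.coprime_dvd_right (dvd_pow_self a (by omega)) hc)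

/-- consecutive bases are impossible for lengths `m + 1` and `m` -/
theorem no_consecutive_bases {m y : ℕ} (hm : 3 ≤ m) (hy : 2 ≤ y)
    (h : ∑ i ∈ range m, (y + 1) ^ i = ∑ i ∈ range (m + 1), y ^ i) : False := by
  have e1 := geom_sum_mul ((y + 1 : ℕ) : ℤ) m
  have e2 := geom_sum_mul (y : ℤ) (m + 1)
  have hz : ∑ i ∈ range m, ((y + 1 : ℕ) : ℤ) ^ i = ∑ i ∈ range (m + 1), (y : ℤ) ^ i := by
    exact_mod_cast h
  have e3 : ((y : ℤ) - 1) * ((y : ℤ) + 1) ^ m = (y : ℤ) ^ (m + 2) - 1 := by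
    rw [hz] at e1
    push_cast at e1
    have e4 : (y : ℤ) * (∑ i ∈ range (m + 1), (y : ℤ) ^ i) = ((y : ℤ) + 1) ^ m - 1 := by
      linear_combination e1
    have : ((y : ℤ) - 1) * ((y : ℤ) + 1) ^ m - ((y : ℤ) - 1) = (y : ℤ) * ((y : ℤ) ^ (m + 1) - 1) := by
      rw [← e2]
      linear_combination (1 - (y : ℤ)) * e4
    rw [pow_succ (y : ℤ) (m + 1)]
    linear_combination this
  -- parity
  have hdvd : ((y : ℤ) + 1) ∣ (y : ℤ) ^ (m + 2) - 1 := by
    rw [← e3]
    exact Dvd.dvd.mul_left (dvd_pow_self _ (by omega)) _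
  rcases Nat.even_or_odd m with hev | hodd
  · obtain ⟨k, hk⟩ := hev
    have hk2 : 2 ≤ k := by omega
    -- (y+1)^(2k-1) (y^2-1) = (y^2)^(k+1) - 1
    have e5 : ((y : ℤ) ^ 2 - 1) * ((y : ℤ) + 1) ^ (2 * k - 1) = ((y : ℤ) ^ 2) ^ (k + 1) - 1 := by
      have hmk : m = (2 * k - 1) + 1 := by omega
      have hmk2 : (y : ℤ) ^ (m + 2) = ((y : ℤ) ^ 2) ^ (k + 1) := by
        rw [← pow_mul]; congr 1; omega
      rw [hmk2] at e3
      rw [← e3]
      conv_rhs => rw [hmk, pow_succ]
      ring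
    have e6 : (y ^ 2) ^ (k + 1) - 1 ^ (k + 1) = (y ^ 2 - 1) * (y + 1) ^ (2 * k - 1) := by
      have h1 : 1 ≤ y ^ 2 := Nat.one_le_pow _ _ (by omega)
      have h2 : 1 ≤ (y ^ 2) ^ (k + 1) := Nat.one_le_pow _ _ (by omega)
      zify [h1, h2, one_pow]
      rw [e5]
    obtain ⟨p, hp, hpy⟩ := Nat.exists_prime_and_dvd (show y + 1 ≠ 1 by omega)
    have : Fact p.Prime := ⟨hp⟩
    have hsq : y ^ 2 - 1 = (y + 1) * (y - 1) := by
      have := Nat.sq_sub_sq y 1
      simpa using this
    have hne : y ^ 2 - 1 ≠ 0 := by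
      rw [hsq]; exact Nat.mul_ne_zero (by omega) (by omega)
    have hpd : p ∣ y ^ 2 - 1 := by rw [hsq]; exact hpy.mul_right _
    have hpn : ¬ p ∣ y ^ 2 := by
      intro hc
      have h1 : p ∣ y := hp.dvd_of_dvd_pow hc
      have h2 : p ∣ 1 := (Nat.dvd_add_right h1).1 hpy
      exact hp.one_lt.ne' (Nat.dvd_one.1 h2)
    have hv1 : 1 ≤ padicValNat p (y + 1) := by
      exact one_le_padicValNat_of_dvd (by omega) hpy
    have hvR : padicValNat p ((y ^ 2 - 1) * (y + 1) ^ (2 * k - 1)) =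
        padicValNat p (y ^ 2 - 1) + (2 * k - 1) * padicValNat p (y + 1) := by
      rw [padicValNat.mul hne (pow_ne_zero _ (by omega)), padicValNat.pow]
    have hlt : 1 < y ^ 2 := by nlinarith
    have hbound : (2 * k - 1) * padicValNat p (y + 1) ≤ padicValNat p (k + 1) → False := by
      intro he2
      have he1 : 2 * k - 1 ≤ (2 * k - 1) * padicValNat p (y + 1) :=
        Nat.le_mul_of_pos_right _ (by omega)
      set e := (2 * k - 1) * padicValNat p (y + 1) with he
      have h1 : p ^ e ∣ k + 1 := (Nat.pow_dvd_pow p he2).trans pow_padicValNat_dvd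
      have h2 : p ^ e ≤ k + 1 := Nat.le_of_dvd (by omega) h1
      have h3 : 2 ^ (2 * k - 1) ≤ p ^ e :=
        (Nat.pow_le_pow_left hp.two_le _).trans (Nat.pow_le_pow_right hp.pos he1)
      have h4 : ∀ j : ℕ, 2 ≤ j → j + 1 < 2 ^ (2 * j - 1) := by
        intro j hj
        induction j, hj using Nat.le_induction with
        | base => norm_num
        | succ n hn ih =>
          have : 2 * (n + 1) - 1 = (2 * n - 1) + 2 := by omega
          rw [this, pow_add]
          omega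
      have := h4 k hk2
      omega
    by_cases hp2 : p = 2
    · subst hp2
      have hyodd : ¬ 2 ∣ y := fun hc => hpn (dvd_pow hc (by norm_num))
      rcases Nat.even_or_odd (k + 1) with hke | hko
      · have hl := padicValNat.pow_two_sub_pow (x := y ^ 2) (y := 1) hlt hpd hpn
          (n := k + 1) (by omega) hke
        rw [e6, hvR] at hl
        -- v(y^2+1) = 1
        have h8 : padicValNat 2 (y ^ 2 + 1) = 1 := by
          have hodd2 : Odd y := by
            rw [Nat.odd_iff]; omega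
          obtain ⟨c, hc⟩ := hodd2
          have : y ^ 2 + 1 = 2 * (2 * (c ^ 2 + c) + 1) := by rw [hc]; ring
          rw [this, padicValNat.mul (by norm_num) (by omega)]
          have h9 : padicValNat 2 (2 * (c ^ 2 + c) + 1) = 0 := by
            apply padicValNat.eq_zero_of_not_dvd
            omega
          rw [h9]
          simp
        rw [h8] at hl
        exact hbound (by omega)
      · -- k+1 odd : the quotient is odd
        have hgs := geom_sum_mul ((y : ℤ) ^ 2) (k + 1)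
        rw [← e5] at hgs
        have hne2 : ((y : ℤ) ^ 2 - 1) ≠ 0 := by
          have : (4 : ℤ) ≤ (y : ℤ) ^ 2 := by
            have : (2 : ℤ) ≤ y := by exact_mod_cast hy
            nlinarith
          omega
        have hs : (∑ i ∈ range (k + 1), ((y : ℤ) ^ 2) ^ i) = ((y : ℤ) + 1) ^ (2 * k - 1) := by
          apply mul_left_cancel₀ hne2
          rw [mul_comm, hgs]
        have hs2 := congrArg (fun z : ℤ => (z : ZMod 2)) hs
        have hy1 : ((y : ℕ) : ZMod 2) = 1 := by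
          have : y % 2 = 1 := by omega
          rw [← Nat.cast_one, ZMod.natCast_eq_natCast_iff']
          simpa using this
        push_cast at hs2
        rw [hy1] at hs2
        simp only [one_pow, sum_const, card_range, nsmul_eq_mul, mul_one] at hs2
        have h11 : (1 : ZMod 2) + 1 = 0 := by
          have h12 : (((1 + 1 : ℕ)) : ZMod 2) = 0 := (ZMod.natCast_eq_zero_iff 2 2).2 dvd_rfl
          exact_mod_cast h12
        rw [h11, zero_pow (by omega)] at hs2
        have : ((k + 1 : ℕ) : ZMod 2) = 0 := by exact_mod_cast hs2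
        rw [ZMod.natCast_eq_zero_iff] at this
        obtain ⟨c, hc⟩ := hko
        omega
    · have hpo : Odd p := hp.odd_of_ne_two hp2
      have hl := padicValNat.pow_sub_pow (p := p) hpo (x := y ^ 2) (y := 1) hlt hpd hpn
        (n := k + 1) (by omega)
      rw [e6, hvR] at hl
      exact hbound (by omega)
  · -- m odd : (-1)^(m+2) - 1 = -2
    have h1 : ((y : ℤ) + 1) ∣ (y : ℤ) ^ (m + 2) + 1 ^ (m + 2) := by
      apply Odd.add_dvd_pow_add_pow
      obtain ⟨c, hc⟩ := hodd
      exact ⟨c + 1, by omega⟩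
    have h2 : ((y : ℤ) + 1) ∣ 2 := by
      have := dvd_sub h1 hdvd
      rw [one_pow] at this
      have h3 : (y : ℤ) ^ (m + 2) + 1 - ((y : ℤ) ^ (m + 2) - 1) = 2 := by ring
      rwa [h3] at this
    have := Int.le_of_dvd (by norm_num) h2
    omega

end Pool.Agent.MP_88e4f4_nt
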