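import Pool.Agent.MP_88e4f4_nt.Mono

set_option autoImplicit false

namespace Pool.Agent.MP_88e4f4_nt

open Finset


theorem ineq3a (h : ℕ) : (1 * (2 + h) ^ 1 + 0) ^ 3 <
    T 3 (2 + h) ((2 + h) ^ 3) 1 (1 * (2 + h) ^ 1 + 0) := by
  refine lt_aux (W := 2 * h ^ 2 + 8 * h) (c := 9) ?_ (by norm_num)
  simp only [T, G, sum_range_succ, sum_range_zero]
  ring

theorem ineq3b (h : ℕ) :
    T 3 (2 + h) ((2 + h) ^ 3) 1 (1 * (2 + h) ^ 1 + (0 + 1)) < (1 * (2 + h) ^ 1 + (0 + 1)) ^ 3 := by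
  refine lt_aux (W := 1 * h ^ 2 + 5 * h) (c := 6) ?_ (by norm_num)
  simp only [T, G, sum_range_succ, sum_range_zero]
  ring

end Pool.Agent.MP_88e4f4_nt
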