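import Pool.Agent.MP_88e4f4_nt.Mono

set_option autoImplicit false

namespace Pool.Agent.MP_88e4f4_nt

open Finset


theorem ineq4a (h : ℕ) : (4 * (3 + h) ^ 2 + 3 * (3 + h) ^ 1 + 1) ^ 4 <
    T 4 (3 + h) ((3 + h) ^ 4) 4 (4 * (3 + h) ^ 2 + 3 * (3 + h) ^ 1 + 1) := by
  refine lt_aux (W := 224 * h ^ 6 + 4368 * h ^ 5 + 35743 * h ^ 4 + 157304 * h ^ 3 + 393176 * h ^ 2 + 529760 * h) (c := 301104) ?_ (by norm_num)
  simp only [T, G, sum_range_succ, sum_range_zero]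
  ring

theorem ineq4b (h : ℕ) :
    T 4 (3 + h) ((3 + h) ^ 4) 4 (4 * (3 + h) ^ 2 + 3 * (3 + h) ^ 1 + (1 + 1)) < (4 * (3 + h) ^ 2 + 3 * (3 + h) ^ 1 + (1 + 1)) ^ 4 := by
  refine lt_aux (W := 32 * h ^ 6 + 624 * h ^ 5 + 4913 * h ^ 4 + 19780 * h ^ 3 + 42086 * h ^ 2 + 42836 * h) (c := 13905) ?_ (by norm_num)
  simp only [T, G, sum_range_succ, sum_range_zero]
  ring

end Pool.Agent.MP_88e4f4_nt
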