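import Pool.Agent.MP_88e4f4_nt.Mono

set_option autoImplicit false

namespace Pool.Agent.MP_88e4f4_nt

open Finset


theorem ineq5a (h : ℕ) : (25 * (5 + h) ^ 3 + 20 * (5 + h) ^ 2 + 14 * (5 + h) ^ 1 + 8) ^ 5 <
    T 5 (5 + h) ((5 + h) ^ 5) 25 (25 * (5 + h) ^ 3 + 20 * (5 + h) ^ 2 + 14 * (5 + h) ^ 1 + 8) := by
  refine lt_aux (W := 1562500 * h ^ 12 + 97500000 * h ^ 11 + 2797065625 * h ^ 10 + 48786553125 * h ^ 9 + 576277489375 * h ^ 8 + 4857046580750 * h ^ 7 + 29953408108900 * h ^ 6 + 136194939119001 * h ^ 5 + 453165666006235 * h ^ 4 + 1076111810675340 * h ^ 3 + 1731144618673605 * h ^ 2 + 1693928469460080 * h) (c := 762429889076257) ?_ (by norm_num)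
  simp only [T, G, sum_range_succ, sum_range_zero]
  ring

theorem ineq5b (h : ℕ) :
    T 5 (5 + h) ((5 + h) ^ 5) 25 (25 * (5 + h) ^ 3 + 20 * (5 + h) ^ 2 + 14 * (5 + h) ^ 1 + (8 + 1)) < (25 * (5 + h) ^ 3 + 20 * (5 + h) ^ 2 + 14 * (5 + h) ^ 1 + (8 + 1)) ^ 5 := by
  refine lt_aux (W := 390625 * h ^ 12 + 24375000 * h ^ 11 + 690590625 * h ^ 10 + 11737790625 * h ^ 9 + 133137651250 * h ^ 8 + 1059766883000 * h ^ 7 + 6053985330725 * h ^ 6 + 24907461922349 * h ^ 5 + 72791418352045 * h ^ 4 + 145853266131315 * h ^ 3 + 186666415231040 * h ^ 2 + 131715620118545 * h) (c := 34771293524524) ?_ (by norm_num)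
  simp only [T, G, sum_range_succ, sum_range_zero]
  ring

end Pool.Agent.MP_88e4f4_nt
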