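import Pool.Agent.MP_88e4f4_nt.Mono

set_option autoImplicit false

namespace Pool.Agent.MP_88e4f4_nt

open Finset


theorem ineq6a (h : ℕ) : (648 * (10 + h) ^ 4 + 540 * (10 + h) ^ 3 + 405 * (10 + h) ^ 2 + 280 * (10 + h) ^ 1 + 180) ^ 6 <
    T 6 (10 + h) ((10 + h) ^ 6) 648 (648 * (10 + h) ^ 4 + 540 * (10 + h) ^ 3 + 405 * (10 + h) ^ 2 + 280 * (10 + h) ^ 1 + 180) := by
  refine lt_aux (W := 71409344532480 * h ^ 20 + 14519900054937600 * h ^ 19 + 1456059280215896064 * h ^ 18 + 95415699143068056576 * h ^ 17 + 4553436257126227761984 * h ^ 16 + 166963206670021149909696 * h ^ 15 + 4846422093660857367845280 * h ^ 14 + 113370275720961789843393720 * h ^ 13 + 2161107826498066330397600199 * h ^ 12 + 33796834371052168971800915352 * h ^ 11 + 435094490186129273023522783872 * h ^ 10 + 4613307650528998794058627467840 * h ^ 9 + 40187336882427769817420334077760 * h ^ 8 + 285950755764239008680755506805760 * h ^ 7 + 1645531147827609940231566044770304 * h ^ 6 + 7540777201810481365751999653306368 * h ^ 5 + 26876797954092266567509426615357440 * h ^ 4 + 71819300173941833791057380218798080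 * h ^ 3 + 135386664230544722134702720688455680 * h ^ 2 + 160571733457063975316691665930158080 * h) (c := 90133214921339203645508013799768064) ?_ (by norm_num)
  simp only [T, G, sum_range_succ, sum_range_zero]
  ring

theorem ineq6b (h : ℕ) :
    T 6 (10 + h) ((10 + h) ^ 6) 648 (648 * (10 + h) ^ 4 + 540 * (10 + h) ^ 3 + 405 * (10 + h) ^ 2 + 280 * (10 + h) ^ 1 + (180 + 1)) < (648 * (10 + h) ^ 4 + 540 * (10 + h) ^ 3 + 405 * (10 + h) ^ 2 + 280 * (10 + h) ^ 1 + (180 + 1)) ^ 6 := by
  refine lt_aux (W := 614120362979328 * h ^ 20 + 124871140472463360 * h ^ 19 + 12007791781545701376 * h ^ 18 + 726001822824161117184 * h ^ 17 + 30946634897145540578496 * h ^ 16 + 988320884961402873463104 * h ^ 15 + 24528180722108220723396960 * h ^ 14 + 484186487331606921946803528 * h ^ 13 + 7716323689598365566051982185 * h ^ 12 + 100179767295469512883132330032 * h ^ 11 + 1064255119149364499488052176398 * h ^ 10 + 9255111252362968137841364634360 * h ^ 9 + 65650459388929535062677769582959 * h ^ 8 + 376839696074746609243434539365344 * h ^ 7 + 1727122313186022056794296936074308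 * h ^ 6 + 6189972451301946980573617037239992 * h ^ 5 + 16799346657909317599903317160182903 * h ^ 4 + 32795542540454907257295277495022512 * h ^ 3 + 42121507801808023145647246764700782 * h ^ 2 + 29671773334506328418144796994295304 * h) (c := 6724495611810828414998727314608657) ?_ (by norm_num)
  simp only [T, G, sum_range_succ, sum_range_zero]
  ring

end Pool.Agent.MP_88e4f4_nt
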