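import Pool.Agent.MP_88e4f4_nt.Finite
import Pool.Agent.MP_88e4f4_nt.Ineq3
import Pool.Agent.MP_88e4f4_nt.Ineq4
import Pool.Agent.MP_88e4f4_nt.Ineq5
import Pool.Agent.MP_88e4f4_nt.Ineq6
import Pool.Agent.MP_88e4f4_nt.Ineq7
import Pool.Agent.MP_88e4f4_nt.Ineq8
import Pool.Agent.MP_88e4f4_nt.Ineq9

set_option autoImplicit false

namespace Pool.Agent.MP_88e4f4_nt

open Finset

theorem case3 {g a : ℕ} (hg : 2 ≤ g) (ha : 0 < a)
    (hS : S 3 (g * a + g ^ 3) (g * a) = a ^ 3) : False := by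
  obtain ⟨h, rfl⟩ := Nat.exists_eq_add_of_le hg
  exact squeeze (L := 1) (by norm_num) ha hS (ineq3a h) (ineq3b h)

theorem case4 {g a : ℕ} (hg : 2 ≤ g) (ha : 0 < a)
    (hS : S 4 (g * a + g ^ 4) (g * a) = a ^ 4) : False := by
  rcases Nat.lt_or_ge g 3 with hlt | hge
  · have hg2 : g = 2 := by omega
    subst hg2
    exact finite_case (A := 6) (by norm_num) ha hS (by decide)
  · obtain ⟨h, rfl⟩ := Nat.exists_eq_add_of_le hge
    exact squeeze (L := 4) (by norm_num) ha hS (ineq4a h) (ineq4b h)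

theorem case5 {g a : ℕ} (hg : 2 ≤ g) (ha : 0 < a)
    (hS : S 5 (g * a + g ^ 5) (g * a) = a ^ 5) : False := by
  rcases Nat.lt_or_ge g 5 with hlt | hge
  · have hc : chk (fun g => good 5 g ((25 * g ^ 3 + 20 * g ^ 2 + 14 * g ^ 1 + 8) / 25)) 2 2 = true := by decide +kernel
    exact finite_case (by omega) ha hS (chk_spec _ _ _ hc g hg (by norm_num; omega))
  · obtain ⟨h, rfl⟩ := Nat.exists_eq_add_of_le hge
    exact squeeze (L := 25) (by norm_num) ha hS (ineq5a h) (ineq5b h)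

theorem case6 {g a : ℕ} (hg : 2 ≤ g) (ha : 0 < a)
    (hS : S 6 (g * a + g ^ 6) (g * a) = a ^ 6) : False := by
  rcases Nat.lt_or_ge g 10 with hlt | hge
  · have hc : chk (fun g => good 6 g ((648 * g ^ 4 + 540 * g ^ 3 + 405 * g ^ 2 + 280 * g ^ 1 + 180) / 648)) 3 2 = true := by decide +kernel
    exact finite_case (by omega) ha hS (chk_spec _ _ _ hc g hg (by norm_num; omega))
  · obtain ⟨h, rfl⟩ := Nat.exists_eq_add_of_le hge
    exact squeeze (L := 648) (by norm_num) ha hS (ineq6a h) (ineq6b h)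

theorem case7 {g a : ℕ} (hg : 2 ≤ g) (ha : 0 < a)
    (hS : S 7 (g * a + g ^ 7) (g * a) = a ^ 7) : False := by
  rcases Nat.lt_or_ge g 43 with hlt | hge
  · have hc : chk (fun g => good 7 g ((2401 * g ^ 5 + 2058 * g ^ 4 + 1617 * g ^ 3 + 1190 * g ^ 2 + 828 * g ^ 1 + 546) / 2401)) 6 2 = true := by decide +kernel
    exact finite_case (by omega) ha hS (chk_spec _ _ _ hc g hg (by norm_num; omega))
  · obtain ⟨h, rfl⟩ := Nat.exists_eq_add_of_le hge
    exact squeeze (L := 2401) (by norm_num) ha hS (ineq7a h) (ineq7b h)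

theorem case8 {g a : ℕ} (hg : 2 ≤ g) (ha : 0 < a)
    (hS : S 8 (g * a + g ^ 8) (g * a) = a ^ 8) : False := by
  rcases Nat.lt_or_ge g 69 with hlt | hge
  · have hc : chk (fun g => good 8 g ((32768 * g ^ 6 + 28672 * g ^ 5 + 23296 * g ^ 4 + 17920 * g ^ 3 + 13167 * g ^ 2 + 9282 * g ^ 1 + 6289) / 32768)) 7 2 = true := by decide +kernel
    exact finite_case (by omega) ha hS (chk_spec _ _ _ hc g hg (by norm_num; omega))
  · obtain ⟨h, rfl⟩ := Nat.exists_eq_add_of_le hge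
    exact squeeze (L := 32768) (by norm_num) ha hS (ineq8a h) (ineq8b h)

theorem case9 {g a : ℕ} (hg : 2 ≤ g) (ha : 0 < a)
    (hS : S 9 (g * a + g ^ 9) (g * a) = a ^ 9) : False := by
  rcases Nat.lt_or_ge g 854 with hlt | hge
  · have hc : chk (fun g => good 9 g ((4782969 * g ^ 7 + 4251528 * g ^ 6 + 3542940 * g ^ 5 + 2816856 * g ^ 4 + 2154438 * g ^ 3 + 1592136 * g ^ 2 + 1139468 * g ^ 1 + 790484) / 4782969)) 10 2 = true := by decide +kernel
    exact finite_case (by omega) ha hS (chk_spec _ _ _ hc g hg (by norm_num; omega))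
  · obtain ⟨h, rfl⟩ := Nat.exists_eq_add_of_le hge
    exact squeeze (L := 4782969) (by norm_num) ha hS (ineq9a h) (ineq9b h)

theorem small_cases {m g a : ℕ} (hm : 3 ≤ m) (hm2 : m < 10) (hg : 2 ≤ g) (ha : 0 < a)
    (hS : S m (g * a + g ^ m) (g * a) = a ^ m) : False := by
  interval_cases m
  · exact case3 hg ha hS
  · exact case4 hg ha hS
  · exact case5 hg ha hS
  · exact case6 hg ha hS
  · exact case7 hg ha hS
  · exact case8 hg ha hS
  · exact case9 hg ha hS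

end Pool.Agent.MP_88e4f4_nt
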