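import Pool.Agent.MP_88e4f4_nt.Mono

set_option autoImplicit false

namespace Pool.Agent.MP_88e4f4_nt

open Finset

/-- Horner evaluation of the repunit with `n` digits in base `x` -/
def rep (x : ℕ) : ℕ → ℕ
  | 0 => 0
  | n + 1 => 1 + x * rep x n

theorem rep_eq (x n : ℕ) : rep x n = ∑ i ∈ range n, x ^ i := by
  induction n with
  | zero => simp [rep]
  | succ n ih =>
    rw [rep, ih, sum_range_succ', mul_sum]
    simp only [pow_succ, pow_zero]
    rw [add_comm]
    congr 1
    exact sum_congr rfl fun i _ => mul_comm _ _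

/-- for the given `g` the integer `A` is strictly below and `A + 1` strictly above the root -/
def good (m g A : ℕ) : Bool :=
  decide (rep (g * A) (m + 1) < rep (g * A + g ^ m) m) &&
  decide (rep (g * (A + 1) + g ^ m) m < rep (g * (A + 1)) (m + 1))

/-- dyadic range check -/
def chk (p : ℕ → Bool) : ℕ → ℕ → Bool
  | 0, lo => p lo
  | k + 1, lo => chk p k lo && chk p k (lo + 2 ^ k)

theorem chk_spec (p : ℕ → Bool) (k lo : ℕ) (h : chk p k lo = true) :
    ∀ g, lo ≤ g → g < lo + 2 ^ k → p g = true := by
  induction k generalizing lo with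
  | zero =>
    intro g h1 h2
    have : g = lo := by simp at h2; omega
    subst this; exact h
  | succ k ih =>
    intro g h1 h2
    simp only [chk, Bool.and_eq_true] at h
    rcases Nat.lt_or_ge g (lo + 2 ^ k) with h3 | h3
    · exact ih lo h.1 g h1 h3
    · exact ih _ h.2 g h3 (by rw [pow_succ] at h2; omega)

theorem T_one (m g K P : ℕ) : T m g K 1 P = S m (g * P + K) (g * P) := by
  have := T_eq m g K 1 P
  simpa using this

theorem finite_case {m g a A : ℕ} (hg : 0 < g) (ha : 0 < a)
    (hS : S m (g * a + g ^ m) (g * a) = a ^ m) (h : good m g A = true) : False := by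
  simp only [good, Bool.and_eq_true, decide_eq_true_eq, rep_eq] at h
  obtain ⟨h1, h2⟩ := h
  have hK : 0 < g ^ m := pow_pos hg m
  have e1 := S_mul m (g * A) (g ^ m)
  have e2 := S_mul m (g * (A + 1)) (g ^ m)
  have lo : A ^ m < T m g (g ^ m) 1 A := by
    rw [T_one]
    rw [← e1, sum_range_succ, mul_pow] at h1
    have : g ^ m * A ^ m < g ^ m * S m (g * A + g ^ m) (g * A) := by omega
    exact Nat.lt_of_mul_lt_mul_left this
  have hi : T m g (g ^ m) 1 (A + 1) < (A + 1) ^ m := by
    rw [T_one]
    rw [← e2, sum_range_succ, mul_pow] at h2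
    have : g ^ m * S m (g * (A + 1) + g ^ m) (g * (A + 1)) < g ^ m * (A + 1) ^ m := by omega
    exact Nat.lt_of_mul_lt_mul_left this
  exact squeeze (m := m) (g := g) (K := g ^ m) (L := 1) (a := a) (Q := A) (r := 0)
    one_pos ha hS (by simpa using lo) (by simpa using hi)

end Pool.Agent.MP_88e4f4_nt
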