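import Mathlib

set_option autoImplicit false

namespace Pool.Agent.MP_88e4f4_nt.GB

open Finset

/-- For an injective-on-`s` choice of naturals, the sum of a monotone function of the
values is at least the sum over `range s.card`. -/
theorem sum_ge_of_injOn {ι : Type*} [DecidableEq ι] (s : Finset ι) (f : ι → ℕ)
    (hf : Set.InjOn f s) (K : ℕ) :
    ∑ t ∈ range s.card, (t - K) ≤ ∑ i ∈ s, (f i - K) := by
  have h1 : ∑ i ∈ s, (f i - K) = ∑ j ∈ s.image f, (j - K) := by
    rw [Finset.sum_image hf]
  have h2 : s.card = (s.image f).card := (Finset.card_image_of_injOn hf).symm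
  rw [h1, h2]
  generalize s.image f = A
  -- induction on the finset by removing the maximum
  induction A using Finset.induction_on_max with
  | empty => simp
  | insert a A ha ih =>
    have hna : a ∉ A := fun h => lt_irrefl _ (ha a h)
    rw [Finset.card_insert_of_notMem hna, Finset.sum_range_succ, Finset.sum_insert hna]
    have hcard : A.card ≤ a := by
      have : A ⊆ range a := fun x hx => mem_range.2 (ha x hx)
      simpa using card_le_card this
    omega

/-- Each row of `M` is an integral combination of the vectors `β j` (`j < J`) with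
coefficients divisible by `p ^ (j - K)`, plus `p ^ V` times an integral vector, `V ≥ N := card ι`.
Then `p ^ (∑ t < N, (t - K))` divides `det M`.
Proof: write `M i t = ∑ g ∈ range J ⊕ ι, w i g * v g t` with `v (inl j) = β j`, `w i (inl j) = c i j`,
`v (inr s) = Pi.single s 1`, `w i (inr s) = p ^ V * E i s`; expand `det` multilinearly over the rows
(`MultilinearMap.map_sum`, `MultilinearMap.map_smul_univ` for `Matrix.detRowAlternating`): a term is
indexed by `f : ι → Fin J ⊕ ι`; if `f` takes the same `inl j` at two rows the determinant is `0`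
(`Matrix.det_zero_of_row_eq`), otherwise the coefficient `∏ i, w i (f i)` is divisible by
`p ^ (∑_{i : f i = inl j} (j - K) + V * #{i : f i = inr _})`, and by (2a) this exponent is at least
`∑ t < q, (t-K) + V (N - q) ≥ ∑ t < N, (t - K)`, `q = #{i : f i = inl _}`. -/
theorem det_dvd_of_span {ι : Type*} [Fintype ι] [DecidableEq ι] {p V K J : ℕ}
    (hV : Fintype.card ι ≤ V) (M : Matrix ι ι ℤ) (β : ℕ → ι → ℤ) (c : ι → ℕ → ℤ)
    (E : Matrix ι ι ℤ) (hc : ∀ i j, (p : ℤ) ^ (j - K) ∣ c i j)
    (hM : ∀ i t, M i t = ∑ j ∈ range J, c i j * β j t + (p : ℤ) ^ V * E i t) :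
    (p : ℤ) ^ (∑ t ∈ range (Fintype.card ι), (t - K)) ∣ M.det := by
  classical
  set A : Finset (ℕ ⊕ ι) := (range J).disjSum univ with hA
  set v : ℕ ⊕ ι → ι → ℤ := Sum.elim β (fun s => Pi.single s 1) with hv
  set w : ι → ℕ ⊕ ι → ℤ := fun i => Sum.elim (c i) (fun s => (p : ℤ) ^ V * E i s) with hw
  have hM' : M = fun i => ∑ g ∈ A, w i g • v g := by
    funext i t
    rw [hM i t, Finset.sum_apply, hA, Finset.sum_disjSum]
    congr 1
    · rw [Finset.sum_eq_single t]
      · simp [hw, hv]
      · intro b _ hb
        simp [hw, hv, Pi.single_apply, hb.symm]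
      · intro h
        exact absurd (mem_univ t) h
  have hdet : M.det = ∑ f ∈ Fintype.piFinset (fun _ : ι => A),
      (∏ i, w i (f i)) * Matrix.det (fun i => v (f i)) := by
    have h1 : M.det = Matrix.detRowAlternating M := rfl
    rw [h1, hM']
    have h2 := (Matrix.detRowAlternating (R := ℤ) (n := ι)).toMultilinearMap.map_sum_finset
      (fun i g => w i g • v g) (fun _ => A)
    refine h2.trans ?_
    refine Finset.sum_congr rfl fun f _ => ?_
    have h3 := (Matrix.detRowAlternating (R := ℤ) (n := ι)).toMultilinearMap.map_smul_univ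
      (fun i => w i (f i)) (fun i => v (f i))
    exact h3
  rw [hdet]
  refine Finset.dvd_sum fun f _ => ?_
  by_cases hinj : Function.Injective f
  · refine Dvd.dvd.mul_right ?_ _
    set S : Finset ι := univ.filter (fun i => (f i).isLeft) with hS
    set g : ι → ℕ := fun i => (f i).elim id (fun _ => 0) with hg
    have hgS : ∀ i ∈ S, f i = Sum.inl (g i) := by
      intro i hi
      have h1 : (f i).isLeft = true := (mem_filter.1 hi).2
      rcases h2 : f i with a | b
      · rw [hg]
        simp only [h2, Sum.elim_inl, id]
      · rw [h2] at h1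
        exact absurd h1 (by simp)
    have hgI : Set.InjOn g S := by
      intro i hi j hj hij
      apply hinj
      rw [hgS i hi, hgS j hj, hij]
    have h1 := sum_ge_of_injOn S g hgI K
    have hdv : ∀ i ∈ (univ : Finset ι), (p : ℤ) ^ (if i ∈ S then g i - K else V) ∣ w i (f i) := by
      intro i _
      by_cases hi : i ∈ S
      · rw [if_pos hi, hgS i hi]
        exact hc i (g i)
      · rw [if_neg hi]
        rcases h2 : f i with a | b
        · exfalso
          apply hi
          rw [hS, mem_filter, h2]
          exact ⟨mem_univ _, rfl⟩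
        · exact Dvd.intro _ rfl
    have h2 := Finset.prod_dvd_prod_of_dvd _ _ hdv
    rw [Finset.prod_pow_eq_pow_sum] at h2
    refine dvd_trans (pow_dvd_pow _ ?_) h2
    rw [Finset.sum_ite, Finset.sum_const, smul_eq_mul]
    have h3 : univ.filter (fun i => i ∈ S) = S := by
      ext i
      simp
    have h4 : (univ.filter (fun i => i ∉ S)).card = Fintype.card ι - S.card := by
      have h5 : univ.filter (fun i => i ∉ S) = Sᶜ := by
        ext i
        simp
      rw [h5, Finset.card_compl]
    rw [h3, h4]
    have hle : S.card ≤ Fintype.card ι := Finset.card_le_univ S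
    have h5 : ∑ t ∈ range (Fintype.card ι), (t - K) =
        ∑ t ∈ range S.card, (t - K) + ∑ t ∈ Finset.Ico S.card (Fintype.card ι), (t - K) := by
      rw [Finset.sum_range_add_sum_Ico _ hle]
    have h6 : ∑ t ∈ Finset.Ico S.card (Fintype.card ι), (t - K) ≤ (Fintype.card ι - S.card) * V := by
      have h7 : ∀ t ∈ Finset.Ico S.card (Fintype.card ι), t - K ≤ V := by
        intro t ht
        have := (Finset.mem_Ico.1 ht).2
        omega
      have h8 := Finset.sum_le_card_nsmul _ _ _ h7
      rw [Nat.card_Ico, smul_eq_mul] at h8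
      exact h8
    omega
  · have h0 : Matrix.det (fun i => v (f i)) = 0 := by
      unfold Function.Injective at hinj
      push Not at hinj
      obtain ⟨i, j, hij, hne⟩ := hinj
      exact Matrix.det_zero_of_row_eq hne (by
        show v (f i) = v (f j)
        rw [hij])
    rw [h0, mul_zero]
    exact dvd_zero _

end Pool.Agent.MP_88e4f4_nt.GB
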