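import Mathlib

set_option autoImplicit false

namespace Pool.Agent.MP_88e4f4_nt.GB

open Finset

/-- A rational matrix with linearly independent rows has a non-zero maximal minor. -/
theorem exists_minor {ι τ : Type*} [Fintype ι] [DecidableEq ι] [Fintype τ] (M : Matrix ι τ ℚ)
    (h : ∀ c : ι → ℚ, (∀ t, ∑ i, c i * M i t = 0) → c = 0) :
    ∃ e : ι → τ, (Matrix.of fun i j => M i (e j)).det ≠ 0 := by
  classical
  set col : τ → (ι → ℚ) := fun t i => M i t with hcol
  have hspan : Submodule.span ℚ (Set.range col) = ⊤ := by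
    by_contra hne
    obtain ⟨f, hf, hle⟩ := Submodule.exists_le_ker_of_lt_top _ (lt_top_iff_ne_top.2 hne)
    apply hf
    have hc : (fun i => f (Pi.single i 1)) = (0 : ι → ℚ) := by
      apply h
      intro t
      have h1 : f (col t) = 0 := by
        have : col t ∈ Submodule.span ℚ (Set.range col) := Submodule.subset_span ⟨t, rfl⟩
        exact LinearMap.mem_ker.1 (hle this)
      rw [← h1]
      have h2 : col t = ∑ i, (M i t) • (Pi.single i (1 : ℚ) : ι → ℚ) := by
        ext j
        simp [hcol, Finset.sum_apply, Pi.single_apply]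
      rw [h2, map_sum]
      refine Finset.sum_congr rfl fun i _ => ?_
      rw [map_smul, smul_eq_mul, mul_comm]
    apply LinearMap.ext
    intro v
    have h2 : v = ∑ i, (v i) • (Pi.single i (1 : ℚ) : ι → ℚ) := by
      ext j
      simp [Finset.sum_apply, Pi.single_apply]
    rw [h2, map_sum, LinearMap.zero_apply]
    apply Finset.sum_eq_zero
    intro i _
    rw [map_smul]
    have := congrFun hc i
    simp only [Pi.zero_apply] at this
    rw [this, smul_zero]
  obtain ⟨b, hb1, hb2, hb3⟩ := exists_linearIndependent ℚ (Set.range col)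
  have hb4 : Submodule.span ℚ b = ⊤ := by rw [hb2, hspan]
  let B : Module.Basis b ℚ (ι → ℚ) := Module.Basis.mk hb3 (by rw [Subtype.range_coe]; exact hb4.ge)
  haveI : Fintype b := FiniteDimensional.fintypeBasisIndex B
  have hcard : Fintype.card b = Fintype.card ι := by
    rw [← Module.finrank_eq_card_basis B, Module.finrank_pi]
  obtain ⟨eqv⟩ := Fintype.card_eq.1 hcard.symm
  have hpre : ∀ v : b, ∃ t, col t = v := fun v => hb1 v.2
  choose g hg using hpre
  refine ⟨fun j => g (eqv j), ?_⟩
  have hli : LinearIndependent ℚ (fun j : ι => col (g (eqv j))) := by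
    have h1 : (fun j : ι => col (g (eqv j))) = (fun v : b => (v : ι → ℚ)) ∘ eqv := by
      funext j; simp [hg]
    rw [h1]
    exact hb3.comp _ eqv.injective
  have h2 : (Matrix.of fun i j => M i (g (eqv j))).col = fun j : ι => col (g (eqv j)) := by
    funext j i
    rfl
  have h3 : IsUnit (Matrix.of fun i j => M i (g (eqv j))) := by
    rw [← Matrix.linearIndependent_cols_iff_isUnit, h2]
    exact hli
  exact ((Matrix.isUnit_iff_isUnit_det _).1 h3).ne_zero

end Pool.Agent.MP_88e4f4_nt.GB
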