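import Pool.Agent.MP_88e4f4_nt.GPoly

set_option autoImplicit false

namespace Pool.Agent.MP_88e4f4_nt.GB

open Finset Polynomial

/-- Zero lemma: a polynomial `P(X, U) = ∑ c_{kl} X^k U^l` (`k < K`, `l < L`) vanishing at all
points `(r + s m, a^r b1^s b2^(S-s))`, `r < L + R`, `s < S`, where `R ≤ m` and `K L ≤ R S`, is zero. -/
theorem zero_lemma (K L R S m : ℕ) (a b1 b2 : ℤ) (ha : 2 ≤ a) (hb1 : b1 ≠ 0) (hb2 : b2 ≠ 0)
    (hRm : R ≤ m) (hRS : K * L ≤ R * S) (c : ℕ → ℕ → ℚ)
    (h : ∀ r < L + R, ∀ s < S, ∑ k ∈ range K, ∑ l ∈ range L,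
      c k l * ((r + s * m : ℕ) : ℚ) ^ k * ((a : ℚ) ^ r * (b1 : ℚ) ^ s * (b2 : ℚ) ^ (S - s)) ^ l = 0) :
    ∀ k < K, ∀ l < L, c k l = 0 := by
  classical
  by_contra hcon
  push Not at hcon
  obtain ⟨k0, hk0, l0, hl0, hc0⟩ := hcon
  -- the polynomials `P_l`
  set P : ℕ → ℚ[X] := fun l => ∑ k ∈ range K, C (c k l) * X ^ k with hP
  have hcoeff : ∀ l k, k < K → (P l).coeff k = c k l := by
    intro l k hk
    simp only [hP, finsetSum_coeff, coeff_C_mul, coeff_X_pow]
    rw [Finset.sum_eq_single k]
    · simp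
    · intro b _ hb; simp [Ne.symm hb]
    · intro hnk; exact absurd (mem_range.2 hk) hnk
  have hdeg : ∀ l, (P l).natDegree < K := by
    intro l
    have hK : 0 < K := by omega
    apply lt_of_le_of_lt (natDegree_sum_le_of_forall_le (n := K - 1) (range K) _ ?_) (by omega)
    intro k hk
    rw [mem_range] at hk
    exact (natDegree_C_mul_X_pow_le _ _).trans (by omega)
  set Lam : Finset ℕ := (range L).filter fun l => P l ≠ 0 with hLam
  have hl0mem : l0 ∈ Lam := by
    rw [hLam, mem_filter]
    refine ⟨mem_range.2 hl0, fun h0 => hc0 ?_⟩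
    rw [← hcoeff l0 k0 hk0, h0, coeff_zero]
  set q := Lam.card with hq
  have hq1 : 0 < q := card_pos.2 ⟨l0, hl0mem⟩
  have hqL : q ≤ L := by
    rw [hq, hLam]
    calc _ ≤ (range L).card := card_filter_le _ _
      _ = L := card_range L
  let en : Fin q → ℕ := Lam.orderEmbOfFin rfl
  have hen_inj : Function.Injective en := (Lam.orderEmbOfFin rfl).injective
  have hen_mem : ∀ i, en i ∈ Lam := fun i => Finset.orderEmbOfFin_mem Lam rfl i
  have hen_img : Finset.univ.image en = Lam := by
    ext x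
    constructor
    · intro hx
      obtain ⟨i, _, rfl⟩ := mem_image.1 hx
      exact hen_mem i
    · intro hx
      have : x ∈ Set.range (Lam.orderEmbOfFin rfl) := by
        rw [Finset.range_orderEmbOfFin]; exact hx
      obtain ⟨i, hi⟩ := this
      exact mem_image.2 ⟨i, mem_univ _, hi⟩
  have haq : (1 : ℚ) < (a : ℚ) := by
    have : (2 : ℚ) ≤ (a : ℚ) := by exact_mod_cast ha
    linarith
  set PP : Fin q → ℚ[X] := fun i => P (en i) with hPP
  set v : Fin q → ℚ := fun i => (a : ℚ) ^ (en i) with hv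
  have hvinj : Function.Injective v := by
    intro i j hij
    apply hen_inj
    exact pow_right_injective₀ (by linarith) (by linarith) hij
  have hne := det_shiftMat_ne_zero PP v (fun i => (mem_filter.1 (hen_mem i)).2) hvinj
  have hdegdet := natDegree_det_shiftMat (K := K) PP v (fun i => hdeg _)
  apply hne
  -- zeros
  set Z : Finset ℕ := ((range R) ×ˢ (range S)).image (fun t => t.1 + t.2 * m) with hZ
  have hZcard : Z.card = R * S := by
    rw [hZ, Finset.card_image_of_injOn, card_product, card_range, card_range]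
    intro t ht t' ht' htt
    simp only [coe_product, coe_range, Set.mem_prod, Set.mem_Iio] at ht ht'
    simp only at htt
    have hm : 0 < m := by omega
    have h1 : (t.1 + t.2 * m) % m = (t'.1 + t'.2 * m) % m := by rw [htt]
    rw [Nat.add_mul_mod_self_right, Nat.add_mul_mod_self_right, Nat.mod_eq_of_lt (by omega),
      Nat.mod_eq_of_lt (by omega)] at h1
    have h2 : t.2 * m = t'.2 * m := by omega
    exact Prod.ext h1 (Nat.eq_of_mul_eq_mul_right hm h2)
  set ZQ : Finset ℚ := Z.image (Nat.cast : ℕ → ℚ) with hZQ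
  have hZQcard : ZQ.card = R * S := by
    rw [hZQ, Finset.card_image_of_injective _ Nat.cast_injective, hZcard]
  apply Polynomial.eq_zero_of_natDegree_lt_card_of_eval_eq_zero' _ ZQ
  · intro x hx
    obtain ⟨z, hz, rfl⟩ := mem_image.1 hx
    obtain ⟨t, ht, rfl⟩ := mem_image.1 hz
    obtain ⟨r, s⟩ := t
    rw [mem_product, mem_range, mem_range] at ht
    obtain ⟨hr, hs⟩ := ht
    simp only at hr hs ⊢
    set u : ℚ := (a : ℚ) ^ r * (b1 : ℚ) ^ s * (b2 : ℚ) ^ (S - s) with hu
    have hu0 : u ≠ 0 := by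
      have h1 : (a : ℚ) ≠ 0 := by linarith
      have h2 : (b1 : ℚ) ≠ 0 := by exact_mod_cast hb1
      have h3 : (b2 : ℚ) ≠ 0 := by exact_mod_cast hb2
      rw [hu]
      exact mul_ne_zero (mul_ne_zero (pow_ne_zero _ h1) (pow_ne_zero _ h2)) (pow_ne_zero _ h3)
    set z0 : ℚ := ((r + s * m : ℕ) : ℚ) with hz0
    have hdet0 : ((shiftMat PP v).map (evalRingHom z0)).det = 0 := by
      apply Matrix.exists_mulVec_eq_zero_iff.1
      refine ⟨fun l => u ^ (en l), ?_, ?_⟩
      · intro h0
        have := congrFun h0 ⟨0, hq1⟩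
        exact pow_ne_zero _ hu0 this
      · funext i
        have hi : (i : ℕ) < q := i.2
        have h1 := h (r + (i : ℕ)) (by omega) s hs
        have hz1 : ((r + (i : ℕ) + s * m : ℕ) : ℚ) = z0 + (i : ℕ) := by
          rw [hz0]; push_cast; ring
        have hu1 : (a : ℚ) ^ (r + (i : ℕ)) * (b1 : ℚ) ^ s * (b2 : ℚ) ^ (S - s) = (a : ℚ) ^ (i : ℕ) * u := by
          rw [hu, pow_add]; ring
        rw [hz1, hu1, Finset.sum_comm] at h1
        -- inner sums are evaluations of `P l`
        have h2 : ∀ l ∈ range L, ∑ k ∈ range K, c k l * (z0 + (i : ℕ)) ^ k *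
            ((a : ℚ) ^ (i : ℕ) * u) ^ l =
            (P l).eval (z0 + (i : ℕ)) * ((a : ℚ) ^ l) ^ (i : ℕ) * u ^ l := by
          intro l _
          simp only [hP, eval_finset_sum, eval_mul, eval_C, eval_pow, eval_X]
          rw [Finset.sum_mul, Finset.sum_mul]
          refine Finset.sum_congr rfl fun k _ => ?_
          rw [mul_pow, ← pow_mul, ← pow_mul, mul_comm (i : ℕ) l]
          ring
        rw [Finset.sum_congr rfl h2] at h1
        have h3 : ∑ l ∈ Lam, (P l).eval (z0 + (i : ℕ)) * ((a : ℚ) ^ l) ^ (i : ℕ) * u ^ l = 0 := by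
          rw [← h1, hLam]
          apply Finset.sum_subset (filter_subset _ _)
          intro l hl hl'
          rw [mem_filter, not_and, not_not] at hl'
          rw [hl' hl]
          simp
        rw [← hen_img, Finset.sum_image (fun i _ j _ hij => hen_inj hij)] at h3
        simp only [Matrix.mulVec, dotProduct, Matrix.map_apply, shiftMat, Matrix.of_apply,
          coe_evalRingHom, eval_mul, eval_comp, eval_add, eval_X, eval_C, Pi.zero_apply]
        rw [← h3]
    have h4 : (shiftMat PP v).det.eval z0 = ((shiftMat PP v).map (evalRingHom z0)).det := by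
      rw [← coe_evalRingHom, RingHom.map_det]; rfl
    rw [h4]
    exact hdet0
  · rw [hZQcard]
    have h1 : q * (K - 1) < K * L := by
      have : q * (K - 1) ≤ L * (K - 1) := Nat.mul_le_mul_right _ hqL
      have h2 : L * (K - 1) < K * L := by
        rw [mul_comm K L]
        exact Nat.mul_lt_mul_of_pos_left (by omega) (by omega)
      omega
    omega

end Pool.Agent.MP_88e4f4_nt.GB
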