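import Pool.Agent.MP_88e4f4_nt.GTy
import Pool.Agent.MP_88e4f4_nt.GDet
import Pool.Agent.MP_88e4f4_nt.GZero2
import Pool.Agent.MP_88e4f4_nt.GMinor
import Pool.Agent.MP_88e4f4_nt.GCore

set_option autoImplicit false

namespace Pool.Agent.MP_88e4f4_nt.GB

open Finset

/-- The entry of the interpolation matrix, general form. -/
def entry2 (K L R S : ℕ) (a : ℤ) (w : ℕ → ℕ) (u : ℕ → ℤ) (i : Fin K × Fin L)
    (t : Fin (L + R) × Fin S) : ℤ :=
  (((t.1 : ℕ) + w (t.2 : ℕ) : ℕ) : ℤ) ^ (i.1 : ℕ) * (a ^ (t.1 : ℕ) * u (t.2 : ℕ)) ^ (i.2 : ℕ)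

theorem rows_indep2 {K L R S : ℕ} {a : ℤ} {w : ℕ → ℕ} {u : ℕ → ℤ} (ha : 2 ≤ a)
    (hu : ∀ s < S, u s ≠ 0)
    (hinj : ∀ j < R, ∀ s < S, ∀ j' < R, ∀ s' < S, j + w s = j' + w s' → j = j' ∧ s = s')
    (hRS : K * L ≤ R * S) (c : Fin K × Fin L → ℚ)
    (h : ∀ t : Fin (L + R) × Fin S, ∑ i, c i * ((entry2 K L R S a w u i t : ℤ) : ℚ) = 0) :
    c = 0 := by
  classical
  set c' : ℕ → ℕ → ℚ := fun k l =>
    if h : k < K ∧ l < L then c (⟨k, h.1⟩, ⟨l, h.2⟩) else 0 with hc'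
  have key := zero_lemma2 K L R S a ha w u hu hinj hRS c' (by
    intro r hr s hs
    have h1 := h (⟨r, hr⟩, ⟨s, hs⟩)
    rw [Fintype.sum_prod_type] at h1
    rw [← Fin.sum_univ_eq_sum_range (fun k => ∑ l ∈ range L,
      c' k l * ((r + w s : ℕ) : ℚ) ^ k * ((a : ℚ) ^ r * (u s : ℚ)) ^ l) K]
    rw [← h1]
    refine Finset.sum_congr rfl fun k _ => ?_
    rw [← Fin.sum_univ_eq_sum_range (fun l =>
      c' (k : ℕ) l * ((r + w s : ℕ) : ℚ) ^ (k : ℕ) * ((a : ℚ) ^ r * (u s : ℚ)) ^ l) L]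
    refine Finset.sum_congr rfl fun l _ => ?_
    have h2 : c' (k : ℕ) (l : ℕ) = c (k, l) := by
      simp only [hc', k.2, l.2, and_self, dif_pos]
    rw [h2]
    simp only [entry2]
    push_cast
    ring)
  funext i
  obtain ⟨k, l⟩ := i
  have := key k k.2 l l.2
  simpa [hc', k.2, l.2] using this

theorem lf_core2 {P V K L R S α σ μ ν π : ℕ} {a β : ℤ} {w : ℕ → ℕ} {u : ℕ → ℤ}
    (hP : 2 ^ π ≤ P) (ha : 2 ≤ a)
    (hPa : (P : ℤ) ∣ a - 1) (hu : ∀ s < S, u s ≠ 0)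
    (hV : ∀ s < S, (P : ℤ) ^ V ∣ u s - β * a ^ (w s))
    (hinj : ∀ j < R, ∀ s < S, ∀ j' < R, ∀ s' < S, j + w s = j' + w s' → j = j' ∧ s = s')
    (hRS : K * L ≤ R * S) (hVN : K * L ≤ V)
    (ha' : a ≤ 2 ^ α) (hu' : ∀ s < S, |u s| ≤ 2 ^ σ)
    (hμ : ∀ s < S, L + R + w s ≤ 2 ^ μ) (hν : K * L ≤ 2 ^ ν) (hK : 1 ≤ K) (hL : 1 ≤ L) :
    K * L * π ≤ 2 * K * π + π + 2 * ν + 2 * K * μ + 2 * L * (α * (L + R) + σ) := by
  classical
  set N := K * L with hN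
  have hN1 : 1 ≤ N := Nat.mul_pos hK hL
  have hcard : Fintype.card (Fin K × Fin L) = N := by simp [hN]
  obtain ⟨e, he⟩ := exists_minor
    (fun (i : Fin K × Fin L) (t : Fin (L + R) × Fin S) => ((entry2 K L R S a w u i t : ℤ) : ℚ))
    (rows_indep2 ha hu hinj hRS)
  set M : Matrix (Fin K × Fin L) (Fin K × Fin L) ℤ :=
    Matrix.of fun i j => entry2 K L R S a w u i (e j) with hM
  have hdet : M.det ≠ 0 := by
    intro h0
    apply he
    have h1 : (Matrix.of fun (i j : Fin K × Fin L) =>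
        ((entry2 K L R S a w u i (e j) : ℤ) : ℚ)) = M.map (Int.castRingHom ℚ) := by
      ext i j; simp [hM]
    have h2 : (Matrix.of fun (i j : Fin K × Fin L) =>
        ((entry2 K L R S a w u i (e j) : ℤ) : ℚ)).det = 0 := by
      rw [h1, ← RingHom.mapMatrix_apply, ← RingHom.map_det, h0, map_zero]
    exact h2
  -- divisibility
  have hdvd : (P : ℤ) ^ (∑ t ∈ range N, (t - K)) ∣ M.det := by
    set z : Fin K × Fin L → ℕ := fun j => ((e j).1 : ℕ) + w ((e j).2 : ℕ) with hz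
    obtain ⟨J, hJ⟩ : ∃ J, ∀ j, z j < J := ⟨∑ j, z j + 1, fun j =>
      Nat.lt_succ_of_le (Finset.single_le_sum (f := z) (fun _ _ => Nat.zero_le _) (mem_univ j))⟩
    have hTy : ∀ i : Fin K × Fin L, Ty P K (fun z => β ^ (i.2 : ℕ) *
        ((z : ℤ) ^ (i.1 : ℕ) * (a ^ (i.2 : ℕ)) ^ z)) := fun i =>
      Ty.mono i.1.2.le (Ty.main hPa (i.1 : ℕ) (i.2 : ℕ) (β ^ (i.2 : ℕ)))
    choose c hc1 hc2 using fun i => (hTy i).extend
    have hE : ∀ i j, ∃ q : ℤ, M i j = β ^ (i.2 : ℕ) *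
        ((z j : ℤ) ^ (i.1 : ℕ) * (a ^ (i.2 : ℕ)) ^ (z j)) + (P : ℤ) ^ V * q := by
      intro i j
      have hs := (e j).2.2
      have hmod : (a ^ ((e j).1 : ℕ) * u ((e j).2 : ℕ)) ^ (i.2 : ℕ) ≡
          (a ^ ((e j).1 : ℕ) * (β * a ^ (w ((e j).2 : ℕ)))) ^ (i.2 : ℕ) [ZMOD (P : ℤ) ^ V] := by
        have h0 : β * a ^ (w ((e j).2 : ℕ)) ≡ u ((e j).2 : ℕ) [ZMOD (P : ℤ) ^ V] :=
          Int.modEq_iff_dvd.2 (hV _ hs)
        exact ((Int.ModEq.refl _).mul h0.symm).pow _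
      have heq : (a ^ ((e j).1 : ℕ) * (β * a ^ (w ((e j).2 : ℕ)))) ^ (i.2 : ℕ) =
          β ^ (i.2 : ℕ) * (a ^ (i.2 : ℕ)) ^ (z j) := by
        rw [← pow_mul a, mul_comm (i.2 : ℕ) (z j), pow_mul a (z j), ← mul_pow]
        congr 1
        simp only [hz]
        rw [pow_add]
        ring
      rw [heq] at hmod
      obtain ⟨q, hq⟩ := (Int.modEq_iff_dvd.1 hmod.symm)
      refine ⟨(z j : ℤ) ^ (i.1 : ℕ) * q, ?_⟩
      have h3 : (a ^ ((e j).1 : ℕ) * u ((e j).2 : ℕ)) ^ (i.2 : ℕ) =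
          β ^ (i.2 : ℕ) * (a ^ (i.2 : ℕ)) ^ (z j) + (P : ℤ) ^ V * q := by linarith
      simp only [hM, Matrix.of_apply, entry2]
      rw [h3]
      simp only [hz]
      ring
    choose E hE' using hE
    rw [← hcard]
    refine det_dvd_of_span (V := V) (K := K) (J := J) (by rw [hcard]; exact hVN) M
      (fun j t => ((z t).choose j : ℤ)) c E hc1 ?_
    intro i t
    rw [hE' i t]
    have := hc2 i J (z t) (hJ t)
    rw [← this]
  -- size
  have hsize : |M.det| ≤ (N.factorial : ℤ) * (2 ^ (K * μ + L * (α * (L + R) + σ))) ^ N := by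
    have h1 := Matrix.det_le (A := M) (abv := (AbsoluteValue.abs : AbsoluteValue ℤ ℤ))
      (x := 2 ^ (K * μ + L * (α * (L + R) + σ))) (by
        intro i j
        simp only [AbsoluteValue.abs_apply, hM, Matrix.of_apply, entry2]
        rw [abs_mul, abs_pow, abs_pow, abs_mul, abs_pow, pow_add]
        have hr : ((e j).1 : ℕ) ≤ L + R := (e j).1.2.le
        have hs := (e j).2.2
        have hk : (i.1 : ℕ) ≤ K := i.1.2.le
        have hl : (i.2 : ℕ) ≤ L := i.2.2.le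
        have h1 : |((((e j).1 : ℕ) + w ((e j).2 : ℕ) : ℕ) : ℤ)| ≤ 2 ^ μ := by
          rw [Nat.abs_cast]
          have h3 := hμ _ hs
          have : ((e j).1 : ℕ) + w ((e j).2 : ℕ) ≤ 2 ^ μ := by omega
          exact_mod_cast this
        have h2 : |a| ≤ 2 ^ α := by rw [abs_of_nonneg (by omega)]; exact ha'
        have hone : (1 : ℤ) ≤ 2 := by norm_num
        apply mul_le_mul
        · calc |((((e j).1 : ℕ) + w ((e j).2 : ℕ) : ℕ) : ℤ)| ^ (i.1 : ℕ)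
              ≤ (2 ^ μ) ^ (i.1 : ℕ) := pow_le_pow_left₀ (abs_nonneg _) h1 _
            _ ≤ (2 ^ μ) ^ K := pow_le_pow_right₀ (one_le_pow₀ hone) hk
            _ = 2 ^ (K * μ) := by rw [← pow_mul, mul_comm]
        · have h4 : |a| ^ ((e j).1 : ℕ) * |u ((e j).2 : ℕ)| ≤ 2 ^ (α * (L + R) + σ) := by
            calc |a| ^ ((e j).1 : ℕ) * |u ((e j).2 : ℕ)|
                ≤ (2 ^ α) ^ ((e j).1 : ℕ) * 2 ^ σ := by
                  gcongr
                  exact hu' _ hs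
              _ ≤ (2 ^ α) ^ (L + R) * 2 ^ σ := by
                  gcongr
                  exact one_le_pow₀ hone
              _ = 2 ^ (α * (L + R) + σ) := by rw [← pow_mul, ← pow_add]
          calc (|a| ^ ((e j).1 : ℕ) * |u ((e j).2 : ℕ)|) ^ (i.2 : ℕ)
              ≤ (2 ^ (α * (L + R) + σ)) ^ (i.2 : ℕ) := pow_le_pow_left₀ (by positivity) h4 _
            _ ≤ (2 ^ (α * (L + R) + σ)) ^ L := pow_le_pow_right₀ (one_le_pow₀ hone) hl
            _ = 2 ^ (L * (α * (L + R) + σ)) := by rw [← pow_mul]; congr 1; ring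
        · positivity
        · positivity)
    rw [hcard, nsmul_eq_mul] at h1
    exact h1
  have hpos : 0 < |M.det| := abs_pos.2 hdet
  have hle : (P : ℤ) ^ (∑ t ∈ range N, (t - K)) ≤ |M.det| :=
    Int.le_of_dvd hpos ((dvd_abs _ _).2 hdvd)
  set e0 := ∑ t ∈ range N, (t - K) with he0
  have h2e : (2 : ℤ) ^ (π * e0) ≤ (P : ℤ) ^ e0 := by
    rw [pow_mul]
    exact pow_le_pow_left₀ (by positivity) (by exact_mod_cast hP) _
  have hfac : (N.factorial : ℤ) ≤ (2 ^ ν) ^ N := by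
    have h1 : N.factorial ≤ N ^ N := Nat.factorial_le_pow N
    have h2 : N ^ N ≤ (2 ^ ν) ^ N := Nat.pow_le_pow_left hν N
    exact_mod_cast h1.trans h2
  have hfin : (2 : ℤ) ^ (π * e0) ≤ 2 ^ (N * (ν + K * μ + L * (α * (L + R) + σ))) := by
    calc (2 : ℤ) ^ (π * e0) ≤ |M.det| := h2e.trans hle
      _ ≤ (N.factorial : ℤ) * (2 ^ (K * μ + L * (α * (L + R) + σ))) ^ N := hsize
      _ ≤ (2 ^ ν) ^ N * (2 ^ (K * μ + L * (α * (L + R) + σ))) ^ N := by
          apply mul_le_mul_of_nonneg_right hfac (by positivity)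
      _ = 2 ^ (N * (ν + K * μ + L * (α * (L + R) + σ))) := by
          rw [← mul_pow, ← pow_add, ← pow_mul]; congr 1; ring
  have he1 : π * e0 ≤ N * (ν + K * μ + L * (α * (L + R) + σ)) :=
    (pow_le_pow_iff_right₀ (by norm_num : (1 : ℤ) < 2)).1 hfin
  have hge := two_sum_ge N K
  set Y := ν + K * μ + L * (α * (L + R) + σ) with hY
  have h5 : N * (π * (N - 1)) ≤ N * (2 * K * π + 2 * Y) := by
    calc N * (π * (N - 1)) = π * (N * (N - 1)) := by ring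
      _ ≤ π * (2 * e0 + 2 * N * K) := Nat.mul_le_mul_left _ hge
      _ = 2 * (π * e0) + N * (2 * K * π) := by ring
      _ ≤ 2 * (N * Y) + N * (2 * K * π) := by omega
      _ = N * (2 * K * π + 2 * Y) := by ring
  have h6 : π * (N - 1) ≤ 2 * K * π + 2 * Y := Nat.le_of_mul_le_mul_left h5 hN1
  have h7 : N * π = π * (N - 1) + π := by
    obtain ⟨N', hN'⟩ : ∃ N', N = N' + 1 := ⟨N - 1, by omega⟩
    rw [hN', Nat.add_sub_cancel]; ring
  have h8 : 2 * K * π + π + 2 * ν + 2 * K * μ + 2 * L * (α * (L + R) + σ) =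
      2 * K * π + 2 * Y + π := by rw [hY]; ring
  rw [h7, h8]
  omega

end Pool.Agent.MP_88e4f4_nt.GB
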