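import Pool.Agent.MP_88e4f4_nt.GStepA
import Pool.Agent.MP_88e4f4_nt.GCore2

set_option autoImplicit false

namespace Pool.Agent.MP_88e4f4_nt.GB

open Finset

/-- The order of `x` modulo `P`. -/
theorem exists_order {x P t : ℕ} (hP : 2 ≤ P) (hco : Nat.Coprime P x) (ht : P ∣ x ^ t - 1)
    (hx : 1 ≤ x) :
    ∃ o, 1 ≤ o ∧ o < P ∧ o ∣ t ∧ (P : ℤ) ∣ (x : ℤ) ^ o - 1 := by
  have : NeZero P := ⟨by omega⟩
  have : Fact (1 < P) := ⟨by omega⟩
  set u : (ZMod P)ˣ := ZMod.unitOfCoprime x hco.symm with hu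
  have hval : ((u : (ZMod P)ˣ) : ZMod P) = (x : ZMod P) := ZMod.coe_unitOfCoprime x hco.symm
  refine ⟨orderOf u, orderOf_pos u, ?_, ?_, ?_⟩
  · calc orderOf u ≤ Fintype.card (ZMod P)ˣ := orderOf_le_card_univ
      _ = P.totient := ZMod.card_units_eq_totient P
      _ < P := Nat.totient_lt P (by omega)
  · apply orderOf_dvd_of_pow_eq_one
    apply Units.ext
    rw [Units.val_pow_eq_pow_val, hval, Units.val_one]
    have h1 : ((x ^ t - 1 : ℕ) : ZMod P) = 0 := (ZMod.natCast_eq_zero_iff _ _).2 ht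
    rw [Nat.cast_sub (Nat.one_le_pow _ _ hx)] at h1
    push_cast at h1
    exact sub_eq_zero.1 h1
  · have h1 : (x : ZMod P) ^ orderOf u = 1 := by
      rw [← hval, ← Units.val_pow_eq_pow_val, pow_orderOf_eq_one, Units.val_one]
    have h2 : (((x : ℤ) ^ orderOf u - 1 : ℤ) : ZMod P) = 0 := by
      push_cast
      rw [h1, sub_self]
    exact (ZMod.intCast_zmod_eq_zero_iff_dvd _ _).1 h2

/-- The residue shift. -/
def rho (o s : ℕ) : ℕ := (o - s % o) % o

theorem rho_lt {o s : ℕ} (ho : 1 ≤ o) : rho o s < o := Nat.mod_lt _ ho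

theorem dvd_rho_add {o s : ℕ} (ho : 1 ≤ o) : o ∣ rho o s + s := by
  unfold rho
  have h1 : s % o < o := Nat.mod_lt _ ho
  have h2 := Nat.div_add_mod s o
  rcases Nat.eq_zero_or_pos (s % o) with h0 | h0
  · rw [h0, Nat.sub_zero, Nat.mod_self, zero_add]
    exact Nat.dvd_of_mod_eq_zero h0
  · rw [Nat.mod_eq_of_lt (by omega)]
    refine ⟨s / o + 1, ?_⟩
    rw [mul_add, mul_one]
    omega

theorem dvd_rho_mul {o s m : ℕ} (ho : 1 ≤ o) (hm : 1 ≤ m) (hom : o ∣ m - 1) :
    o ∣ rho o s + s * m := by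
  have h1 := dvd_rho_add (s := s) ho
  have h2 : s * m = s + s * (m - 1) := by
    obtain ⟨k, rfl⟩ : ∃ k, m = k + 1 := ⟨m - 1, by omega⟩
    rw [Nat.add_sub_cancel]; ring
  rw [h2, ← add_assoc]
  exact dvd_add h1 (hom.mul_left s)

/-- The `P`-adic linear form estimate with an arbitrary modulus `P ∣ y` prime to `x`. -/
theorem lf_apply2 {P x y m n : ℕ} (hP2 : 2 ≤ P) (hPy : P ∣ y) (h : Sol x y m n)
    (hco : Nat.Coprime P x) (μ : ℕ) (hμ1 : 1 ≤ μ) :
    ∃ o, 1 ≤ o ∧ o < P ∧ o ∣ m - 1 ∧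
      (8 * (μ / Nat.log 2 P + 1) + 32 * ((Nat.log 2 x + 1) / Nat.log 2 P + 1) *
          (8 * (μ / Nat.log 2 P + 1)) + o +
          o * (32 * ((Nat.log 2 x + 1) / Nat.log 2 P + 1) * (8 * (μ / Nat.log 2 P + 1))) * m ≤ 2 ^ μ →
        m < o * (32 * ((Nat.log 2 x + 1) / Nat.log 2 P + 1) * (8 * (μ / Nat.log 2 P + 1))) ∨
        n < o * (32 * ((Nat.log 2 x + 1) / Nat.log 2 P + 1) * (8 * (μ / Nat.log 2 P + 1))) ^ 2) := by
  have hrel := rel h
  obtain ⟨hy, hxy, hm, hn, he⟩ := h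
  have hxyz : (y : ℤ) < x := by exact_mod_cast hxy
  have hyz : (2 : ℤ) ≤ y := by exact_mod_cast hy
  have hPyz : (P : ℤ) ∣ (y : ℤ) := by exact_mod_cast hPy
  have hcoz : IsCoprime (P : ℤ) (x : ℤ) := Nat.isCoprime_iff_coprime.2 hco
  have hord : P ∣ x ^ (m - 1) - 1 := by
    have h1 : (P : ℤ) ∣ (x : ℤ) * ((x : ℤ) ^ (m - 1) - 1) := by
      have h2 : (x : ℤ) * ((x : ℤ) ^ (m - 1) - 1) =
          (y : ℤ) * ((x : ℤ) ^ m - 1) - (y : ℤ) ^ n * ((x : ℤ) - 1) := by
        rw [hrel]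
        obtain ⟨k, rfl⟩ : ∃ k, m = k + 1 := ⟨m - 1, by omega⟩
        rw [Nat.add_sub_cancel]; ring
      rw [h2]
      exact dvd_sub (hPyz.mul_right _) ((dvd_pow hPyz (by omega)).mul_right _)
    have h3 : (P : ℤ) ∣ (x : ℤ) ^ (m - 1) - 1 := hcoz.dvd_of_dvd_mul_left h1
    have h4 : ((x ^ (m - 1) - 1 : ℕ) : ℤ) = (x : ℤ) ^ (m - 1) - 1 := by
      rw [Nat.cast_sub (Nat.one_le_pow _ _ (by omega))]; push_cast; ring
    rw [← h4] at h3
    exact_mod_cast h3
  obtain ⟨o, ho1, hoP, hom, hPo⟩ := exists_order hP2 hco hord (by omega)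
  refine ⟨o, ho1, hoP, hom, ?_⟩
  set lam := Nat.log 2 x + 1 with hlam
  set π := Nat.log 2 P with hπ
  set κ := 32 * (lam / π + 1) with hκ
  set L := 8 * (μ / π + 1) with hL
  intro hmu
  by_contra hcon
  push Not at hcon
  obtain ⟨hc1, hc2⟩ := hcon
  have hπ1 : 1 ≤ π := Nat.log_pos (by norm_num) hP2
  have hκ32 : 32 ≤ κ := by
    rw [hκ]; exact Nat.le_mul_of_pos_right _ (Nat.succ_pos _)
  have hL8 : 8 ≤ L := by
    rw [hL]; exact Nat.le_mul_of_pos_right _ (Nat.succ_pos _)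
  have hκπ : 32 * lam ≤ κ * π := by
    have h1 := Nat.lt_div_mul_add (a := lam) (b := π) hπ1
    have h2 : κ * π = 32 * (lam / π * π + π) := by rw [hκ]; ring
    omega
  have hLπ : 8 * μ ≤ L * π := by
    have h1 := Nat.lt_div_mul_add (a := μ) (b := π) hπ1
    have h2 : L * π = 8 * (μ / π * π + π) := by rw [hL]; ring
    omega
  -- the data
  have hx1 : 1 ≤ x := by omega
  have hx2 : (x : ℤ) ≤ 2 ^ lam := by exact_mod_cast (lt_two_pow_lg x).le
  have hoz : o * (κ * L) ≤ m := hc1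
  set S := o * (κ * L) with hS
  set w : ℕ → ℕ := fun s => (rho o s + s * m) / o with hw
  have how : ∀ s, o * w s = rho o s + s * m := fun s =>
    Nat.mul_div_cancel' (dvd_rho_mul ho1 (by omega) hom)
  set u : ℕ → ℤ := fun s => (x : ℤ) ^ (rho o s) * ((x : ℤ) - y) ^ s * (1 - (y : ℤ)) ^ (S - s) with hu
  have hKL : o * κ ^ 2 * L * L = o * (κ * L) ^ 2 := by ring
  have key := lf_core2 (P := P) (V := n) (K := o * κ ^ 2 * L) (L := L) (R := κ * L) (S := S)
    (α := o * lam) (σ := lam * (o + S)) (μ := μ) (ν := 2 * μ) (π := π)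
    (a := (x : ℤ) ^ o) (β := (1 - (y : ℤ)) ^ S) (w := w) (u := u)
    (Nat.pow_log_le_self 2 (by omega))
    (by
      have h1 : (x : ℤ) ^ 1 ≤ (x : ℤ) ^ o := pow_le_pow_right₀ (by linarith) ho1
      rw [pow_one] at h1; linarith)
    hPo
    (by
      intro s _
      simp only [hu]
      exact mul_ne_zero (mul_ne_zero (pow_ne_zero _ (by linarith)) (pow_ne_zero _ (by linarith)))
        (pow_ne_zero _ (by linarith)))
    (by
      intro s hs
      have h0 : (1 - (y : ℤ)) * (x : ℤ) ^ m ≡ (x : ℤ) - y [ZMOD (P : ℤ) ^ n] := by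
        apply Int.modEq_iff_dvd.2
        have h2 : ((x : ℤ) - y) - (1 - (y : ℤ)) * (x : ℤ) ^ m = (y : ℤ) ^ n * ((x : ℤ) - 1) := by
          rw [hrel]; ring
        rw [h2]
        exact (pow_dvd_pow_of_dvd hPyz n).mul_right _
      have h3 : (1 - (y : ℤ)) ^ S * ((x : ℤ) ^ o) ^ (w s) =
          (x : ℤ) ^ (rho o s) * ((1 - (y : ℤ)) * (x : ℤ) ^ m) ^ s * (1 - (y : ℤ)) ^ (S - s) := by
        rw [← pow_mul, how s, pow_add, mul_comm s m, pow_mul (x : ℤ) m s, mul_pow]
        have h4 : (1 - (y : ℤ)) ^ S = (1 - (y : ℤ)) ^ s * (1 - (y : ℤ)) ^ (S - s) := by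
          rw [← pow_add]; congr 1; omega
        rw [h4]; ring
      rw [h3]
      apply Int.modEq_iff_dvd.1
      exact (((Int.ModEq.refl _).mul (h0.pow s)).mul (Int.ModEq.refl _)))
    (by
      intro j hj s hs j' hj' s' hs' heq
      have h1 : o * j + rho o s + s * m = o * j' + rho o s' + s' * m := by
        have := congrArg (fun t => o * t) heq
        simp only [mul_add, how] at this
        omega
      have h2 : o * j + rho o s < m := by
        have := rho_lt (s := s) ho1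
        have h3 : o * (j + 1) ≤ o * (κ * L) := Nat.mul_le_mul_left _ hj
        rw [mul_add, mul_one] at h3
        omega
      have h2' : o * j' + rho o s' < m := by
        have := rho_lt (s := s') ho1
        have h3 : o * (j' + 1) ≤ o * (κ * L) := Nat.mul_le_mul_left _ hj'
        rw [mul_add, mul_one] at h3
        omega
      have h4 : s = s' := by
        have h5 : (o * j + rho o s + s * m) / m = (o * j' + rho o s' + s' * m) / m := by rw [h1]
        rw [Nat.add_mul_div_right _ _ (by omega), Nat.add_mul_div_right _ _ (by omega),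
          Nat.div_eq_of_lt h2, Nat.div_eq_of_lt h2'] at h5
        omega
      subst h4
      exact ⟨by omega, rfl⟩)
    (by apply le_of_eq; rw [hS]; ring)
    (by rw [hKL]; exact hc2)
    (by
      rw [mul_comm o lam, pow_mul]
      exact pow_le_pow_left₀ (by positivity) hx2 _)
    (by
      intro s hs
      simp only [hu]
      rw [abs_mul, abs_mul, abs_pow, abs_pow, abs_pow]
      have b1 : |(x : ℤ)| ≤ 2 ^ lam := by rw [abs_of_nonneg (by positivity)]; exact hx2
      have b2 : |(x : ℤ) - y| ≤ 2 ^ lam := by rw [abs_of_nonneg (by linarith)]; linarith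
      have b3 : |1 - (y : ℤ)| ≤ 2 ^ lam := by rw [abs_of_nonpos (by linarith)]; linarith
      have hone : (1 : ℤ) ≤ 2 ^ lam := one_le_pow₀ (by norm_num)
      calc |(x : ℤ)| ^ rho o s * |(x : ℤ) - y| ^ s * |1 - (y : ℤ)| ^ (S - s)
          ≤ (2 ^ lam) ^ rho o s * (2 ^ lam) ^ s * (2 ^ lam) ^ (S - s) := by gcongr
        _ = (2 ^ lam) ^ (rho o s + S) := by rw [← pow_add, ← pow_add]; congr 1; omega
        _ ≤ (2 ^ lam) ^ (o + S) := pow_le_pow_right₀ hone (by
            have := rho_lt (s := s) ho1; omega)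
        _ = 2 ^ (lam * (o + S)) := by rw [← pow_mul])
    (by
      intro s hs
      have h1 : w s ≤ o + S * m := by
        have h2 : w s ≤ o * w s := Nat.le_mul_of_pos_left _ ho1
        rw [how s] at h2
        have := rho_lt (s := s) ho1
        have h3 : s * m ≤ S * m := Nat.mul_le_mul_right _ hs.le
        omega
      omega)
    (by
      have h1 : κ * L ≤ 2 ^ μ := by omega
      have h2 : S ≤ 2 ^ μ := by
        have : S * 1 ≤ S * m := Nat.mul_le_mul_left _ (by omega)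
        omega
      calc o * κ ^ 2 * L * L = (κ * L) * S := by rw [hS]; ring
        _ ≤ 2 ^ μ * 2 ^ μ := Nat.mul_le_mul h1 h2
        _ = 2 ^ (2 * μ) := by rw [← pow_add]; congr 1; ring)
    (Nat.succ_le_of_lt (by positivity)) (by omega)
  -- contradiction
  set A := o * κ ^ 2 * L * L * π with hA
  have e1 : 4 * (2 * L * (o * lam * (L + κ * L) + lam * (o + S))) ≤ A := by
    calc 4 * (2 * L * (o * lam * (L + κ * L) + lam * (o + S)))
        = 8 * o * lam * L * (L + 1 + 2 * (κ * L)) := by rw [hS]; ring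
      _ ≤ 8 * o * lam * L * (4 * (κ * L)) := by
          apply Nat.mul_le_mul_left
          have : L + 1 ≤ κ * L := by nlinarith
          omega
      _ = (32 * lam) * (o * κ * L * L) := by ring
      _ ≤ (κ * π) * (o * κ * L * L) := Nat.mul_le_mul_right _ hκπ
      _ = A := by rw [hA]; ring
  have e2 : 4 * (2 * (o * κ ^ 2 * L) * μ) ≤ A := by
    calc 4 * (2 * (o * κ ^ 2 * L) * μ) = (8 * μ) * (o * κ ^ 2 * L) := by ring
      _ ≤ (L * π) * (o * κ ^ 2 * L) := Nat.mul_le_mul_right _ hLπ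
      _ = A := by rw [hA]; ring
  have e3 : 4 * (2 * (o * κ ^ 2 * L) * π) ≤ A := by
    calc 4 * (2 * (o * κ ^ 2 * L) * π) = 8 * (o * κ ^ 2 * L * π) := by ring
      _ ≤ L * (o * κ ^ 2 * L * π) := Nat.mul_le_mul_right _ hL8
      _ = A := by rw [hA]; ring
  have e4 : 8 * (π + 2 * (2 * μ)) ≤ A := by
    have h1 : π + 2 * (2 * μ) ≤ L * π := by nlinarith
    calc 8 * (π + 2 * (2 * μ)) ≤ 8 * (L * π) := Nat.mul_le_mul_left _ h1
      _ ≤ (o * κ ^ 2 * L) * (L * π) := by
          apply Nat.mul_le_mul_right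
          have : 1 * 32 ^ 2 * 8 ≤ o * κ ^ 2 * L := by gcongr
          omega
      _ = A := by rw [hA]; ring
  have hApos : 0 < A := by positivity
  have hlhs : o * κ ^ 2 * L * L * π = A := hA.symm
  omega

end Pool.Agent.MP_88e4f4_nt.GB
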