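import Pool.Agent.MP_88e4f4_nt.GApply2

set_option autoImplicit false

namespace Pool.Agent.MP_88e4f4_nt.GB

open Finset

/-- The `P`-adic linear form estimate with an arbitrary modulus `P ∣ x` prime to `y`. -/
theorem lf_apply3 {P x y m n : ℕ} (hP2 : 2 ≤ P) (hPx : P ∣ x) (h : Sol x y m n)
    (hco : Nat.Coprime P y) (μ : ℕ) (hμ1 : 1 ≤ μ) :
    ∃ o, 1 ≤ o ∧ o < P ∧ o ∣ n - 1 ∧
      (8 * (μ / Nat.log 2 P + 1) + 32 * ((Nat.log 2 x + 1) / Nat.log 2 P + 1) *
          (8 * (μ / Nat.log 2 P + 1)) + o +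
          o * (32 * ((Nat.log 2 x + 1) / Nat.log 2 P + 1) * (8 * (μ / Nat.log 2 P + 1))) * n ≤ 2 ^ μ →
        n < o * (32 * ((Nat.log 2 x + 1) / Nat.log 2 P + 1) * (8 * (μ / Nat.log 2 P + 1))) ∨
        m < o * (32 * ((Nat.log 2 x + 1) / Nat.log 2 P + 1) * (8 * (μ / Nat.log 2 P + 1))) ^ 2) := by
  have hrel := rel h
  obtain ⟨hy, hxy, hm, hn, he⟩ := h
  have hxyz : (y : ℤ) < x := by exact_mod_cast hxy
  have hyz : (2 : ℤ) ≤ y := by exact_mod_cast hy
  have hPxz : (P : ℤ) ∣ (x : ℤ) := by exact_mod_cast hPx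
  have hcoz : IsCoprime (P : ℤ) (y : ℤ) := Nat.isCoprime_iff_coprime.2 hco
  have hord : P ∣ y ^ (n - 1) - 1 := by
    have h1 : (P : ℤ) ∣ (y : ℤ) * ((y : ℤ) ^ (n - 1) - 1) := by
      have h2 : (y : ℤ) * ((y : ℤ) ^ (n - 1) - 1) =
          (x : ℤ) * ((y : ℤ) ^ n - 1) - ((y : ℤ) - 1) * (x : ℤ) ^ m := by
        have h5 : (x : ℤ) * (y : ℤ) ^ n = (y : ℤ) ^ n + ((y : ℤ) - 1) * (x : ℤ) ^ m + ((x : ℤ) - y) := by
          linear_combination hrel
        obtain ⟨k, rfl⟩ : ∃ k, n = k + 1 := ⟨n - 1, by omega⟩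
        rw [Nat.add_sub_cancel]
        linear_combination (-1 : ℤ) * h5
      rw [h2]
      exact dvd_sub (hPxz.mul_right _) ((dvd_pow hPxz (by omega)).mul_left _)
    have h3 : (P : ℤ) ∣ (y : ℤ) ^ (n - 1) - 1 := hcoz.dvd_of_dvd_mul_left h1
    have h4 : ((y ^ (n - 1) - 1 : ℕ) : ℤ) = (y : ℤ) ^ (n - 1) - 1 := by
      rw [Nat.cast_sub (Nat.one_le_pow _ _ (by omega))]; push_cast; ring
    rw [← h4] at h3
    exact_mod_cast h3
  obtain ⟨o, ho1, hoP, hom, hPo⟩ := exists_order hP2 hco hord (by omega)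
  refine ⟨o, ho1, hoP, hom, ?_⟩
  set lam := Nat.log 2 x + 1 with hlam
  set π := Nat.log 2 P with hπ
  set κ := 32 * (lam / π + 1) with hκ
  set L := 8 * (μ / π + 1) with hL
  intro hmu
  by_contra hcon
  push Not at hcon
  obtain ⟨hc1, hc2⟩ := hcon
  have hπ1 : 1 ≤ π := Nat.log_pos (by norm_num) hP2
  have hκ32 : 32 ≤ κ := by
    rw [hκ]; exact Nat.le_mul_of_pos_right _ (Nat.succ_pos _)
  have hL8 : 8 ≤ L := by
    rw [hL]; exact Nat.le_mul_of_pos_right _ (Nat.succ_pos _)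
  have hκπ : 32 * lam ≤ κ * π := by
    have h1 := Nat.lt_div_mul_add (a := lam) (b := π) hπ1
    have h2 : κ * π = 32 * (lam / π * π + π) := by rw [hκ]; ring
    omega
  have hLπ : 8 * μ ≤ L * π := by
    have h1 := Nat.lt_div_mul_add (a := μ) (b := π) hπ1
    have h2 : L * π = 8 * (μ / π * π + π) := by rw [hL]; ring
    omega
  -- the data
  have hx2 : (x : ℤ) ≤ 2 ^ lam := by exact_mod_cast (lt_two_pow_lg x).le
  have hy2 : (y : ℤ) ≤ 2 ^ lam := by linarith
  have hoz : o * (κ * L) ≤ n := hc1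
  set S := o * (κ * L) with hS
  set w : ℕ → ℕ := fun s => (rho o s + s * n) / o with hw
  have how : ∀ s, o * w s = rho o s + s * n := fun s =>
    Nat.mul_div_cancel' (dvd_rho_mul ho1 (by omega) hom)
  set u : ℕ → ℤ := fun s => (y : ℤ) ^ (rho o s) * ((x : ℤ) - y) ^ s * ((x : ℤ) - 1) ^ (S - s) with hu
  have hKL : o * κ ^ 2 * L * L = o * (κ * L) ^ 2 := by ring
  have key := lf_core2 (P := P) (V := m) (K := o * κ ^ 2 * L) (L := L) (R := κ * L) (S := S)
    (α := o * lam) (σ := lam * (o + S)) (μ := μ) (ν := 2 * μ) (π := π)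
    (a := (y : ℤ) ^ o) (β := ((x : ℤ) - 1) ^ S) (w := w) (u := u)
    (Nat.pow_log_le_self 2 (by omega))
    (by
      have h1 : (y : ℤ) ^ 1 ≤ (y : ℤ) ^ o := pow_le_pow_right₀ (by linarith) ho1
      rw [pow_one] at h1; linarith)
    hPo
    (by
      intro s _
      simp only [hu]
      exact mul_ne_zero (mul_ne_zero (pow_ne_zero _ (by linarith)) (pow_ne_zero _ (by linarith)))
        (pow_ne_zero _ (by linarith)))
    (by
      intro s hs
      have h0 : ((x : ℤ) - 1) * (y : ℤ) ^ n ≡ (x : ℤ) - y [ZMOD (P : ℤ) ^ m] := by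
        apply Int.modEq_iff_dvd.2
        have h2 : ((x : ℤ) - y) - ((x : ℤ) - 1) * (y : ℤ) ^ n = (x : ℤ) ^ m * (1 - (y : ℤ)) := by
          linear_combination (-1 : ℤ) * hrel
        rw [h2]
        exact (pow_dvd_pow_of_dvd hPxz m).mul_right _
      have h3 : ((x : ℤ) - 1) ^ S * ((y : ℤ) ^ o) ^ (w s) =
          (y : ℤ) ^ (rho o s) * (((x : ℤ) - 1) * (y : ℤ) ^ n) ^ s * ((x : ℤ) - 1) ^ (S - s) := by
        rw [← pow_mul, how s, pow_add, mul_comm s n, pow_mul (y : ℤ) n s, mul_pow]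
        have h4 : ((x : ℤ) - 1) ^ S = ((x : ℤ) - 1) ^ s * ((x : ℤ) - 1) ^ (S - s) := by
          rw [← pow_add]; congr 1; omega
        rw [h4]; ring
      rw [h3]
      apply Int.modEq_iff_dvd.1
      exact (((Int.ModEq.refl _).mul (h0.pow s)).mul (Int.ModEq.refl _)))
    (by
      intro j hj s hs j' hj' s' hs' heq
      have h1 : o * j + rho o s + s * n = o * j' + rho o s' + s' * n := by
        have := congrArg (fun t => o * t) heq
        simp only [mul_add, how] at this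
        omega
      have h2 : o * j + rho o s < n := by
        have := rho_lt (s := s) ho1
        have h3 : o * (j + 1) ≤ o * (κ * L) := Nat.mul_le_mul_left _ hj
        rw [mul_add, mul_one] at h3
        omega
      have h2' : o * j' + rho o s' < n := by
        have := rho_lt (s := s') ho1
        have h3 : o * (j' + 1) ≤ o * (κ * L) := Nat.mul_le_mul_left _ hj'
        rw [mul_add, mul_one] at h3
        omega
      have h4 : s = s' := by
        have h5 : (o * j + rho o s + s * n) / n = (o * j' + rho o s' + s' * n) / n := by rw [h1]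
        rw [Nat.add_mul_div_right _ _ (by omega), Nat.add_mul_div_right _ _ (by omega),
          Nat.div_eq_of_lt h2, Nat.div_eq_of_lt h2'] at h5
        omega
      subst h4
      exact ⟨by omega, rfl⟩)
    (by apply le_of_eq; rw [hS]; ring)
    (by rw [hKL]; exact hc2)
    (by
      rw [mul_comm o lam, pow_mul]
      exact pow_le_pow_left₀ (by positivity) hy2 _)
    (by
      intro s hs
      simp only [hu]
      rw [abs_mul, abs_mul, abs_pow, abs_pow, abs_pow]
      have b1 : |(y : ℤ)| ≤ 2 ^ lam := by rw [abs_of_nonneg (by positivity)]; exact hy2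
      have b2 : |(x : ℤ) - y| ≤ 2 ^ lam := by rw [abs_of_nonneg (by linarith)]; linarith
      have b3 : |(x : ℤ) - 1| ≤ 2 ^ lam := by rw [abs_of_nonneg (by linarith)]; linarith
      have hone : (1 : ℤ) ≤ 2 ^ lam := one_le_pow₀ (by norm_num)
      calc |(y : ℤ)| ^ rho o s * |(x : ℤ) - y| ^ s * |(x : ℤ) - 1| ^ (S - s)
          ≤ (2 ^ lam) ^ rho o s * (2 ^ lam) ^ s * (2 ^ lam) ^ (S - s) := by gcongr
        _ = (2 ^ lam) ^ (rho o s + S) := by rw [← pow_add, ← pow_add]; congr 1; omega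
        _ ≤ (2 ^ lam) ^ (o + S) := pow_le_pow_right₀ hone (by
            have := rho_lt (s := s) ho1; omega)
        _ = 2 ^ (lam * (o + S)) := by rw [← pow_mul])
    (by
      intro s hs
      have h1 : w s ≤ o + S * n := by
        have h2 : w s ≤ o * w s := Nat.le_mul_of_pos_left _ ho1
        rw [how s] at h2
        have := rho_lt (s := s) ho1
        have h3 : s * n ≤ S * n := Nat.mul_le_mul_right _ hs.le
        omega
      omega)
    (by
      have h1 : κ * L ≤ 2 ^ μ := by omega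
      have h2 : S ≤ 2 ^ μ := by
        have : S * 1 ≤ S * n := Nat.mul_le_mul_left _ (by omega)
        omega
      calc o * κ ^ 2 * L * L = (κ * L) * S := by rw [hS]; ring
        _ ≤ 2 ^ μ * 2 ^ μ := Nat.mul_le_mul h1 h2
        _ = 2 ^ (2 * μ) := by rw [← pow_add]; congr 1; ring)
    (Nat.succ_le_of_lt (by positivity)) (by omega)
  -- contradiction
  set A := o * κ ^ 2 * L * L * π with hA
  have e1 : 4 * (2 * L * (o * lam * (L + κ * L) + lam * (o + S))) ≤ A := by
    calc 4 * (2 * L * (o * lam * (L + κ * L) + lam * (o + S)))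
        = 8 * o * lam * L * (L + 1 + 2 * (κ * L)) := by rw [hS]; ring
      _ ≤ 8 * o * lam * L * (4 * (κ * L)) := by
          apply Nat.mul_le_mul_left
          have : L + 1 ≤ κ * L := by nlinarith
          omega
      _ = (32 * lam) * (o * κ * L * L) := by ring
      _ ≤ (κ * π) * (o * κ * L * L) := Nat.mul_le_mul_right _ hκπ
      _ = A := by rw [hA]; ring
  have e2 : 4 * (2 * (o * κ ^ 2 * L) * μ) ≤ A := by
    calc 4 * (2 * (o * κ ^ 2 * L) * μ) = (8 * μ) * (o * κ ^ 2 * L) := by ring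
      _ ≤ (L * π) * (o * κ ^ 2 * L) := Nat.mul_le_mul_right _ hLπ
      _ = A := by rw [hA]; ring
  have e3 : 4 * (2 * (o * κ ^ 2 * L) * π) ≤ A := by
    calc 4 * (2 * (o * κ ^ 2 * L) * π) = 8 * (o * κ ^ 2 * L * π) := by ring
      _ ≤ L * (o * κ ^ 2 * L * π) := Nat.mul_le_mul_right _ hL8
      _ = A := by rw [hA]; ring
  have e4 : 8 * (π + 2 * (2 * μ)) ≤ A := by
    have h1 : π + 2 * (2 * μ) ≤ L * π := by nlinarith
    calc 8 * (π + 2 * (2 * μ)) ≤ 8 * (L * π) := Nat.mul_le_mul_left _ h1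
      _ ≤ (o * κ ^ 2 * L) * (L * π) := by
          apply Nat.mul_le_mul_right
          have : 1 * 32 ^ 2 * 8 ≤ o * κ ^ 2 * L := by gcongr
          omega
      _ = A := by rw [hA]; ring
  have hApos : 0 < A := by positivity
  have hlhs : o * κ ^ 2 * L * L * π = A := hA.symm
  omega

end Pool.Agent.MP_88e4f4_nt.GB
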