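import Pool.Agent.MP_88e4f4_nt.GBasic

set_option autoImplicit false

namespace Pool.Agent.MP_88e4f4_nt.GB

open Finset

theorem bern_aux (t : ℤ) (ht : 0 ≤ t) (j : ℕ) : (t + 1) ^ j * (t - j) ≤ t ^ (j + 1) := by
  induction j with
  | zero => simp
  | succ j ih =>
    have h1 : (t + 1) ^ (j + 1) * (t - ((j + 1 : ℕ) : ℤ)) =
        t * ((t + 1) ^ j * (t - j)) - ((j : ℤ) + 1) * (t + 1) ^ j := by
      push_cast; ring
    rw [h1]
    have h2 : 0 ≤ ((j : ℤ) + 1) * (t + 1) ^ j := by positivity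
    have h3 : t * ((t + 1) ^ j * (t - j)) ≤ t * t ^ (j + 1) := mul_le_mul_of_nonneg_left ih ht
    have h4 : t * t ^ (j + 1) = t ^ (j + 1 + 1) := by ring
    linarith

theorem bern {t j : ℕ} (ht : 0 < t) (hj : 2 * j ≤ t) : (t + 1) ^ j ≤ 2 * t ^ j := by
  have h1 := bern_aux (t : ℤ) (by positivity) j
  have htz : (0 : ℤ) < t := by exact_mod_cast ht
  have hjz : 2 * (j : ℤ) ≤ t := by exact_mod_cast hj
  have h2 : (t : ℤ) * ((t : ℤ) + 1) ^ j ≤ (t : ℤ) * (2 * (t : ℤ) ^ j) := by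
    have h3 : ((t : ℤ) + 1) ^ j * (t : ℤ) ≤ ((t : ℤ) + 1) ^ j * (2 * ((t : ℤ) - j)) :=
      mul_le_mul_of_nonneg_left (by linarith) (by positivity)
    have h4 : (t : ℤ) * (2 * (t : ℤ) ^ j) = 2 * (t : ℤ) ^ (j + 1) := by ring
    rw [h4]; linarith
  have h5 := le_of_mul_le_mul_left h2 htz
  exact_mod_cast h5

theorem choose_mul_le (M j : ℕ) (hj : j ≤ M) : M.choose j * M ^ j ≤ M ^ M := by
  have h1 : M.choose j ≤ M ^ (M - j) := by
    rw [← Nat.choose_symm hj]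
    exact Nat.choose_le_pow M (M - j)
  calc M.choose j * M ^ j ≤ M ^ (M - j) * M ^ j := Nat.mul_le_mul_right _ h1
    _ = M ^ M := by rw [← pow_add]; congr 1; omega

/-- The correction term. -/
def Ecor (M x : ℕ) : ℕ := ∑ j ∈ range (M - 1), (M ^ M - M.choose j * M ^ j) * x ^ j

theorem Ecor_eq {M x : ℕ} (hM : 2 ≤ M) :
    M ^ M * ∑ j ∈ range (M + 1), x ^ j = (M * x + 1) ^ M + Ecor M x := by
  have h1 : (M * x + 1) ^ M = ∑ j ∈ range (M + 1), (M.choose j * M ^ j) * x ^ j := by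
    rw [add_pow]
    refine Finset.sum_congr rfl fun j _ => ?_
    rw [one_pow, mul_pow]; simp only [Nat.cast_id]; ring
  have h2 : ∑ j ∈ range (M + 1), (M ^ M - M.choose j * M ^ j) * x ^ j = Ecor M x := by
    obtain ⟨k, rfl⟩ : ∃ k, M = k + 1 := ⟨M - 1, by omega⟩
    unfold Ecor
    rw [Finset.sum_range_succ, Finset.sum_range_succ, Nat.add_sub_cancel]
    have e1 : (k + 1) ^ (k + 1) - (k + 1).choose (k + 1) * (k + 1) ^ (k + 1) = 0 := by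
      rw [Nat.choose_self, one_mul, Nat.sub_self]
    have e2 : (k + 1) ^ (k + 1) - (k + 1).choose k * (k + 1) ^ k = 0 := by
      rw [Nat.choose_succ_self_right]
      have : (k + 1) ^ (k + 1) = (k + 1) * (k + 1) ^ k := by ring
      omega
    rw [e1, e2]; simp
  rw [h1, ← h2, ← Finset.sum_add_distrib, Finset.mul_sum]
  refine Finset.sum_congr rfl fun j hj => ?_
  rw [mem_range] at hj
  rw [← add_mul]
  congr 1
  have := choose_mul_le M j (by omega)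
  omega

theorem Ecor_le {M x : ℕ} (hM : 2 ≤ M) (hx : 2 ≤ x) : Ecor M x ≤ 2 * M ^ M * x ^ (M - 2) := by
  unfold Ecor
  calc ∑ j ∈ range (M - 1), (M ^ M - M.choose j * M ^ j) * x ^ j
      ≤ ∑ j ∈ range (M - 1), M ^ M * x ^ j :=
        Finset.sum_le_sum fun j _ => Nat.mul_le_mul_right _ (Nat.sub_le _ _)
    _ = M ^ M * ∑ j ∈ range (M - 1), x ^ j := by rw [Finset.mul_sum]
    _ ≤ M ^ M * (2 * x ^ (M - 2)) := by
        apply Nat.mul_le_mul_left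
        have h := rep_le (b := x) (k := M - 2) hx
        have : M - 2 + 1 = M - 1 := by omega
        rwa [this] at h
    _ = _ := by ring

theorem Ecor_compare {M x1 x2 y s : ℕ} (hM : 2 ≤ M) (hx : 2 ≤ x1) (hy : 2 ≤ y) (hs : 1 ≤ s)
    (h : M * x2 + 1 ≤ y ^ s * (M * x1 + 1)) : Ecor M x2 ≤ y ^ (M * s) * Ecor M x1 := by
  unfold Ecor
  rw [Finset.mul_sum]
  refine Finset.sum_le_sum fun j hj => ?_
  rw [mem_range] at hj
  have h1 : (M * x2) ^ j ≤ (y ^ s) ^ j * (M * x1 + 1) ^ j := by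
    rw [← mul_pow]; exact Nat.pow_le_pow_left (by omega) j
  have h2 : (M * x1 + 1) ^ j ≤ 2 * (M * x1) ^ j := by
    apply bern (by positivity)
    calc 2 * j ≤ x1 * M := Nat.mul_le_mul hx (by omega)
      _ = M * x1 := by ring
  have h3 : M ^ j * x2 ^ j ≤ M ^ j * (2 * ((y ^ s) ^ j * x1 ^ j)) := by
    calc M ^ j * x2 ^ j = (M * x2) ^ j := by rw [mul_pow]
      _ ≤ (y ^ s) ^ j * (2 * (M * x1) ^ j) := h1.trans (Nat.mul_le_mul_left _ h2)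
      _ = M ^ j * (2 * ((y ^ s) ^ j * x1 ^ j)) := by rw [mul_pow]; ring
  have h4 : x2 ^ j ≤ 2 * ((y ^ s) ^ j * x1 ^ j) := Nat.le_of_mul_le_mul_left h3 (by positivity)
  have h5 : 2 * ((y ^ s) ^ j * x1 ^ j) ≤ y ^ (M * s) * x1 ^ j := by
    calc 2 * ((y ^ s) ^ j * x1 ^ j) ≤ y * ((y ^ s) ^ j * x1 ^ j) := Nat.mul_le_mul_right _ hy
      _ = y ^ (1 + s * j) * x1 ^ j := by rw [pow_add, pow_one, pow_mul]; ring
      _ ≤ y ^ (M * s) * x1 ^ j := by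
          apply Nat.mul_le_mul_right
          apply Nat.pow_le_pow_right (by omega)
          have h6 : s * j ≤ s * (M - 2) := Nat.mul_le_mul_left _ (by omega)
          have h7 : M * s = s * (M - 2) + 2 * s := by
            obtain ⟨k, rfl⟩ : ∃ k, M = k + 2 := ⟨M - 2, by omega⟩
            rw [Nat.add_sub_cancel]; ring
          omega
  calc (M ^ M - M.choose j * M ^ j) * x2 ^ j
      ≤ (M ^ M - M.choose j * M ^ j) * (y ^ (M * s) * x1 ^ j) :=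
        Nat.mul_le_mul_left _ (h4.trans h5)
    _ = _ := by ring

theorem succ_pow_ge (Z k : ℕ) : Z ^ (k + 1) + (k + 1) * Z ^ k ≤ (Z + 1) ^ (k + 1) := by
  induction k with
  | zero => simp
  | succ k ih =>
    calc Z ^ (k + 1 + 1) + (k + 1 + 1) * Z ^ (k + 1)
        ≤ (Z + 1) * (Z ^ (k + 1) + (k + 1) * Z ^ k) := by
          have : (Z + 1) * (Z ^ (k + 1) + (k + 1) * Z ^ k) =
            Z ^ (k + 1 + 1) + (k + 1 + 1) * Z ^ (k + 1) + (k + 1) * Z ^ k := by ring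
          omega
      _ ≤ (Z + 1) * (Z + 1) ^ (k + 1) := Nat.mul_le_mul_left _ ih
      _ = _ := by ring

theorem arch_gap {y M s x1 x2 n1 : ℕ} (hM : 2 ≤ M) (hs : 1 ≤ s) (h1 : Sol x1 y (M + 1) n1)
    (h2 : Sol x2 y (M + 1) (n1 + M * s)) : x1 ≤ 3 * y ^ s := by
  obtain ⟨hy, hxy1, _, hn1, he1⟩ := h1
  obtain ⟨_, hxy2, _, hn2, he2⟩ := h2
  have hx1 : 2 ≤ x1 := by omega
  have r1 := rep_int y n1
  have r2 := rep_int y (n1 + M * s)
  rw [← he1] at r1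
  rw [← he2] at r2
  have E1 := Ecor_eq (M := M) (x := x1) hM
  have E2 := Ecor_eq (M := M) (x := x2) hM
  set N1 := ∑ j ∈ range (M + 1), x1 ^ j with hN1
  set N2 := ∑ j ∈ range (M + 1), x2 ^ j with hN2
  set Z := y ^ s * (M * x1 + 1) with hZ
  have hZM : Z ^ M = y ^ (M * s) * (M * x1 + 1) ^ M := by
    rw [hZ, mul_pow, ← pow_mul, mul_comm s M]
  have E1z : (M : ℤ) ^ M * (N1 : ℤ) = ((M * x1 + 1) ^ M : ℕ) + (Ecor M x1 : ℕ) := by exact_mod_cast E1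
  have E2z : (M : ℤ) ^ M * (N2 : ℤ) = ((M * x2 + 1) ^ M : ℕ) + (Ecor M x2 : ℕ) := by exact_mod_cast E2
  have hZMz : ((Z ^ M : ℕ) : ℤ) = (y : ℤ) ^ (M * s) * ((M * x1 + 1) ^ M : ℕ) := by exact_mod_cast hZM
  have hyz : (2 : ℤ) ≤ y := by exact_mod_cast hy
  have hY : (1 : ℤ) < (y : ℤ) ^ (M * s) := one_lt_pow₀ (by linarith) (by positivity)
  have hMM : (0 : ℤ) < (M : ℤ) ^ M := by positivity
  -- the identity (*)
  have star : ((y : ℤ) - 1) * (((M * x2 + 1) ^ M : ℕ) - ((Z ^ M : ℕ) : ℤ)) =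
      (M : ℤ) ^ M * ((y : ℤ) ^ (M * s) - 1) +
        ((y : ℤ) - 1) * ((y : ℤ) ^ (M * s) * (Ecor M x1 : ℕ) - (Ecor M x2 : ℕ)) := by
    have a1 : ((y : ℤ) - 1) * ((M : ℤ) ^ M * (N1 : ℤ)) = (M : ℤ) ^ M * ((y : ℤ) ^ n1 - 1) := by
      rw [← r1]; ring
    have a2 : ((y : ℤ) - 1) * ((M : ℤ) ^ M * (N2 : ℤ)) =
        (M : ℤ) ^ M * ((y : ℤ) ^ n1 * (y : ℤ) ^ (M * s) - 1) := by
      rw [← pow_add, ← r2]; ring
    rw [E1z] at a1
    rw [E2z] at a2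
    rw [hZMz]
    have a3 : ((y : ℤ) - 1) * ((y : ℤ) ^ (M * s) * ((M * x1 + 1) ^ M : ℕ)) =
        (y : ℤ) ^ (M * s) * ((M : ℤ) ^ M * ((y : ℤ) ^ n1 - 1) - ((y : ℤ) - 1) * (Ecor M x1 : ℕ)) := by
      rw [← a1]; ring
    have a4 : ((y : ℤ) - 1) * ((M * x2 + 1) ^ M : ℕ) =
        (M : ℤ) ^ M * ((y : ℤ) ^ n1 * (y : ℤ) ^ (M * s) - 1) - ((y : ℤ) - 1) * (Ecor M x2 : ℕ) := by
      rw [← a2]; ring
    rw [mul_sub, a3, a4]; ring
  have hlt : Z < M * x2 + 1 := by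
    by_contra hle
    push Not at hle
    have c1 := Ecor_compare hM hx1 hy hs (by rw [← hZ]; exact hle)
    have c1z : ((Ecor M x2 : ℕ) : ℤ) ≤ (y : ℤ) ^ (M * s) * (Ecor M x1 : ℕ) := by exact_mod_cast c1
    have c2 : ((M * x2 + 1) ^ M : ℕ) ≤ Z ^ M := Nat.pow_le_pow_left hle M
    have c2z : (((M * x2 + 1) ^ M : ℕ) : ℤ) ≤ ((Z ^ M : ℕ) : ℤ) := by exact_mod_cast c2
    have d1 : ((y : ℤ) - 1) * (((M * x2 + 1) ^ M : ℕ) - ((Z ^ M : ℕ) : ℤ)) ≤ 0 :=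
      mul_nonpos_of_nonneg_of_nonpos (by linarith) (by linarith)
    have d2 : 0 < (M : ℤ) ^ M * ((y : ℤ) ^ (M * s) - 1) := mul_pos hMM (by linarith)
    have d3 : 0 ≤ ((y : ℤ) - 1) * ((y : ℤ) ^ (M * s) * (Ecor M x1 : ℕ) - (Ecor M x2 : ℕ)) :=
      mul_nonneg (by linarith) (by linarith)
    linarith
  have hgrow : Z ^ M + M * Z ^ (M - 1) ≤ (M * x2 + 1) ^ M := by
    have g1 := succ_pow_ge Z (M - 1)
    have g2 : M - 1 + 1 = M := by omega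
    rw [g2] at g1
    exact g1.trans (Nat.pow_le_pow_left hlt M)
  have hgrowz : (M : ℤ) * ((Z ^ (M - 1) : ℕ) : ℤ) ≤ ((M * x2 + 1) ^ M : ℕ) - ((Z ^ M : ℕ) : ℤ) := by
    have : ((Z ^ M : ℕ) : ℤ) + (M : ℤ) * ((Z ^ (M - 1) : ℕ) : ℤ) ≤ ((M * x2 + 1) ^ M : ℕ) := by
      exact_mod_cast hgrow
    linarith
  have hEle := Ecor_le (M := M) (x := x1) hM hx1
  have hElez : ((Ecor M x1 : ℕ) : ℤ) ≤ 2 * (M : ℤ) ^ M * (x1 : ℤ) ^ (M - 2) := by exact_mod_cast hEle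
  have hE2nn : (0 : ℤ) ≤ (Ecor M x2 : ℕ) := by positivity
  have hx1z : (2 : ℤ) ≤ x1 := by exact_mod_cast hx1
  have hxpow : (1 : ℤ) ≤ (x1 : ℤ) ^ (M - 2) := one_le_pow₀ (by linarith)
  have hy1 : (0 : ℤ) < (y : ℤ) - 1 := by linarith
  have hmain : (M : ℤ) * ((Z ^ (M - 1) : ℕ) : ℤ) ≤
      3 * (M : ℤ) ^ M * (y : ℤ) ^ (M * s) * (x1 : ℤ) ^ (M - 2) := by
    have f1 : ((y : ℤ) - 1) * ((M : ℤ) * ((Z ^ (M - 1) : ℕ) : ℤ)) ≤
        ((y : ℤ) - 1) * (3 * (M : ℤ) ^ M * (y : ℤ) ^ (M * s) * (x1 : ℤ) ^ (M - 2)) := by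
      calc ((y : ℤ) - 1) * ((M : ℤ) * ((Z ^ (M - 1) : ℕ) : ℤ))
          ≤ ((y : ℤ) - 1) * (((M * x2 + 1) ^ M : ℕ) - ((Z ^ M : ℕ) : ℤ)) :=
            mul_le_mul_of_nonneg_left hgrowz hy1.le
        _ = (M : ℤ) ^ M * ((y : ℤ) ^ (M * s) - 1) +
            ((y : ℤ) - 1) * ((y : ℤ) ^ (M * s) * (Ecor M x1 : ℕ) - (Ecor M x2 : ℕ)) := star
        _ ≤ ((y : ℤ) - 1) * ((M : ℤ) ^ M * (y : ℤ) ^ (M * s)) +
            ((y : ℤ) - 1) * ((y : ℤ) ^ (M * s) * (2 * (M : ℤ) ^ M * (x1 : ℤ) ^ (M - 2))) := by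
            apply add_le_add
            · have : (0 : ℤ) ≤ (M : ℤ) ^ M * (y : ℤ) ^ (M * s) := by positivity
              nlinarith
            · apply mul_le_mul_of_nonneg_left _ hy1.le
              have : (y : ℤ) ^ (M * s) * (Ecor M x1 : ℕ) ≤
                  (y : ℤ) ^ (M * s) * (2 * (M : ℤ) ^ M * (x1 : ℤ) ^ (M - 2)) :=
                mul_le_mul_of_nonneg_left hElez (by positivity)
              linarith
        _ ≤ ((y : ℤ) - 1) * (3 * (M : ℤ) ^ M * (y : ℤ) ^ (M * s) * (x1 : ℤ) ^ (M - 2)) := by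
            rw [← mul_add]
            apply mul_le_mul_of_nonneg_left _ hy1.le
            have : (M : ℤ) ^ M * (y : ℤ) ^ (M * s) * 1 ≤
                (M : ℤ) ^ M * (y : ℤ) ^ (M * s) * (x1 : ℤ) ^ (M - 2) :=
              mul_le_mul_of_nonneg_left hxpow (by positivity)
            nlinarith
    exact le_of_mul_le_mul_left f1 hy1
  have hmainN : M * Z ^ (M - 1) ≤ 3 * M ^ M * y ^ (M * s) * x1 ^ (M - 2) := by exact_mod_cast hmain
  have hlow : M ^ M * y ^ (s * (M - 1)) * x1 ^ (M - 1) ≤ M * Z ^ (M - 1) := by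
    have g1 : (y ^ s * (M * x1)) ^ (M - 1) ≤ Z ^ (M - 1) :=
      Nat.pow_le_pow_left (Nat.mul_le_mul_left _ (by omega)) _
    calc M ^ M * y ^ (s * (M - 1)) * x1 ^ (M - 1) = M * (y ^ s * (M * x1)) ^ (M - 1) := by
          have g2 : M ^ M = M * M ^ (M - 1) := by
            obtain ⟨k, rfl⟩ : ∃ k, M = k + 1 := ⟨M - 1, by omega⟩
            rw [Nat.add_sub_cancel]; ring
          rw [g2, mul_pow, mul_pow, ← pow_mul]; ring
      _ ≤ M * Z ^ (M - 1) := Nat.mul_le_mul_left _ g1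
  have hfin : (M ^ M * y ^ (s * (M - 1)) * x1 ^ (M - 2)) * x1 ≤
      (M ^ M * y ^ (s * (M - 1)) * x1 ^ (M - 2)) * (3 * y ^ s) := by
    calc (M ^ M * y ^ (s * (M - 1)) * x1 ^ (M - 2)) * x1
        = M ^ M * y ^ (s * (M - 1)) * x1 ^ (M - 1) := by
          have g2 : x1 ^ (M - 1) = x1 ^ (M - 2) * x1 := by
            rw [← pow_succ]; congr 1; omega
          rw [g2]; ring
      _ ≤ 3 * M ^ M * y ^ (M * s) * x1 ^ (M - 2) := hlow.trans hmainN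
      _ = _ := by
          have g3 : y ^ (M * s) = y ^ (s * (M - 1)) * y ^ s := by
            rw [← pow_add]; congr 1
            obtain ⟨k, rfl⟩ : ∃ k, M = k + 1 := ⟨M - 1, by omega⟩
            rw [Nat.add_sub_cancel]; ring
          rw [g3]; ring
  exact Nat.le_of_mul_le_mul_left hfin (by positivity)

end Pool.Agent.MP_88e4f4_nt.GB
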