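import Mathlib

set_option autoImplicit false

namespace Pool.Agent.MP_88e4f4_nt.GB

open Finset

/-- A solution of Goormaghtigh's equation: `x > y ≥ 2` and `R_x(m) = R_y(n)` with `m, n ≥ 3`. -/
def Sol (x y m n : ℕ) : Prop :=
  2 ≤ y ∧ y < x ∧ 3 ≤ m ∧ 3 ≤ n ∧ ∑ i ∈ range m, x ^ i = ∑ i ∈ range n, y ^ i

variable {x y m n : ℕ}

/-- `(b - 1) R_b(k) = b ^ k - 1` over `ℤ`. -/
theorem rep_int (b k : ℕ) : ((b : ℤ) - 1) * ((∑ i ∈ range k, b ^ i : ℕ) : ℤ) = (b : ℤ) ^ k - 1 := by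
  push_cast
  rw [mul_comm]
  exact geom_sum_mul (b : ℤ) k

/-- The basic relation. -/
theorem rel (h : Sol x y m n) :
    (y : ℤ) ^ n * ((x : ℤ) - 1) = ((y : ℤ) - 1) * (x : ℤ) ^ m + ((x : ℤ) - y) := by
  obtain ⟨hy, hxy, hm, hn, he⟩ := h
  have h1 := rep_int x m
  have h2 := rep_int y n
  rw [he] at h1
  have h3 : ((y : ℤ) - 1) * ((x : ℤ) ^ m - 1) = ((x : ℤ) - 1) * ((y : ℤ) ^ n - 1) := by
    rw [← h1, ← h2]; ring
  linarith

/-- `R_b(k) < b ^ k`. -/
theorem rep_lt {b k : ℕ} (hb : 2 ≤ b) : ∑ i ∈ range k, b ^ i < b ^ k := by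
  induction k with
  | zero => simp
  | succ k ih =>
    rw [sum_range_succ, pow_succ]
    have : 0 < b ^ k := pow_pos (by omega) k
    nlinarith

/-- `R_b(k+1) ≤ 2 b ^ k`. -/
theorem rep_le {b k : ℕ} (hb : 2 ≤ b) : ∑ i ∈ range (k + 1), b ^ i ≤ 2 * b ^ k := by
  rw [sum_range_succ]
  have := rep_lt (k := k) hb
  omega

theorem rep_ge {b k : ℕ} : b ^ k ≤ ∑ i ∈ range (k + 1), b ^ i := by
  rw [sum_range_succ]; omega

theorem rep_mono_len {b k l : ℕ} (h : k ≤ l) : ∑ i ∈ range k, b ^ i ≤ ∑ i ∈ range l, b ^ i :=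
  sum_le_sum_of_subset (range_mono h)

theorem rep_mono_base {b c k : ℕ} (h : b ≤ c) : ∑ i ∈ range k, b ^ i ≤ ∑ i ∈ range k, c ^ i :=
  sum_le_sum fun i _ => Nat.pow_le_pow_left h i

theorem rep_strict_len {b k l : ℕ} (hb : 2 ≤ b) (h : k < l) :
    ∑ i ∈ range k, b ^ i < ∑ i ∈ range l, b ^ i := by
  have h1 : ∑ i ∈ range (k + 1), b ^ i ≤ ∑ i ∈ range l, b ^ i := rep_mono_len h
  have h2 : ∑ i ∈ range k, b ^ i < ∑ i ∈ range (k + 1), b ^ i := by
    rw [sum_range_succ]; have : 0 < b ^ k := pow_pos (by omega) k; omega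
  omega

theorem rep_strict_base {b c k : ℕ} (hk : 2 ≤ k) (h : b < c) :
    ∑ i ∈ range k, b ^ i < ∑ i ∈ range k, c ^ i := by
  apply sum_lt_sum (fun i _ => Nat.pow_le_pow_left h.le i)
  exact ⟨1, by simp; omega, by simpa using h⟩

/-- The larger base has the smaller number of digits. -/
theorem lt_len (h : Sol x y m n) : m < n := by
  obtain ⟨hy, hxy, hm, hn, he⟩ := h
  by_contra hle
  push Not at hle
  have h1 : ∑ i ∈ range n, y ^ i < ∑ i ∈ range n, x ^ i := rep_strict_base (by omega) hxy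
  have h2 : ∑ i ∈ range n, x ^ i ≤ ∑ i ∈ range m, x ^ i := rep_mono_len hle
  omega

theorem pow_le (h : Sol x y m n) : x ^ (m - 1) ≤ y ^ n := by
  obtain ⟨hy, hxy, hm, hn, he⟩ := h
  obtain ⟨k, rfl⟩ : ∃ k, m = k + 1 := ⟨m - 1, by omega⟩
  have h1 := rep_ge (b := x) (k := k)
  have h2 := rep_lt (k := n) hy
  simp only [Nat.add_sub_cancel]
  omega

theorem le_two (h : Sol x y m n) : y ^ (n - 1) ≤ 2 * x ^ (m - 1) := by
  obtain ⟨hy, hxy, hm, hn, he⟩ := h
  obtain ⟨k, rfl⟩ : ∃ k, m = k + 1 := ⟨m - 1, by omega⟩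
  obtain ⟨l, rfl⟩ : ∃ l, n = l + 1 := ⟨n - 1, by omega⟩
  have h1 := rep_ge (b := y) (k := l)
  have h2 := rep_le (b := x) (k := k) (by omega)
  simp only [Nat.add_sub_cancel]
  omega

/-- For fixed `y`, `m`, the larger base is an increasing function of the length `n`. -/
theorem mono_iff {x' n' : ℕ} (h : Sol x y m n) (h' : Sol x' y m n') : x < x' ↔ n < n' := by
  obtain ⟨hy, hxy, hm, hn, he⟩ := h
  obtain ⟨_, hxy', _, hn', he'⟩ := h'
  constructor
  · intro hlt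
    by_contra hle
    push Not at hle
    have h1 := rep_mono_len (b := y) hle
    have h2 := rep_strict_base (k := m) (by omega) hlt
    omega
  · intro hlt
    by_contra hle
    push Not at hle
    have h1 := rep_strict_len (k := n) (l := n') hy hlt
    have h2 := rep_mono_base (k := m) hle
    omega

theorem inj_n {x' : ℕ} (h : Sol x y m n) (h' : Sol x' y m n) : x = x' := by
  rcases lt_trichotomy x x' with hlt | heq | hgt
  · exact absurd ((mono_iff h h').1 hlt) (lt_irrefl _)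
  · exact heq
  · exact absurd ((mono_iff h' h).1 hgt) (lt_irrefl _)

/-- For fixed `x`, `y`, the length `n` is an increasing function of `m`. -/
theorem mono_len_iff {m' n' : ℕ} (h : Sol x y m n) (h' : Sol x y m' n') : m < m' ↔ n < n' := by
  obtain ⟨hy, hxy, hm, hn, he⟩ := h
  obtain ⟨_, _, hm', hn', he'⟩ := h'
  constructor
  · intro hlt
    by_contra hle
    push Not at hle
    have h1 := rep_mono_len (b := y) hle
    have h2 := rep_strict_len (b := x) (by omega) hlt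
    omega
  · intro hlt
    by_contra hle
    push Not at hle
    have h1 := rep_strict_len (k := n) (l := n') hy hlt
    have h2 := rep_mono_len (b := x) hle
    omega

/-- `2 ^ (Nat.log 2 z) ≤ z < 2 ^ (Nat.log 2 z + 1)`. -/
theorem lt_two_pow_lg (z : ℕ) : z < 2 ^ (Nat.log 2 z + 1) := Nat.lt_pow_succ_log_self (by norm_num) z

end Pool.Agent.MP_88e4f4_nt.GB
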