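import Mathlib

set_option autoImplicit false

namespace Pool.Agent.MP_88e4f4_nt.GB

open Finset

/-- If any three elements `i < j < k` of `A ⊆ [1,T]` satisfy `2 i ≤ k`, then
`|A| ≤ 2 (log_2 T + 1)`. -/
theorem card_three {A : Finset ℕ} {T : ℕ} (hT : ∀ n ∈ A, 1 ≤ n ∧ n ≤ T)
    (h : ∀ i ∈ A, ∀ j ∈ A, ∀ k ∈ A, i < j → j < k → 2 * i ≤ k) :
    A.card ≤ 2 * (Nat.log 2 T + 1) := by
  have := Finset.card_le_mul_card_image_of_maps_to (s := A) (t := range (Nat.log 2 T + 1))
    (f := Nat.log 2) (fun n hn => mem_range.2 (Nat.lt_succ_of_le (Nat.log_mono_right (hT n hn).2)))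
    2 (by
      intro b _
      by_contra hcon
      push Not at hcon
      obtain ⟨i, j, k, hi, hj, hk, hij, hik, hjk⟩ := Finset.two_lt_card_iff.1 hcon
      -- order them
      have key : ∀ i j k, i ∈ A.filter (fun a => Nat.log 2 a = b) →
          j ∈ A.filter (fun a => Nat.log 2 a = b) → k ∈ A.filter (fun a => Nat.log 2 a = b) →
          i < j → j < k → False := by
        intro i j k hi hj hk hij hjk
        obtain ⟨hi1, hi2⟩ := mem_filter.1 hi
        obtain ⟨hj1, hj2⟩ := mem_filter.1 hj
        obtain ⟨hk1, hk2⟩ := mem_filter.1 hk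
        have h1 := h i hi1 j hj1 k hk1 hij hjk
        have h2 : 2 ^ b ≤ i := by
          rw [← hi2]; exact Nat.pow_log_le_self 2 (by have := (hT i hi1).1; omega)
        have h3 : k < 2 ^ (b + 1) := by
          rw [← hk2]; exact Nat.lt_pow_succ_log_self (by norm_num) k
        rw [pow_succ] at h3
        omega
      rcases lt_or_gt_of_ne hij with h1 | h1 <;> rcases lt_or_gt_of_ne hik with h2 | h2 <;>
        rcases lt_or_gt_of_ne hjk with h3 | h3
      · exact key i j k hi hj hk h1 h3
      · exact key i k j hi hk hj h2 h3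
      · omega
      · exact key k i j hk hi hj h2 h1
      · exact key j i k hj hi hk h1 h2
      · omega
      · exact key j k i hj hk hi h3 h2
      · exact key k j i hk hj hi h3 h1)
  rwa [card_range] at this

theorem card_two {A : Finset ℕ} {T : ℕ} (hT : ∀ n ∈ A, 1 ≤ n ∧ n ≤ T)
    (h : ∀ i ∈ A, ∀ j ∈ A, i < j → 2 * i ≤ j) : A.card ≤ Nat.log 2 T + 1 := by
  have := Finset.card_le_mul_card_image_of_maps_to (s := A) (t := range (Nat.log 2 T + 1))
    (f := Nat.log 2) (fun n hn => mem_range.2 (Nat.lt_succ_of_le (Nat.log_mono_right (hT n hn).2)))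
    1 (by
      intro b _
      rw [Finset.card_le_one]
      have key : ∀ i j, i ∈ A.filter (fun a => Nat.log 2 a = b) →
          j ∈ A.filter (fun a => Nat.log 2 a = b) → i < j → False := by
        intro i j hi hj hij
        obtain ⟨hi1, hi2⟩ := mem_filter.1 hi
        obtain ⟨hj1, hj2⟩ := mem_filter.1 hj
        have h1 := h i hi1 j hj1 hij
        have h2 : 2 ^ b ≤ i := by
          rw [← hi2]; exact Nat.pow_log_le_self 2 (by have := (hT i hi1).1; omega)
        have h3 : j < 2 ^ (b + 1) := by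
          rw [← hj2]; exact Nat.lt_pow_succ_log_self (by norm_num) j
        rw [pow_succ] at h3
        omega
      intro i hi j hj
      by_contra hne
      rcases lt_or_gt_of_ne hne with h1 | h1
      · exact key i j hi hj h1
      · exact key j i hj hi h1)
  rwa [card_range, one_mul] at this

theorem card_arch {A : Finset ℕ} {T c : ℕ} (hT : ∀ n ∈ A, 1 ≤ n ∧ n ≤ T)
    (h : ∀ i ∈ A, ∀ j ∈ A, i < j → 2 * i ≤ j + c) :
    A.card ≤ 2 * c + 2 * (Nat.log 2 T + 1) := by
  classical
  have h1 : (A.filter fun n => n ≤ 2 * c).card ≤ 2 * c := by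
    calc _ ≤ (Finset.Icc 1 (2 * c)).card := by
          apply card_le_card
          intro n hn
          rw [mem_filter] at hn
          exact mem_Icc.2 ⟨(hT n hn.1).1, hn.2⟩
      _ = 2 * c := by rw [Nat.card_Icc]; omega
  have h2 : (A.filter fun n => ¬ n ≤ 2 * c).card ≤ 2 * (Nat.log 2 T + 1) := by
    apply card_three
    · intro n hn
      exact hT n (mem_filter.1 hn).1
    · intro i hi j hj k hk hij hjk
      obtain ⟨hi1, hi2⟩ := mem_filter.1 hi
      obtain ⟨hj1, hj2⟩ := mem_filter.1 hj
      obtain ⟨hk1, hk2⟩ := mem_filter.1 hk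
      have e1 := h i hi1 j hj1 hij
      have e2 := h j hj1 k hk1 hjk
      omega
  have h3 := Finset.card_filter_add_card_filter_not (s := A) (fun n => n ≤ 2 * c)
  omega

end Pool.Agent.MP_88e4f4_nt.GB
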