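import Mathlib

set_option autoImplicit false

namespace Pool.Agent.MP_88e4f4_nt.GB

open Finset

/-- `t1^j (t3-t2) - t2^j (t3-t1) + t3^j (t2-t1) = h * (t2-t1)(t3-t1)(t3-t2)` with an integer
`h` (`h = 0` for `j < 2`, `h = 1` for `j = 2`).  (Complete homogeneous polynomial `h_{j-2}`; induction on
`j` via `b_{j+3} = e1 b_{j+2} - e2 b_{j+1} + e3 b_j` for the left side, or explicitly.) -/
theorem bracket_dvd (t1 t2 t3 : ℤ) (j : ℕ) :
    ∃ h : ℤ, t1 ^ j * (t3 - t2) - t2 ^ j * (t3 - t1) + t3 ^ j * (t2 - t1) =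
      h * ((t2 - t1) * (t3 - t1) * (t3 - t2)) ∧ (j < 2 → h = 0) ∧ (j = 2 → h = 1) := by
  induction j using Nat.strong_induction_on with
  | _ j ih =>
    match j, ih with
    | 0, _ => exact ⟨0, by ring, fun _ => rfl, fun h => absurd h (by norm_num)⟩
    | 1, _ => exact ⟨0, by ring, fun _ => rfl, fun h => absurd h (by norm_num)⟩
    | 2, _ => exact ⟨1, by ring, fun h => absurd h (by norm_num), fun _ => rfl⟩
    | n + 3, ih =>
      obtain ⟨h0, e0, -⟩ := ih n (by omega)
      obtain ⟨h1, e1, -⟩ := ih (n + 1) (by omega)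
      obtain ⟨h2, e2, -⟩ := ih (n + 2) (by omega)
      refine ⟨(t1 + t2 + t3) * h2 - (t1 * t2 + t1 * t3 + t2 * t3) * h1 + t1 * t2 * t3 * h0, ?_,
        fun h => absurd h (by omega), fun h => absurd h (by omega)⟩
      linear_combination (t1 + t2 + t3) * e2 - (t1 * t2 + t1 * t3 + t2 * t3) * e1 + t1 * t2 * t3 * e0

/-- `binom(j,2) < 4 ^ (j-2)` for `j ≥ 3`. -/
theorem choose_two_lt {j : ℕ} (hj : 3 ≤ j) : j.choose 2 < 4 ^ (j - 2) := by
  induction j, hj using Nat.le_induction with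
  | base => decide
  | succ j hj ih =>
    have h1 : (j + 1).choose 2 = j.choose 1 + j.choose 2 := Nat.choose_succ_succ' j 1
    have h2 : j + 1 - 2 = (j - 2) + 1 := by omega
    have h3 : j ≤ 3 * 4 ^ (j - 2) := by
      have : ∀ k, k + 3 ≤ 3 * 4 ^ (k + 1) := by
        intro k
        induction k with
        | zero => norm_num
        | succ k ihk => rw [pow_succ]; omega
      obtain ⟨k, rfl⟩ : ∃ k, j = k + 3 := ⟨j - 3, by omega⟩
      have h4 : k + 3 - 2 = k + 1 := by omega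
      rw [h4]; exact this k
    rw [h1, h2, pow_succ, Nat.choose_one_right]
    omega

/-- For `3 ≤ j ≤ m` and `4 ≤ p ^ e`: `p ^ (v + 1) ∣ binom(m,j) p^(e(j-2))`, `v = v_p (binom(m,2))`. -/
theorem choose_val {p e : ℕ} (hp : p.Prime) (he : 4 ≤ p ^ e) (m j : ℕ) (hj : 3 ≤ j) (hjm : j ≤ m) :
    p ^ (padicValNat p (m.choose 2) + 1) ∣ m.choose j * p ^ (e * (j - 2)) := by
  have := Fact.mk hp
  have hmul : m.choose j * j.choose 2 = m.choose 2 * (m - 2).choose (j - 2) :=
    Nat.choose_mul (by omega)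
  have n1 : m.choose j ≠ 0 := (Nat.choose_pos hjm).ne'
  have n2 : j.choose 2 ≠ 0 := (Nat.choose_pos (by omega)).ne'
  have n3 : m.choose 2 ≠ 0 := (Nat.choose_pos (by omega)).ne'
  have n4 : (m - 2).choose (j - 2) ≠ 0 := (Nat.choose_pos (by omega)).ne'
  have hval : padicValNat p (m.choose j) + padicValNat p (j.choose 2) =
      padicValNat p (m.choose 2) + padicValNat p ((m - 2).choose (j - 2)) := by
    rw [← padicValNat.mul n1 n2, hmul, padicValNat.mul n3 n4]
  have hw : padicValNat p (j.choose 2) < e * (j - 2) := by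
    by_contra hcon
    push Not at hcon
    have h1 : p ^ padicValNat p (j.choose 2) ≤ j.choose 2 :=
      Nat.le_of_dvd (Nat.pos_of_ne_zero n2) pow_padicValNat_dvd
    have h2 : p ^ (e * (j - 2)) ≤ p ^ padicValNat p (j.choose 2) := Nat.pow_le_pow_right hp.pos hcon
    have h3 : 4 ^ (j - 2) ≤ p ^ (e * (j - 2)) := by
      rw [pow_mul]
      exact Nat.pow_le_pow_left he _
    have := choose_two_lt hj
    omega
  have hle : padicValNat p (m.choose 2) + 1 ≤ padicValNat p (m.choose j) + e * (j - 2) := by omega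
  calc p ^ (padicValNat p (m.choose 2) + 1)
      ∣ p ^ (padicValNat p (m.choose j) + e * (j - 2)) := pow_dvd_pow _ hle
    _ ∣ m.choose j * p ^ (e * (j - 2)) := by
        rw [pow_add]
        exact Nat.mul_dvd_mul_right pow_padicValNat_dvd _

/-- Second divided difference of `X^m` at three points congruent modulo `q = p^e ≥ 4`, prime to `p`. -/
theorem second_diff {p e : ℕ} (hp : p.Prime) (he : 4 ≤ p ^ e) (m : ℕ) (hm : 2 ≤ m)
    (r t1 t2 t3 : ℤ) (hr : ¬ (p : ℤ) ∣ r) (x1 x2 x3 : ℤ) (h1 : x1 = r + (p : ℤ) ^ e * t1)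
    (h2 : x2 = r + (p : ℤ) ^ e * t2) (h3 : x3 = r + (p : ℤ) ^ e * t3) :
    ∃ H : ℤ, x1 ^ m * (x3 - x2) - x2 ^ m * (x3 - x1) + x3 ^ m * (x2 - x1) =
      H * ((x2 - x1) * (x3 - x1) * (x3 - x2)) ∧
      ¬ (p : ℤ) ^ (padicValNat p (m.choose 2) + 1) ∣ H := by
  choose h hh h0 h2' using bracket_dvd t1 t2 t3
  set Q : ℤ := (p : ℤ) ^ e with hQ
  have hpow : ∀ t : ℤ, (r + Q * t) ^ m =
      ∑ j ∈ range (m + 1), (m.choose j : ℤ) * r ^ (m - j) * Q ^ j * t ^ j := by
    intro t
    rw [add_comm, add_pow]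
    refine Finset.sum_congr rfl fun j _ => ?_
    rw [mul_pow]; ring
  set F : ℕ → ℤ := fun j => (m.choose j : ℤ) * r ^ (m - j) * Q ^ (j - 2) * h j with hF
  refine ⟨∑ j ∈ range (m + 1), F j, ?_, ?_⟩
  · subst h1 h2 h3
    rw [hpow t1, hpow t2, hpow t3, Finset.sum_mul, Finset.sum_mul, Finset.sum_mul, Finset.sum_mul,
      ← Finset.sum_sub_distrib, ← Finset.sum_add_distrib]
    refine Finset.sum_congr rfl fun j _ => ?_
    have e1 : (m.choose j : ℤ) * r ^ (m - j) * Q ^ j * t1 ^ j *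
          (r + Q * t3 - (r + Q * t2)) -
        (m.choose j : ℤ) * r ^ (m - j) * Q ^ j * t2 ^ j *
          (r + Q * t3 - (r + Q * t1)) +
        (m.choose j : ℤ) * r ^ (m - j) * Q ^ j * t3 ^ j *
          (r + Q * t2 - (r + Q * t1)) =
        (m.choose j : ℤ) * r ^ (m - j) * Q ^ j * Q *
          (t1 ^ j * (t3 - t2) - t2 ^ j * (t3 - t1) + t3 ^ j * (t2 - t1)) := by ring
    rw [e1, hh j]
    rcases lt_or_ge j 2 with hj | hj
    · simp only [hF, h0 j hj]; ring
    · obtain ⟨k, rfl⟩ : ∃ k, j = k + 2 := ⟨j - 2, by omega⟩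
      simp only [hF, Nat.add_sub_cancel]
      ring
  · intro hdvd
    have hchoose : m.choose 2 ≠ 0 := (Nat.choose_pos hm).ne'
    -- split off the term `j = 2`
    have hsplit : ∑ j ∈ range (m + 1), F j = F 2 + ∑ j ∈ (range (m + 1)).erase 2, F j := by
      rw [Finset.add_sum_erase _ _ (mem_range.2 (by omega))]
    have hrest : (p : ℤ) ^ (padicValNat p (m.choose 2) + 1) ∣ ∑ j ∈ (range (m + 1)).erase 2, F j := by
      apply Finset.dvd_sum
      intro j hj
      rw [mem_erase, mem_range] at hj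
      rcases lt_or_ge j 2 with hj2 | hj2
      · simp only [hF, h0 j hj2, mul_zero, dvd_zero]
      · have h4 := choose_val hp he m j (by omega) (by omega)
        have h5 : (p : ℤ) ^ (padicValNat p (m.choose 2) + 1) ∣
            (m.choose j : ℤ) * (p : ℤ) ^ (e * (j - 2)) := by exact_mod_cast h4
        have h6 : F j = ((m.choose j : ℤ) * (p : ℤ) ^ (e * (j - 2))) * (r ^ (m - j) * h j) := by
          simp only [hF, hQ]; rw [← pow_mul]; ring
        rw [h6]; exact h5.mul_right _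
    rw [hsplit] at hdvd
    have hF2 : (p : ℤ) ^ (padicValNat p (m.choose 2) + 1) ∣ F 2 := (dvd_add_left hrest).1 hdvd
    have hF2' : F 2 = (m.choose 2 : ℤ) * r ^ (m - 2) := by
      simp only [hF, h2' 2 rfl]; simp
    rw [hF2'] at hF2
    have hcop : IsCoprime ((p : ℤ) ^ (padicValNat p (m.choose 2) + 1)) (r ^ (m - 2)) := by
      apply IsCoprime.pow
      rw [Prime.coprime_iff_not_dvd (Nat.prime_iff_prime_int.1 hp)]
      exact hr
    have h7 : (p : ℤ) ^ (padicValNat p (m.choose 2) + 1) ∣ (m.choose 2 : ℤ) :=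
      hcop.dvd_of_dvd_mul_right hF2
    have h8 : p ^ (padicValNat p (m.choose 2) + 1) ∣ m.choose 2 := by exact_mod_cast h7
    have := Fact.mk hp
    have h9 := (padicValNat_dvd_iff_le hchoose).1 h8
    omega

end Pool.Agent.MP_88e4f4_nt.GB
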