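import Pool.Agent.MP_88e4f4_nt.GBasic
import Pool.Agent.MP_88e4f4_nt.GDiff

set_option autoImplicit false

namespace Pool.Agent.MP_88e4f4_nt.GB

open Finset

theorem relh {x y m n : ℕ} (h : Sol x y m n) :
    (1 - (y : ℤ)) * (x : ℤ) ^ m - x + y = - ((y : ℤ) ^ n * ((x : ℤ) - 1)) := by
  rw [rel h]; ring

/-- Two solutions with the same `y`, `m` and both larger bases divisible by the prime
`p ∣ y`:  `p ^ n1 ≤ x2`. -/
theorem two_gap {p y m x1 x2 n1 n2 : ℕ} (hp : p.Prime) (hpy : p ∣ y)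
    (h1 : Sol x1 y m n1) (h2 : Sol x2 y m n2) (h12 : x1 < x2) (hp1 : p ∣ x1) (hp2 : p ∣ x2) :
    p ^ n1 ≤ x2 := by
  have hn : n1 < n2 := (mono_iff h1 h2).1 h12
  have r1 := relh h1
  have r2 := relh h2
  have hm : 3 ≤ m := h1.2.2.1
  have hpy' : (p : ℤ) ∣ (y : ℤ) := by exact_mod_cast hpy
  have d1 : (p : ℤ) ^ n1 ∣ (1 - (y : ℤ)) * (x1 : ℤ) ^ m - x1 + y := by
    rw [r1]; exact ((pow_dvd_pow_of_dvd hpy' n1).mul_right _).neg_right
  have d2 : (p : ℤ) ^ n1 ∣ (1 - (y : ℤ)) * (x2 : ℤ) ^ m - x2 + y := by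
    rw [r2]
    exact (((pow_dvd_pow _ hn.le).trans (pow_dvd_pow_of_dvd hpy' n2)).mul_right _).neg_right
  set G : ℤ := ∑ i ∈ range m, (x2 : ℤ) ^ i * (x1 : ℤ) ^ (m - 1 - i) with hG
  have hGm : G * ((x2 : ℤ) - x1) = (x2 : ℤ) ^ m - (x1 : ℤ) ^ m := Commute.geom_sum₂_mul (Commute.all _ _) m
  have hpG : (p : ℤ) ∣ G := by
    rw [hG]
    apply Finset.dvd_sum
    intro i hi
    rw [mem_range] at hi
    by_cases hi0 : i = 0
    · apply Dvd.dvd.mul_left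
      apply dvd_pow (by exact_mod_cast hp1)
      omega
    · apply Dvd.dvd.mul_right
      exact dvd_pow (by exact_mod_cast hp2) hi0
  have d3 : (p : ℤ) ^ n1 ∣ ((x2 : ℤ) - x1) * ((1 - (y : ℤ)) * G - 1) := by
    have h3 : ((x2 : ℤ) - x1) * ((1 - (y : ℤ)) * G - 1) =
        ((1 - (y : ℤ)) * (x2 : ℤ) ^ m - x2 + y) - ((1 - (y : ℤ)) * (x1 : ℤ) ^ m - x1 + y) := by
      have : ((x2 : ℤ) - x1) * ((1 - (y : ℤ)) * G - 1) =
          (1 - (y : ℤ)) * (G * ((x2 : ℤ) - x1)) - ((x2 : ℤ) - x1) := by ring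
      rw [this, hGm]; ring
    rw [h3]; exact dvd_sub d2 d1
  have hcop : IsCoprime ((p : ℤ) ^ n1) ((1 - (y : ℤ)) * G - 1) := by
    apply IsCoprime.pow_left
    rw [Prime.coprime_iff_not_dvd (Nat.prime_iff_prime_int.1 hp)]
    intro hdvd
    have h4 : (p : ℤ) ∣ (1 - (y : ℤ)) * G := hpG.mul_left _
    have h5 : (p : ℤ) ∣ 1 := by
      have := dvd_sub h4 hdvd
      simpa using this
    have h6 : p ∣ 1 := by exact_mod_cast h5
    exact hp.one_lt.ne' (Nat.dvd_one.1 h6)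
  have d4 : (p : ℤ) ^ n1 ∣ (x2 : ℤ) - x1 := hcop.dvd_of_dvd_mul_right d3
  have hlt : (x1 : ℤ) < x2 := by exact_mod_cast h12
  have h5 : (p : ℤ) ^ n1 ≤ (x2 : ℤ) - x1 := Int.le_of_dvd (by linarith) d4
  have h6 : (p : ℤ) ^ n1 ≤ x2 := by
    have : (0 : ℤ) ≤ x1 := by positivity
    linarith
  exact_mod_cast h6

/-- Three solutions with the same `y`, `m`, the larger bases congruent modulo `p^e ≥ 4` and prime
to the prime `p ∣ y`:  `p ^ n1 ≤ x3 ^ 3 * m ^ 2`. -/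
theorem three_gap {p e y m x1 x2 x3 n1 n2 n3 : ℕ} (hp : p.Prime) (he : 4 ≤ p ^ e) (hpy : p ∣ y)
    (h1 : Sol x1 y m n1) (h2 : Sol x2 y m n2) (h3 : Sol x3 y m n3) (h12 : x1 < x2) (h23 : x2 < x3)
    (hpx : ¬ p ∣ x1) (hc12 : x1 ≡ x2 [MOD p ^ e]) (hc13 : x1 ≡ x3 [MOD p ^ e]) :
    p ^ n1 ≤ x3 ^ 3 * m ^ 2 := by
  have hn12 : n1 < n2 := (mono_iff h1 h2).1 h12
  have hn23 : n2 < n3 := (mono_iff h2 h3).1 h23
  have r1 := relh h1
  have r2 := relh h2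
  have r3 := relh h3
  have hm : 3 ≤ m := h1.2.2.1
  have hpy' : (p : ℤ) ∣ (y : ℤ) := by exact_mod_cast hpy
  have hpp : Prime (p : ℤ) := Nat.prime_iff_prime_int.1 hp
  have d1 : (p : ℤ) ^ n1 ∣ (1 - (y : ℤ)) * (x1 : ℤ) ^ m - x1 + y := by
    rw [r1]; exact ((pow_dvd_pow_of_dvd hpy' n1).mul_right _).neg_right
  have d2 : (p : ℤ) ^ n1 ∣ (1 - (y : ℤ)) * (x2 : ℤ) ^ m - x2 + y := by
    rw [r2]
    exact (((pow_dvd_pow _ hn12.le).trans (pow_dvd_pow_of_dvd hpy' n2)).mul_right _).neg_right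
  have d3 : (p : ℤ) ^ n1 ∣ (1 - (y : ℤ)) * (x3 : ℤ) ^ m - x3 + y := by
    rw [r3]
    exact (((pow_dvd_pow _ (hn12.trans hn23).le).trans (pow_dvd_pow_of_dvd hpy' n3)).mul_right _).neg_right
  obtain ⟨t2, ht2⟩ : ((p : ℤ) ^ e) ∣ (x2 : ℤ) - x1 := by
    have := (Nat.modEq_iff_dvd.1 hc12)
    exact_mod_cast this
  obtain ⟨t3, ht3⟩ : ((p : ℤ) ^ e) ∣ (x3 : ℤ) - x1 := by
    have := (Nat.modEq_iff_dvd.1 hc13)
    exact_mod_cast this
  obtain ⟨H, hH1, hH2⟩ := second_diff hp he m (by omega) (x1 : ℤ) 0 t2 t3 (by exact_mod_cast hpx)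
    (x1 : ℤ) (x2 : ℤ) (x3 : ℤ) (by ring) (by linarith) (by linarith)
  set v := padicValNat p (m.choose 2) with hv
  set D : ℤ := ((x2 : ℤ) - x1) * ((x3 : ℤ) - x1) * ((x3 : ℤ) - x2) with hD
  have hlt12 : (x1 : ℤ) < x2 := by exact_mod_cast h12
  have hlt23 : (x2 : ℤ) < x3 := by exact_mod_cast h23
  have hDpos : 0 < D := by
    rw [hD]; exact mul_pos (mul_pos (by linarith) (by linarith)) (by linarith)
  have dW : (p : ℤ) ^ n1 ∣ (1 - (y : ℤ)) * (H * D) := by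
    rw [← hH1]
    have h4 : (1 - (y : ℤ)) * ((x1 : ℤ) ^ m * ((x3 : ℤ) - x2) - (x2 : ℤ) ^ m * ((x3 : ℤ) - x1) +
        (x3 : ℤ) ^ m * ((x2 : ℤ) - x1)) =
        ((1 - (y : ℤ)) * (x1 : ℤ) ^ m - x1 + y) * ((x3 : ℤ) - x2) -
        ((1 - (y : ℤ)) * (x2 : ℤ) ^ m - x2 + y) * ((x3 : ℤ) - x1) +
        ((1 - (y : ℤ)) * (x3 : ℤ) ^ m - x3 + y) * ((x2 : ℤ) - x1) := by ring
    rw [h4]
    exact dvd_add (dvd_sub (d1.mul_right _) (d2.mul_right _)) (d3.mul_right _)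
  have hcop1 : IsCoprime ((p : ℤ) ^ n1) (1 - (y : ℤ)) := by
    apply IsCoprime.pow_left
    rw [Prime.coprime_iff_not_dvd hpp]
    intro hdvd
    have h5 : (p : ℤ) ∣ 1 := by
      have := dvd_add hdvd hpy'
      simpa using this
    have h6 : p ∣ 1 := by exact_mod_cast h5
    exact hp.one_lt.ne' (Nat.dvd_one.1 h6)
  have dHD : (p : ℤ) ^ n1 ∣ H * D := hcop1.dvd_of_dvd_mul_left dW
  have dD : (p : ℤ) ^ (n1 - v) ∣ D := by
    -- `p^n1 ∣ H D`, `¬ p^(v+1) ∣ H`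
    by_contra hnot
    rcases le_or_gt n1 v with hle | hgt
    · apply hnot
      rw [Nat.sub_eq_zero_of_le hle, pow_zero]
      exact one_dvd _
    · have h8 : (p : ℤ) ^ (v + (n1 - v)) ∣ H * D := by
        have : v + (n1 - v) = n1 := by omega
        rw [this]; exact dHD
      have hH0 : emultiplicity (p : ℤ) H < ((v + 1 : ℕ) : ℕ∞) := emultiplicity_lt_iff_not_dvd.2 hH2
      have hD0 : emultiplicity (p : ℤ) D < ((n1 - v : ℕ) : ℕ∞) := emultiplicity_lt_iff_not_dvd.2 hnot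
      have h9 : ((v + (n1 - v) : ℕ) : ℕ∞) ≤ emultiplicity (p : ℤ) (H * D) :=
        pow_dvd_iff_le_emultiplicity.1 h8
      rw [emultiplicity_mul hpp] at h9
      obtain ⟨a, ha⟩ := ENat.ne_top_iff_exists.1 (ne_top_of_lt hH0)
      obtain ⟨b, hb⟩ := ENat.ne_top_iff_exists.1 (ne_top_of_lt hD0)
      rw [← ha] at hH0 h9
      rw [← hb] at hD0 h9
      have e1 : a < v + 1 := by exact_mod_cast hH0
      have e2 : b < n1 - v := by exact_mod_cast hD0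
      have e3 : v + (n1 - v) ≤ a + b := by exact_mod_cast h9
      omega
  have hDle : D ≤ (x3 : ℤ) ^ 3 := by
    rw [hD]
    have hx1 : (0 : ℤ) ≤ x1 := by positivity
    have a1 : (x2 : ℤ) - x1 ≤ x3 := by linarith
    have a2 : (x3 : ℤ) - x1 ≤ x3 := by linarith
    have a3 : (x3 : ℤ) - x2 ≤ x3 := by linarith
    calc ((x2 : ℤ) - x1) * ((x3 : ℤ) - x1) * ((x3 : ℤ) - x2)
        ≤ (x3 : ℤ) * (x3 : ℤ) * (x3 : ℤ) := by
          apply mul_le_mul (mul_le_mul a1 a2 (by linarith) (by linarith)) a3 (by linarith)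
          positivity
      _ = (x3 : ℤ) ^ 3 := by ring
  have hDge : (p : ℤ) ^ (n1 - v) ≤ D := Int.le_of_dvd hDpos dD
  have hchoose : m.choose 2 ≠ 0 := (Nat.choose_pos (by omega)).ne'
  have hpv : p ^ v ≤ m ^ 2 := by
    calc p ^ v ≤ m.choose 2 := Nat.le_of_dvd (Nat.pos_of_ne_zero hchoose) pow_padicValNat_dvd
      _ ≤ m ^ 2 := Nat.choose_le_pow m 2
  have h10 : p ^ (n1 - v) ≤ x3 ^ 3 := by
    have := hDge.trans hDle
    exact_mod_cast this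
  calc p ^ n1 ≤ p ^ ((n1 - v) + v) := Nat.pow_le_pow_right hp.pos (by omega)
    _ = p ^ (n1 - v) * p ^ v := pow_add _ _ _
    _ ≤ x3 ^ 3 * m ^ 2 := Nat.mul_le_mul h10 hpv

end Pool.Agent.MP_88e4f4_nt.GB
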