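import Pool.Agent.MP_88e4f4_nt.GFinal3
import Pool.Agent.MP_88e4f4_nt.GThree
import Pool.Agent.MP_88e4f4_nt.GArch
import Pool.Agent.MP_88e4f4_nt.GCard
import Pool.Prelude.Def_F_feb75459

set_option autoImplicit false

namespace Pool.Agent.MP_88e4f4_nt.GB

open Finset

open Classical in
/-- The lengths `n ≤ T` of base-`y` repunits equal to an `m`-digit repunit in a larger base. -/
noncomputable def LenSet (y m T : ℕ) : Finset ℕ := (range (T + 1)).filter fun n => ∃ x, Sol x y m n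

theorem mem_LenSet {y m T n : ℕ} : n ∈ LenSet y m T ↔ n ≤ T ∧ ∃ x, Sol x y m n := by
  classical
  unfold LenSet
  rw [mem_filter, mem_range, Nat.lt_succ_iff]

theorem four_lg_le {m : ℕ} (hm : 32 ≤ m) : 4 * (Nat.log 2 m + 1) ≤ m := by
  have h1 : 5 ≤ Nat.log 2 m := (Nat.le_log_iff_pow_le (by norm_num) (by omega)).2 (by norm_num; omega)
  have h2 : 2 ^ Nat.log 2 m ≤ m := Nat.pow_log_le_self 2 (by omega)
  have h3 : ∀ L, 5 ≤ L → 4 * (L + 1) ≤ 2 ^ L := by
    intro L hL
    induction L, hL using Nat.le_induction with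
    | base => norm_num
    | succ L _ ih => rw [pow_succ]; omega
  exact (h3 _ h1).trans h2

/-- From a bound `p ^ i ≤ x ^ e * m ^ f` to a gap between lengths. -/
theorem gap_of_pow {p x y m i k e f : ℕ} (hp : 2 ≤ p) (h : Sol x y m k)
    (hb : p ^ i ≤ x ^ e * m ^ f) (he : e ≤ 3) (hf : f ≤ 2) (hmi : m ≤ i)
    (hm : 12 * (Nat.log 2 y + 1) + 20 ≤ m) : 2 * i ≤ k := by
  have hpow := pow_le h
  obtain ⟨hy, hxy, hm3, hn, _⟩ := h
  have hx1 : 1 ≤ x := by omega
  have hm1 : 1 ≤ m := by omega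
  set ly := Nat.log 2 y + 1 with hly
  have hly1 : 2 ≤ ly := by
    have : 1 ≤ Nat.log 2 y := Nat.log_pos (by norm_num) hy
    omega
  set lm := Nat.log 2 m + 1 with hlm
  have h1 : (2 ^ i) ^ (m - 1) ≤ (x ^ 3 * m ^ 2) ^ (m - 1) := by
    apply Nat.pow_le_pow_left
    calc 2 ^ i ≤ p ^ i := Nat.pow_le_pow_left hp i
      _ ≤ x ^ e * m ^ f := hb
      _ ≤ x ^ 3 * m ^ 2 := Nat.mul_le_mul (Nat.pow_le_pow_right hx1 he) (Nat.pow_le_pow_right hm1 hf)
  have h2 : (x ^ 3 * m ^ 2) ^ (m - 1) ≤ (y ^ k) ^ 3 * (m ^ 2) ^ (m - 1) := by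
    rw [mul_pow, ← pow_mul x, mul_comm 3 (m - 1), pow_mul x]
    exact Nat.mul_le_mul_right _ (Nat.pow_le_pow_left hpow 3)
  have h3 : (y ^ k) ^ 3 ≤ 2 ^ (3 * ly * k) := by
    calc (y ^ k) ^ 3 ≤ ((2 ^ ly) ^ k) ^ 3 :=
          Nat.pow_le_pow_left (Nat.pow_le_pow_left (lt_two_pow_lg y).le k) 3
      _ = 2 ^ (3 * ly * k) := by rw [← pow_mul, ← pow_mul]; congr 1; ring
  have h4 : (m ^ 2) ^ (m - 1) ≤ 2 ^ (2 * lm * (m - 1)) := by
    calc (m ^ 2) ^ (m - 1) ≤ ((2 ^ lm) ^ 2) ^ (m - 1) :=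
          Nat.pow_le_pow_left (Nat.pow_le_pow_left (lt_two_pow_lg m).le 2) _
      _ = _ := by rw [← pow_mul, ← pow_mul]; congr 1; ring
  have h5 : 2 ^ (i * (m - 1)) ≤ 2 ^ (3 * ly * k + 2 * lm * (m - 1)) := by
    rw [pow_mul, pow_add]
    exact (h1.trans h2).trans (Nat.mul_le_mul h3 h4)
  have h6 : i * (m - 1) ≤ 3 * ly * k + 2 * lm * (m - 1) := (Nat.pow_le_pow_iff_right (by norm_num)).1 h5
  have h7 : 4 * lm ≤ i := (four_lg_le (by omega)).trans hmi
  have h8 : 2 * (2 * lm * (m - 1)) ≤ i * (m - 1) := by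
    calc 2 * (2 * lm * (m - 1)) = (4 * lm) * (m - 1) := by ring
      _ ≤ i * (m - 1) := Nat.mul_le_mul_right _ h7
  have h9 : i * (m - 1) ≤ 6 * (ly * k) := by
    have : 3 * ly * k = 3 * (ly * k) := by ring
    omega
  have h10 : i * (12 * ly) ≤ i * (m - 1) := Nat.mul_le_mul_left _ (by omega)
  have h11 : ly * (2 * i) ≤ ly * k := by
    have : i * (12 * ly) = 6 * (ly * (2 * i)) := by ring
    omega
  exact Nat.le_of_mul_le_mul_left h11 (by omega)

theorem card_large {p e y m T : ℕ} (hp : p.Prime) (he : 4 ≤ p ^ e) (hpy : p ∣ y)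
    (hm : 12 * (Nat.log 2 y + 1) + 20 ≤ m) :
    (LenSet y m T).card ≤ 2 * (Nat.log 2 T + 1) * p ^ e := by
  classical
  have he0 : e ≠ 0 := by
    rintro rfl
    simp at he
  have hex : ∀ n ∈ LenSet y m T, ∃ x, Sol x y m n := fun n hn => (mem_LenSet.1 hn).2
  set X : ℕ → ℕ := fun n => if h : ∃ x, Sol x y m n then h.choose else 0 with hX
  have hXs : ∀ n ∈ LenSet y m T, Sol (X n) y m n := by
    intro n hn
    have h := hex n hn
    simp only [hX, h, dif_pos]
    exact h.choose_spec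
  have hp2 : 0 < p ^ e := pow_pos hp.pos e
  have := Finset.card_le_mul_card_image_of_maps_to (s := LenSet y m T) (t := range (p ^ e))
    (f := fun n => X n % p ^ e) (fun n _ => mem_range.2 (Nat.mod_lt _ hp2))
    (2 * (Nat.log 2 T + 1)) (by
      intro b _
      apply card_three
      · intro n hn
        have h1 := (mem_filter.1 hn).1
        exact ⟨by have := (hXs n h1).2.2.2.1; omega, (mem_LenSet.1 h1).1⟩
      · intro i hi j hj k hk hij hjk
        obtain ⟨hi1, hi2⟩ := mem_filter.1 hi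
        obtain ⟨hj1, hj2⟩ := mem_filter.1 hj
        obtain ⟨hk1, hk2⟩ := mem_filter.1 hk
        have si := hXs i hi1
        have sj := hXs j hj1
        have sk := hXs k hk1
        have xij : X i < X j := (mono_iff si sj).2 hij
        have xjk : X j < X k := (mono_iff sj sk).2 hjk
        have hmi : m ≤ i := (lt_len si).le
        have cij : X i ≡ X j [MOD p ^ e] := hi2.trans hj2.symm
        have cik : X i ≡ X k [MOD p ^ e] := hi2.trans hk2.symm
        by_cases hpi : p ∣ X i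
        · have hpk : p ∣ X k :=
            ((Nat.ModEq.dvd_iff cik (dvd_pow_self p he0)).1 hpi)
          have h1 := two_gap hp hpy si sk (xij.trans xjk) hpi hpk
          exact gap_of_pow (e := 1) (f := 0) hp.two_le sk (by simpa using h1) (by norm_num)
            (by norm_num) hmi hm
        · have h1 := three_gap hp he hpy si sj sk xij xjk hpi cij cik
          exact gap_of_pow (e := 3) (f := 2) hp.two_le sk h1 le_rfl le_rfl hmi hm)
  rwa [card_range] at this

open Classical in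
/-- The lengths `n ≤ T` of base-`y` repunits equal to an `m`-digit repunit in a larger base
congruent to `c` modulo `p`. -/
noncomputable def LenSetC (y p m T c : ℕ) : Finset ℕ :=
  (range (T + 1)).filter fun n => ∃ x, Sol x y m n ∧ x % p = c

theorem mem_LenSetC {y p m T c n : ℕ} :
    n ∈ LenSetC y p m T c ↔ n ≤ T ∧ ∃ x, Sol x y m n ∧ x % p = c := by
  classical
  unfold LenSetC
  rw [mem_filter, mem_range, Nat.lt_succ_iff]

/-- For large `m` and a prime `p ≥ 5` dividing `y`, each class contributes few lengths. -/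
theorem card_class {p y m T c : ℕ} (hp : p.Prime) (hp4 : 4 ≤ p) (hpy : p ∣ y)
    (hm : 12 * (Nat.log 2 y + 1) + 20 ≤ m) :
    (LenSetC y p m T c).card ≤ 2 * (Nat.log 2 T + 1) := by
  classical
  have hex : ∀ n ∈ LenSetC y p m T c, ∃ x, Sol x y m n ∧ x % p = c :=
    fun n hn => (mem_LenSetC.1 hn).2
  set X : ℕ → ℕ := fun n => if h : ∃ x, Sol x y m n ∧ x % p = c then h.choose else 0 with hX
  have hXs : ∀ n ∈ LenSetC y p m T c, Sol (X n) y m n ∧ X n % p = c := by
    intro n hn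
    have h := hex n hn
    simp only [hX, h, dif_pos]
    exact h.choose_spec
  apply card_three
  · intro n hn
    exact ⟨by have := (hXs n hn).1.2.2.2.1; omega, (mem_LenSetC.1 hn).1⟩
  · intro i hi j hj k hk hij hjk
    obtain ⟨si, ci⟩ := hXs i hi
    obtain ⟨sj, cj⟩ := hXs j hj
    obtain ⟨sk, ck⟩ := hXs k hk
    have xij : X i < X j := (mono_iff si sj).2 hij
    have xjk : X j < X k := (mono_iff sj sk).2 hjk
    have hmi : m ≤ i := (lt_len si).le
    have cij : X i ≡ X j [MOD p ^ 1] := by rw [pow_one]; exact ci.trans cj.symm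
    have cik : X i ≡ X k [MOD p ^ 1] := by rw [pow_one]; exact ci.trans ck.symm
    by_cases hpi : p ∣ X i
    · have hpk : p ∣ X k :=
        ((Nat.ModEq.dvd_iff cik (dvd_pow_self p (by norm_num))).1 hpi)
      have h1 := two_gap hp hpy si sk (xij.trans xjk) hpi hpk
      exact gap_of_pow (e := 1) (f := 0) hp.two_le sk (by simpa using h1) (by norm_num)
        (by norm_num) hmi hm
    · have h1 := three_gap hp (e := 1) (by rw [pow_one]; exact hp4) hpy si sj sk xij xjk hpi cij cik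
      exact gap_of_pow (e := 3) (f := 2) hp.two_le sk h1 le_rfl le_rfl hmi hm

/-- The residues modulo `p` whose `g`-th power is `1`. -/
def Cls (p g : ℕ) : Finset ℕ := (range p).filter fun c => p ∣ c ^ g - 1 ∧ 1 ≤ c

theorem card_Cls {p g : ℕ} (hp : p.Prime) (hg : 1 ≤ g) : (Cls p g).card ≤ g := by
  have := Fact.mk hp
  have h1 : (Cls p g).card ≤ (Polynomial.nthRootsFinset g (1 : ZMod p)).card := by
    apply Finset.card_le_card_of_injOn (fun c : ℕ => (c : ZMod p))
    · intro c hc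
      rw [Finset.mem_coe] at hc
      unfold Cls at hc
      rw [mem_filter] at hc
      obtain ⟨h1, h2, h3⟩ := hc
      rw [Finset.mem_coe, Polynomial.mem_nthRootsFinset hg]
      have h4 : ((c ^ g - 1 : ℕ) : ZMod p) = 0 := (ZMod.natCast_eq_zero_iff _ _).2 h2
      rw [Nat.cast_sub (Nat.one_le_pow _ _ h3)] at h4
      push_cast at h4
      exact sub_eq_zero.1 h4
    · intro c hc c' hc' heq
      rw [Finset.mem_coe] at hc hc'
      unfold Cls at hc hc'
      rw [mem_filter, mem_range] at hc hc'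
      have h5 := (ZMod.natCast_eq_natCast_iff _ _ _).1 heq
      unfold Nat.ModEq at h5
      rwa [Nat.mod_eq_of_lt hc.1, Nat.mod_eq_of_lt hc'.1] at h5
  refine h1.trans ?_
  refine le_trans ?_ (Polynomial.card_nthRoots g (1 : ZMod p))
  rw [Polynomial.nthRootsFinset_def]
  exact Multiset.toFinset_card_le _

/-- The class of the larger base. -/
theorem class_of_sol {p x y m n : ℕ} (hp : p.Prime) (hpy : p ∣ y) (h : Sol x y m n)
    (hpx : ¬ p ∣ x) : x % p ∈ Cls p (Nat.gcd (m - 1) (p - 1)) := by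
  have hrel := rel h
  obtain ⟨hy, hxy, hm, hn, he⟩ := h
  have hco : Nat.Coprime p x := (Nat.Prime.coprime_iff_not_dvd hp).2 hpx
  have hcoz : IsCoprime (p : ℤ) (x : ℤ) := Nat.isCoprime_iff_coprime.2 hco
  have hpyz : (p : ℤ) ∣ (y : ℤ) := by exact_mod_cast hpy
  have h3 : (p : ℤ) ∣ (x : ℤ) ^ (m - 1) - 1 := by
    have h1 : (p : ℤ) ∣ (x : ℤ) * ((x : ℤ) ^ (m - 1) - 1) := by
      have h2 : (x : ℤ) * ((x : ℤ) ^ (m - 1) - 1) =
          (y : ℤ) * ((x : ℤ) ^ m - 1) - (y : ℤ) ^ n * ((x : ℤ) - 1) := by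
        rw [hrel]
        obtain ⟨k, rfl⟩ : ∃ k, m = k + 1 := ⟨m - 1, by omega⟩
        rw [Nat.add_sub_cancel]; ring
      rw [h2]
      exact dvd_sub (hpyz.mul_right _) ((dvd_pow hpyz (by omega)).mul_right _)
    exact hcoz.dvd_of_dvd_mul_left h1
  have := Fact.mk hp
  have hx0 : (x : ZMod p) ≠ 0 := by
    intro h0
    exact hpx ((ZMod.natCast_eq_zero_iff _ _).1 h0)
  have h4 : (x : ZMod p) ^ (m - 1) = 1 := by
    have h5 : (((x : ℤ) ^ (m - 1) - 1 : ℤ) : ZMod p) = 0 :=
      (ZMod.intCast_zmod_eq_zero_iff_dvd _ _).2 h3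
    push_cast at h5
    exact sub_eq_zero.1 h5
  have h6 : (x : ZMod p) ^ (p - 1) = 1 := ZMod.pow_card_sub_one_eq_one hx0
  have h7 : (x : ZMod p) ^ (Nat.gcd (m - 1) (p - 1)) = 1 := pow_gcd_eq_one.2 ⟨h4, h6⟩
  have hpos : 1 ≤ x % p := by
    rcases Nat.eq_zero_or_pos (x % p) with h0 | h0
    · exact absurd (Nat.dvd_of_mod_eq_zero h0) hpx
    · exact h0
  unfold Cls
  rw [mem_filter]
  refine ⟨mem_range.2 (Nat.mod_lt _ hp.pos), ?_, hpos⟩
  rw [← ZMod.natCast_eq_zero_iff, Nat.cast_sub (Nat.one_le_pow _ _ hpos)]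
  push_cast
  rw [ZMod.natCast_mod, h7, sub_self]

theorem exists_exp {p : ℕ} (hp : p.Prime) : ∃ e, 4 ≤ p ^ e ∧ p ^ e ≤ 3 * p := by
  have h2 := hp.two_le
  by_cases h4 : 4 ≤ p
  · exact ⟨1, by simpa using h4, by rw [pow_one]; omega⟩
  · refine ⟨2, ?_, ?_⟩
    · nlinarith
    · have : p ≤ 3 := by omega
      nlinarith

/-- For large `m`. -/
theorem card_large' {y m T : ℕ} (hy : 2 ≤ y) (hm : 12 * (Nat.log 2 y + 1) + 20 ≤ m) :
    (LenSet y m T).card ≤ 6 * y.minFac * (Nat.log 2 T + 1) := by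
  have hp := Nat.minFac_prime (by omega : y ≠ 1)
  obtain ⟨e, he, he3⟩ := exists_exp hp
  calc (LenSet y m T).card ≤ 2 * (Nat.log 2 T + 1) * y.minFac ^ e :=
        card_large hp he (Nat.minFac_dvd y) hm
    _ ≤ 2 * (Nat.log 2 T + 1) * (3 * y.minFac) := Nat.mul_le_mul_left _ he3
    _ = 6 * y.minFac * (Nat.log 2 T + 1) := by ring

theorem card_small {y m T : ℕ} (hm : 3 ≤ m) :
    (LenSet y m T).card ≤
      (2 * (2 * (m - 1) + 2) + 2 * (Nat.log 2 T + 1)) * (m - 1) := by
  classical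
  have hex : ∀ n ∈ LenSet y m T, ∃ x, Sol x y m n := fun n hn => (mem_LenSet.1 hn).2
  have hM0 : 0 < m - 1 := by omega
  have := Finset.card_le_mul_card_image_of_maps_to (s := LenSet y m T) (t := range (m - 1))
    (f := fun n => n % (m - 1)) (fun n _ => mem_range.2 (Nat.mod_lt _ hM0))
    (2 * (2 * (m - 1) + 2) + 2 * (Nat.log 2 T + 1)) (by
      intro b _
      apply card_arch
      · intro n hn
        have h1 := (mem_filter.1 hn).1
        obtain ⟨x, hx⟩ := hex n h1
        exact ⟨by have := hx.2.2.2.1; omega, (mem_LenSet.1 h1).1⟩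
      · intro i hi j hj hij
        obtain ⟨hi1, hi2⟩ := mem_filter.1 hi
        obtain ⟨hj1, hj2⟩ := mem_filter.1 hj
        obtain ⟨x1, h1⟩ := hex i hi1
        obtain ⟨x2, h2⟩ := hex j hj1
        have hmod : i ≡ j [MOD (m - 1)] := hi2.trans hj2.symm
        obtain ⟨s, hs⟩ := (Nat.modEq_iff_dvd' hij.le).1 hmod
        have hs1 : 1 ≤ s := by
          rcases Nat.eq_zero_or_pos s with h0 | h0
          · rw [h0, mul_zero] at hs; omega
          · exact h0
        obtain ⟨M, rfl⟩ : ∃ M, m = M + 1 := ⟨m - 1, by omega⟩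
        simp only [Nat.add_sub_cancel] at hs hmod ⊢
        have hj : j = i + M * s := by omega
        rw [hj] at h2
        have hgap := arch_gap (by omega) hs1 h1 h2
        have hle := le_two h1
        have hy : 2 ≤ y := h1.1
        simp only [Nat.add_sub_cancel] at hle
        have e1 : y ^ (i - 1) ≤ y ^ (1 + 2 * M + (j - i)) := by
          calc y ^ (i - 1) ≤ 2 * x1 ^ M := hle
            _ ≤ 2 * (3 * y ^ s) ^ M := by gcongr
            _ = 2 * 3 ^ M * y ^ (M * s) := by rw [mul_pow, ← pow_mul, mul_comm s M]; ring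
            _ ≤ 2 * 4 ^ M * y ^ (M * s) := by gcongr; norm_num
            _ = 2 ^ (1 + 2 * M) * y ^ (M * s) := by
                rw [pow_add, pow_mul 2 2 M, pow_one]; norm_num
            _ ≤ y ^ (1 + 2 * M) * y ^ (M * s) := by gcongr
            _ = y ^ (1 + 2 * M + (j - i)) := by rw [← pow_add, hj]; congr 2; omega
        have e2 : i - 1 ≤ 1 + 2 * M + (j - i) := (Nat.pow_le_pow_iff_right (by omega)).1 e1
        omega)
  rwa [card_range] at this

open Classical in
/-- The lengths `3 ≤ n ≤ T` for which the base-`b` repunit is a Goormaghtigh number. -/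
noncomputable def GoorSet (b T : ℕ) : Finset ℕ :=
  (range (T + 1)).filter fun n => 3 ≤ n ∧ N014b56fe.IsGoormaghtighNumber (N014b56fe.repunit b n)

/-- The threshold for `m`. -/
def M0 (b : ℕ) : ℕ := 12 * (Nat.log 2 b + 1) + 20

/-- The largest relevant `m`. -/
def MM (b T : ℕ) : ℕ :=
  2 ^ 10 * (4 * Nat.log 2 T + 31) * (Nat.log 2 b + 1) * (Nat.sqrt (b.minFac * T) + 1) + 1

theorem le_MM {x b m n T : ℕ} (h : Sol x b m n) (hn : n ≤ T) : m ≤ MM b T := by
  have hb : 2 ≤ b := h.1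
  have hm : 3 ≤ m := h.2.2.1
  have hp := Nat.minFac_prime (by omega : b ≠ 1)
  have hgap := length_gap2 hp.two_le (Nat.minFac_dvd b) h
  have hmT : m ≤ T := (lt_len h).le.trans hn
  have hmu : mu2 m + 1 ≤ 4 * Nat.log 2 T + 31 := by
    have := Nat.log_mono_right (b := 2) hmT
    unfold mu2; omega
  set p := b.minFac with hpdef
  set π := Nat.log 2 p with hπ
  have hπ1 : 1 ≤ π := Nat.log_pos (by norm_num) hp.two_le
  have hT : p * n ≤ (Nat.sqrt (p * T) + 1) ^ 2 := by
    have := Nat.lt_succ_sqrt (p * T)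
    have h2 : p * n ≤ p * T := Nat.mul_le_mul_left _ hn
    rw [pow_two]; exact h2.trans this.le
  have h0 : π ^ 4 * (m - 1) ^ 2 ≤
      π ^ 4 * (2 ^ 10 * (4 * Nat.log 2 T + 31) * (Nat.log 2 b + 1) * (Nat.sqrt (p * T) + 1)) ^ 2 := by
    calc π ^ 4 * (m - 1) ^ 2 = (m - 1) ^ 2 * π ^ 4 := by ring
      _ ≤ 2 ^ 20 * p * (mu2 m + π) ^ 2 * (Nat.log 2 b + 1) ^ 2 * n := hgap
      _ ≤ 2 ^ 20 * p * (π ^ 2 * (4 * Nat.log 2 T + 31)) ^ 2 * (Nat.log 2 b + 1) ^ 2 * n := by
          have : mu2 m + π ≤ π ^ 2 * (4 * Nat.log 2 T + 31) := by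
            calc mu2 m + π ≤ π * mu2 m + π := by nlinarith
              _ = π ^ 1 * (mu2 m + 1) := by ring
              _ ≤ π ^ 2 * (4 * Nat.log 2 T + 31) := by
                  gcongr
                  norm_num
          gcongr
      _ = π ^ 4 * (2 ^ 20 * (4 * Nat.log 2 T + 31) ^ 2 * (Nat.log 2 b + 1) ^ 2 * (p * n)) := by ring
      _ ≤ π ^ 4 * (2 ^ 20 * (4 * Nat.log 2 T + 31) ^ 2 * (Nat.log 2 b + 1) ^ 2 *
            (Nat.sqrt (p * T) + 1) ^ 2) := by gcongr
      _ = _ := by ring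
  have h1 : (m - 1) ^ 2 ≤
      (2 ^ 10 * (4 * Nat.log 2 T + 31) * (Nat.log 2 b + 1) * (Nat.sqrt (p * T) + 1)) ^ 2 :=
    Nat.le_of_mul_le_mul_left h0 (pow_pos (by omega) 4)
  have h2 := (Nat.pow_le_pow_iff_left (by norm_num)).1 h1
  have h3 : MM b T = 2 ^ 10 * (4 * Nat.log 2 T + 31) * (Nat.log 2 b + 1) *
      (Nat.sqrt (p * T) + 1) + 1 := rfl
  rw [h3]
  omega

/-- The lengths `n ≤ T` coming from a representation in a larger base with at least `M0` digits. -/
noncomputable def BigSet (b T : ℕ) : Finset ℕ :=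
  (Finset.Icc (M0 b) (MM b T)).biUnion fun m => LenSet b m T

theorem card_BigSet_small {b T : ℕ} (hb : 2 ≤ b) :
    (BigSet b T).card ≤ MM b T * (6 * b.minFac * (Nat.log 2 T + 1)) := by
  classical
  unfold BigSet
  calc _ ≤ (Finset.Icc (M0 b) (MM b T)).card * (6 * b.minFac * (Nat.log 2 T + 1)) :=
        card_biUnion_le_card_mul _ _ _ fun m hm => card_large' hb (mem_Icc.1 hm).1
    _ ≤ _ := by
        apply Nat.mul_le_mul_right
        rw [Nat.card_Icc]
        have : 1 ≤ M0 b := by unfold M0; omega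
        omega

theorem BigSet_subset {b T : ℕ} (hb : 2 ≤ b) :
    BigSet b T ⊆ ((Finset.Icc (M0 b) (MM b T)).biUnion fun m => LenSetC b b.minFac m T 0) ∪
      ((b.minFac - 1).divisors.biUnion fun g =>
        ((Finset.Icc 1 (MM b T / g)).filter fun k => M0 b ≤ g * k + 1).biUnion fun k =>
          (Cls b.minFac g).biUnion fun c => LenSetC b b.minFac (g * k + 1) T c) := by
  classical
  intro n hn
  unfold BigSet at hn
  rw [mem_biUnion] at hn
  obtain ⟨m, hm, hn⟩ := hn
  rw [mem_Icc] at hm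
  obtain ⟨hnT, x, hs⟩ := mem_LenSet.1 hn
  have hp := Nat.minFac_prime (by omega : b ≠ 1)
  have hm3 : 3 ≤ m := hs.2.2.1
  rw [mem_union]
  by_cases hpx : b.minFac ∣ x
  · left
    rw [mem_biUnion]
    exact ⟨m, mem_Icc.2 hm, mem_LenSetC.2 ⟨hnT, x, hs, Nat.mod_eq_zero_of_dvd hpx⟩⟩
  · right
    have hc := class_of_sol hp (Nat.minFac_dvd b) hs hpx
    set g := Nat.gcd (m - 1) (b.minFac - 1) with hg
    have hg1 : 0 < g := Nat.gcd_pos_of_pos_left _ (by omega)
    obtain ⟨k, hk⟩ : g ∣ m - 1 := Nat.gcd_dvd_left _ _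
    have hk1 : 1 ≤ k := by
      rcases Nat.eq_zero_or_pos k with h0 | h0
      · rw [h0, mul_zero] at hk; omega
      · exact h0
    have hmk : g * k + 1 = m := by omega
    rw [mem_biUnion]
    refine ⟨g, Nat.mem_divisors.2 ⟨Nat.gcd_dvd_right _ _, by have := hp.two_le; omega⟩, ?_⟩
    rw [mem_biUnion]
    refine ⟨k, ?_, ?_⟩
    · rw [mem_filter, mem_Icc]
      refine ⟨⟨hk1, ?_⟩, by omega⟩
      rw [Nat.le_div_iff_mul_le hg1]
      have : k * g = g * k := mul_comm _ _
      omega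
    · rw [mem_biUnion]
      exact ⟨x % b.minFac, hc, by rw [hmk]; exact mem_LenSetC.2 ⟨hnT, x, hs, rfl⟩⟩

theorem card_BigSet_large {b T : ℕ} (hb : 2 ≤ b) (hp4 : 4 ≤ b.minFac) :
    (BigSet b T).card ≤
      4 * (b.minFac - 1).divisors.card * MM b T * (Nat.log 2 T + 1) := by
  classical
  have hp := Nat.minFac_prime (by omega : b ≠ 1)
  set lT := Nat.log 2 T + 1 with hlT
  have hτ : 1 ≤ (b.minFac - 1).divisors.card := by
    rw [Nat.one_le_iff_ne_zero, Finset.card_ne_zero]
    exact ⟨1, Nat.one_mem_divisors.2 (by omega)⟩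
  calc (BigSet b T).card ≤ _ := card_le_card (BigSet_subset hb)
    _ ≤ _ + _ := card_union_le _ _
    _ ≤ MM b T * (2 * lT) + (b.minFac - 1).divisors.card * (MM b T * (2 * lT)) := by
        apply Nat.add_le_add
        · calc _ ≤ (Finset.Icc (M0 b) (MM b T)).card * (2 * lT) :=
                card_biUnion_le_card_mul _ _ _ fun m hm =>
                  card_class hp hp4 (Nat.minFac_dvd b) (mem_Icc.1 hm).1
            _ ≤ _ := by
                apply Nat.mul_le_mul_right
                rw [Nat.card_Icc]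
                have : 1 ≤ M0 b := by unfold M0; omega
                omega
        · refine card_biUnion_le_card_mul _ _ _ fun g hg => ?_
          have hg1 : 0 < g := Nat.pos_of_mem_divisors hg
          calc _ ≤ ((Finset.Icc 1 (MM b T / g)).filter fun k => M0 b ≤ g * k + 1).card *
                (g * (2 * lT)) := by
                refine card_biUnion_le_card_mul _ _ _ fun k hk => ?_
                calc _ ≤ (Cls b.minFac g).card * (2 * lT) :=
                      card_biUnion_le_card_mul _ _ _ fun c _ =>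
                        card_class hp hp4 (Nat.minFac_dvd b) (mem_filter.1 hk).2
                  _ ≤ g * (2 * lT) := Nat.mul_le_mul_right _ (card_Cls hp hg1)
            _ ≤ (MM b T / g) * (g * (2 * lT)) := by
                apply Nat.mul_le_mul_right
                refine (card_filter_le _ _).trans ?_
                rw [Nat.card_Icc, Nat.add_sub_cancel]
            _ = (MM b T / g * g) * (2 * lT) := by ring
            _ ≤ MM b T * (2 * lT) := Nat.mul_le_mul_right _ (Nat.div_mul_le_self _ _)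
    _ ≤ (b.minFac - 1).divisors.card * (MM b T * (2 * lT)) +
        (b.minFac - 1).divisors.card * (MM b T * (2 * lT)) := by
        apply Nat.add_le_add_right
        exact Nat.le_mul_of_pos_left _ hτ
    _ = _ := by ring

theorem card_BigSet {b T : ℕ} (hb : 2 ≤ b) :
    (BigSet b T).card ≤
      18 * (b.minFac - 1).divisors.card * MM b T * (Nat.log 2 T + 1) := by
  have hp := Nat.minFac_prime (by omega : b ≠ 1)
  have hτ : 1 ≤ (b.minFac - 1).divisors.card := by
    rw [Nat.one_le_iff_ne_zero, Finset.card_ne_zero]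
    exact ⟨1, Nat.one_mem_divisors.2 (by have := hp.two_le; omega)⟩
  by_cases hp4 : 4 ≤ b.minFac
  · refine (card_BigSet_large hb hp4).trans ?_
    gcongr
    norm_num
  · refine (card_BigSet_small hb).trans ?_
    calc MM b T * (6 * b.minFac * (Nat.log 2 T + 1)) ≤ MM b T * (6 * 3 * (Nat.log 2 T + 1)) := by
          gcongr; omega
      _ = 18 * 1 * MM b T * (Nat.log 2 T + 1) := by ring
      _ ≤ _ := by gcongr

theorem GoorSet_subset {b T : ℕ} (hb : 2 ≤ b) :
    GoorSet b T ⊆ range (2 ^ 37 * b.minFac * (Nat.log 2 b + 1) ^ 3) ∪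
      (((Finset.Icc 3 (M0 b)).biUnion fun m => LenSet b m T) ∪ BigSet b T) := by
  classical
  intro n hn
  unfold GoorSet at hn
  rw [mem_filter, mem_range] at hn
  obtain ⟨hnT, hn3, b1, b2, d1, d2, hb1, hb2, hne, hd1, hd2, h1, h2⟩ := hn
  have hcd : ∃ c d, 2 ≤ c ∧ c ≠ b ∧ 3 ≤ d ∧ N014b56fe.repunit c d = N014b56fe.repunit b n := by
    by_cases h : b1 = b
    · exact ⟨b2, d2, hb2, fun h' => hne (h.trans h'.symm), hd2, h2⟩
    · exact ⟨b1, d1, hb1, h, hd1, h1⟩
  obtain ⟨c, d, hc, hcb, hd, he⟩ := hcd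
  unfold N014b56fe.repunit at he
  rw [mem_union, mem_union]
  rcases lt_or_gt_of_ne hcb with hlt | hgt
  · left
    have hs : Sol b c n d := ⟨hc, hlt, hn3, hd, he.symm⟩
    rw [mem_range]
    exact upper_len (Nat.minFac_prime (by omega : b ≠ 1)).two_le (Nat.minFac_dvd b) hs
  · right
    have hs : Sol c b d n := ⟨hb, hgt, hd, hn3, he⟩
    by_cases hdM : d ≤ M0 b
    · left
      rw [mem_biUnion]
      exact ⟨d, mem_Icc.2 ⟨hd, hdM⟩, mem_LenSet.2 ⟨by omega, c, hs⟩⟩
    · right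
      unfold BigSet
      rw [mem_biUnion]
      exact ⟨d, mem_Icc.2 ⟨by omega, le_MM hs (by omega)⟩, mem_LenSet.2 ⟨by omega, c, hs⟩⟩

theorem card_GoorSet {b T : ℕ} (hb : 2 ≤ b) :
    (GoorSet b T).card ≤ 2 ^ 37 * b.minFac * (Nat.log 2 b + 1) ^ 3 +
      (M0 b * ((2 * (2 * M0 b + 2) + 2 * (Nat.log 2 T + 1)) * M0 b) +
        18 * (b.minFac - 1).divisors.card * MM b T * (Nat.log 2 T + 1)) := by
  classical
  calc (GoorSet b T).card ≤ _ := card_le_card (GoorSet_subset hb)
    _ ≤ (range (2 ^ 37 * b.minFac * (Nat.log 2 b + 1) ^ 3)).card +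
        (((Finset.Icc 3 (M0 b)).biUnion fun m => LenSet b m T) ∪ BigSet b T).card :=
        card_union_le _ _
    _ ≤ (range (2 ^ 37 * b.minFac * (Nat.log 2 b + 1) ^ 3)).card +
        (((Finset.Icc 3 (M0 b)).biUnion fun m => LenSet b m T).card + (BigSet b T).card) :=
        Nat.add_le_add_left (card_union_le _ _) _
    _ ≤ _ := by
        apply Nat.add_le_add
        · rw [card_range]
        · apply Nat.add_le_add
          · calc _ ≤ (Finset.Icc 3 (M0 b)).card *
                  ((2 * (2 * M0 b + 2) + 2 * (Nat.log 2 T + 1)) * M0 b) :=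
                  card_biUnion_le_card_mul _ _ _ fun m hm => by
                    have h1 := (mem_Icc.1 hm).2
                    refine (card_small (mem_Icc.1 hm).1).trans ?_
                    have h2 : m - 1 ≤ M0 b := by omega
                    gcongr
              _ ≤ _ := by
                  apply Nat.mul_le_mul_right
                  rw [Nat.card_Icc]; omega
          · exact card_BigSet hb

theorem small_le {b l : ℕ} (hb : 2 ≤ b) (hl : 1 ≤ l) :
    M0 b * ((2 * (2 * M0 b + 2) + 2 * l) * M0 b) ≤ 44528 * (Nat.log 2 b + 1) ^ 3 * l := by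
  set k := Nat.log 2 b + 1 with hk
  have hk2 : 2 ≤ k := by
    have : 1 ≤ Nat.log 2 b := Nat.log_pos (by norm_num) hb
    omega
  have hM : M0 b ≤ 22 * k := by unfold M0; omega
  calc M0 b * ((2 * (2 * M0 b + 2) + 2 * l) * M0 b)
      ≤ (22 * k) * ((2 * (2 * (22 * k) + 2) + 2 * l) * (22 * k)) := by gcongr
    _ = 484 * k ^ 2 * (88 * k + 4 + 2 * l) := by ring
    _ ≤ 484 * k ^ 2 * (92 * k * l) := by
        apply Nat.mul_le_mul_left
        have h1 : k ≤ k * l := Nat.le_mul_of_pos_right _ hl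
        have h2 : 2 * l ≤ k * l := Nat.mul_le_mul_right _ hk2
        have h3 : 92 * k * l = 92 * (k * l) := by ring
        omega
    _ = 44528 * k ^ 3 * l := by ring

theorem card_GoorSet' {b T : ℕ} (hb : 2 ≤ b) :
    (GoorSet b T).card ≤
      571410 * (b.minFac - 1).divisors.card * (Nat.log 2 b + 1) * (Nat.log 2 T + 1) ^ 2 *
        (Nat.sqrt (b.minFac * T) + 1) +
      (2 ^ 37 + 22264) * b.minFac * (Nat.log 2 b + 1) ^ 3 * (Nat.log 2 T + 1) := by
  have h1 := card_GoorSet (T := T) hb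
  have h2 := small_le (l := Nat.log 2 T + 1) hb (by omega)
  have hp := Nat.minFac_prime (by omega : b ≠ 1)
  have hp2 := hp.two_le
  have h3 : MM b T ≤ 31745 * (Nat.log 2 T + 1) * (Nat.log 2 b + 1) *
      (Nat.sqrt (b.minFac * T) + 1) := by
    unfold MM
    have h4 : 1 ≤ (Nat.log 2 T + 1) * (Nat.log 2 b + 1) * (Nat.sqrt (b.minFac * T) + 1) :=
      Nat.mul_pos (Nat.mul_pos (by omega) (by omega)) (by omega)
    calc 2 ^ 10 * (4 * Nat.log 2 T + 31) * (Nat.log 2 b + 1) * (Nat.sqrt (b.minFac * T) + 1) + 1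
        ≤ 2 ^ 10 * (31 * (Nat.log 2 T + 1)) * (Nat.log 2 b + 1) * (Nat.sqrt (b.minFac * T) + 1) +
          (Nat.log 2 T + 1) * (Nat.log 2 b + 1) * (Nat.sqrt (b.minFac * T) + 1) := by
          gcongr
          omega
      _ = _ := by ring
  set l := Nat.log 2 T + 1 with hl
  set k := Nat.log 2 b + 1 with hk
  have hl1 : 1 ≤ l := by omega
  calc (GoorSet b T).card ≤ _ := h1
    _ ≤ 2 ^ 37 * b.minFac * k ^ 3 * l + (22264 * b.minFac * k ^ 3 * l +
        18 * (b.minFac - 1).divisors.card * (31745 * l * k * (Nat.sqrt (b.minFac * T) + 1)) * l) := by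
        apply Nat.add_le_add
        · exact Nat.le_mul_of_pos_right _ hl1
        · apply Nat.add_le_add
          · refine h2.trans ?_
            calc 44528 * k ^ 3 * l = 22264 * 2 * k ^ 3 * l := by ring
              _ ≤ 22264 * b.minFac * k ^ 3 * l := by gcongr
          · gcongr
    _ = _ := by ring

theorem lg_le_three {z : ℕ} (hz : 2 ≤ z) : ((Nat.log 2 z + 1 : ℕ) : ℝ) ≤ 3 * Real.log z := by
  have hzr : (2 : ℝ) ≤ z := by exact_mod_cast hz
  have hlog2 : (0.6931471803 : ℝ) < Real.log 2 := Real.log_two_gt_d9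
  have hlogT : Real.log 2 ≤ Real.log z := Real.log_le_log (by norm_num) hzr
  have h2 := real_lg_le (z := z) (by omega)
  push_cast
  nlinarith

theorem main_count {b T : ℕ} (hb : 2 ≤ b) (hT : 2 ≤ T) :
    ((GoorSet b T).card : ℝ) ≤
      4 * 10 ^ 7 * ((b.minFac - 1).divisors.card : ℝ) * Real.sqrt (b.minFac * T) * Real.log b *
        Real.log T ^ 2 + 12 * 10 ^ 12 * b.minFac * Real.log b ^ 3 * Real.log T := by
  have h1 := card_GoorSet' (T := T) hb
  have hTr : (2 : ℝ) ≤ T := by exact_mod_cast hT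
  have hl := lg_le_three hT
  have hlb := lg_le_three hb
  have hp := Nat.minFac_prime (by omega : b ≠ 1)
  set p := b.minFac with hpdef
  set τ := (p - 1).divisors.card with hτ
  have hpr : (2 : ℝ) ≤ p := by exact_mod_cast hp.two_le
  have hs : ((Nat.sqrt (p * T) + 1 : ℕ) : ℝ) ≤ 2 * Real.sqrt (p * T) := by
    have h2 : ((Nat.sqrt (p * T) : ℕ) : ℝ) ≤ Real.sqrt ((p * T : ℕ) : ℝ) :=
      Real.nat_sqrt_le_real_sqrt
    have h3 : (1 : ℝ) ≤ Real.sqrt (p * T) := by
      rw [Real.one_le_sqrt]; nlinarith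
    push_cast at h2 ⊢; linarith
  have hlT0 : 0 ≤ Real.log T := Real.log_nonneg (by linarith)
  have hlb0 : 0 ≤ Real.log b := Real.log_nonneg (by exact_mod_cast (by omega : 1 ≤ b))
  have h1' : ((GoorSet b T).card : ℝ) ≤
      571410 * (τ : ℝ) * ((Nat.log 2 b + 1 : ℕ) : ℝ) * ((Nat.log 2 T + 1 : ℕ) : ℝ) ^ 2 *
        ((Nat.sqrt (p * T) + 1 : ℕ) : ℝ) +
      (2 ^ 37 + 22264) * p * ((Nat.log 2 b + 1 : ℕ) : ℝ) ^ 3 * ((Nat.log 2 T + 1 : ℕ) : ℝ) := by
    exact_mod_cast h1
  calc ((GoorSet b T).card : ℝ) ≤ _ := h1'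
    _ ≤ 571410 * (τ : ℝ) * (3 * Real.log b) * (3 * Real.log T) ^ 2 * (2 * Real.sqrt (p * T)) +
      (2 ^ 37 + 22264) * p * (3 * Real.log b) ^ 3 * (3 * Real.log T) := by gcongr
    _ = 30856140 * (τ * Real.sqrt (p * T) * Real.log b * Real.log T ^ 2) +
        (81 * (2 ^ 37 + 22264)) * (p * Real.log b ^ 3 * Real.log T) := by ring
    _ ≤ 4 * 10 ^ 7 * (τ * Real.sqrt (p * T) * Real.log b * Real.log T ^ 2) +
        12 * 10 ^ 12 * (p * Real.log b ^ 3 * Real.log T) := by
        apply add_le_add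
        · apply mul_le_mul_of_nonneg_right (by norm_num) (by positivity)
        · apply mul_le_mul_of_nonneg_right (by norm_num) (by positivity)
    _ = _ := by ring

end Pool.Agent.MP_88e4f4_nt.GB
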