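import Pool.Agent.MP_88e4f4_nt.GApply2

set_option autoImplicit false

namespace Pool.Agent.MP_88e4f4_nt.GB

open Finset

/-- The parameters. -/
def mu2 (m : ℕ) : ℕ := 4 * Nat.log 2 m + 30

def kap (P x : ℕ) : ℕ := 32 * ((Nat.log 2 x + 1) / Nat.log 2 P + 1)

def LL (P m : ℕ) : ℕ := 8 * (mu2 m / Nat.log 2 P + 1)

theorem kap_pos {P x : ℕ} : 1 ≤ kap P x := Nat.mul_pos (by norm_num) (Nat.succ_pos _)

theorem LL_pos {P m : ℕ} : 1 ≤ LL P m := Nat.mul_pos (by norm_num) (Nat.succ_pos _)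

theorem mu2_bound {m : ℕ} : 2 ^ 26 * m ^ 4 ≤ 2 ^ mu2 m := by
  have h1 : m ≤ 2 * 2 ^ Nat.log 2 m := by
    have := (lt_two_pow_lg m).le; rw [pow_succ] at this; linarith
  have h2 : m ^ 4 ≤ (2 * 2 ^ Nat.log 2 m) ^ 4 := Nat.pow_le_pow_left h1 4
  have h3 : 2 ^ mu2 m = 2 ^ 30 * (2 ^ Nat.log 2 m) ^ 4 := by
    unfold mu2
    rw [pow_add, mul_comm (4 : ℕ), pow_mul, mul_comm]
  rw [h3]
  calc 2 ^ 26 * m ^ 4 ≤ 2 ^ 26 * (2 * 2 ^ Nat.log 2 m) ^ 4 := Nat.mul_le_mul_left _ h2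
    _ = 2 ^ 30 * (2 ^ Nat.log 2 m) ^ 4 := by ring

/-- Main alternative. -/
theorem main2 {P x y m n : ℕ} (hP2 : 2 ≤ P) (hPy : P ∣ y) (h : Sol x y m n) :
    m < Nat.log 2 x + 1 ∨ ∃ o, 1 ≤ o ∧ o < P ∧
      (m < o * (kap P x * LL P m) ∨ n < o * (kap P x * LL P m) ^ 2) := by
  have hm : 3 ≤ m := h.2.2.1
  by_cases hlam : m < Nat.log 2 x + 1
  · exact Or.inl hlam
  push Not at hlam
  right
  have hco : Nat.Coprime P x := by
    by_contra hnc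
    obtain ⟨p, hp, hpP, hpx⟩ := Nat.Prime.not_coprime_iff_dvd.1 hnc
    have := big_of_dvd hp (hpP.trans hPy) h hpx
    omega
  obtain ⟨o, ho1, hoP, hom, ho⟩ := lf_apply2 hP2 hPy h hco (mu2 m) (by unfold mu2; omega)
  refine ⟨o, ho1, hoP, ?_⟩
  have hπ1 : 1 ≤ Nat.log 2 P := Nat.log_pos (by norm_num) hP2
  have hk1 : kap P x ≤ 64 * m := by
    unfold kap
    have : (Nat.log 2 x + 1) / Nat.log 2 P ≤ Nat.log 2 x + 1 := Nat.div_le_self _ _
    omega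
  have hk0 : 1 ≤ kap P x := kap_pos
  have hL1 : LL P m ≤ 280 * m := by
    unfold LL
    have h1 : mu2 m / Nat.log 2 P ≤ mu2 m := Nat.div_le_self _ _
    have h2 : Nat.log 2 m ≤ m := Nat.log_le_self 2 m
    have h3 : mu2 m ≤ 4 * m + 30 := by unfold mu2; omega
    omega
  have hL0 : 1 ≤ LL P m := LL_pos
  have hom' : o ≤ m := (Nat.le_of_dvd (by omega) hom).trans (Nat.sub_le _ _)
  have hkL : 1 ≤ kap P x * LL P m := Nat.mul_pos hk0 hL0
  apply ho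
  set κ := kap P x with hκ
  set L := LL P m with hL
  have hbig : L + κ * L + o + o * (κ * L) * m ≤ 4 * (o * (κ * L) * m) := by
    have a1 : L ≤ o * (κ * L) * m := by
      calc L = 1 * (1 * L) * 1 := by ring
        _ ≤ o * (κ * L) * m := by gcongr; omega
    have a2 : κ * L ≤ o * (κ * L) * m := by
      calc κ * L = 1 * (κ * L) * 1 := by ring
        _ ≤ o * (κ * L) * m := by gcongr; omega
    have a3 : o ≤ o * (κ * L) * m := by
      calc o = o * 1 * 1 := by ring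
        _ ≤ o * (κ * L) * m := by gcongr; omega
    omega
  calc L + κ * L + o + o * (κ * L) * m ≤ 4 * (o * (κ * L) * m) := hbig
    _ ≤ 4 * (m * ((64 * m) * (280 * m)) * m) := by gcongr
    _ = 71680 * m ^ 4 := by ring
    _ ≤ 2 ^ 26 * m ^ 4 := by gcongr; norm_num
    _ ≤ 2 ^ mu2 m := mu2_bound

theorem kap_mul_le {P x : ℕ} : kap P x * Nat.log 2 P ≤ 32 * (Nat.log 2 x + 1 + Nat.log 2 P) := by
  unfold kap
  have := Nat.div_mul_le_self (Nat.log 2 x + 1) (Nat.log 2 P)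
  calc 32 * ((Nat.log 2 x + 1) / Nat.log 2 P + 1) * Nat.log 2 P
      = 32 * ((Nat.log 2 x + 1) / Nat.log 2 P * Nat.log 2 P + Nat.log 2 P) := by ring
    _ ≤ 32 * (Nat.log 2 x + 1 + Nat.log 2 P) := by omega

theorem LL_mul_le {P m : ℕ} : LL P m * Nat.log 2 P ≤ 8 * (mu2 m + Nat.log 2 P) := by
  unfold LL
  have := Nat.div_mul_le_self (mu2 m) (Nat.log 2 P)
  calc 8 * (mu2 m / Nat.log 2 P + 1) * Nat.log 2 P
      = 8 * (mu2 m / Nat.log 2 P * Nat.log 2 P + Nat.log 2 P) := by ring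
    _ ≤ 8 * (mu2 m + Nat.log 2 P) := by omega

/-- Length gap, integer form. -/
theorem length_gap2 {P x y m n : ℕ} (hP2 : 2 ≤ P) (hPy : P ∣ y) (h : Sol x y m n) :
    (m - 1) ^ 2 * Nat.log 2 P ^ 4 ≤
      2 ^ 20 * P * (mu2 m + Nat.log 2 P) ^ 2 * (Nat.log 2 y + 1) ^ 2 * n := by
  have hlm := lam_mul_lt h
  have hlt := lt_len h
  obtain ⟨hy, hxy, hm, hn, he⟩ := id h
  set lam := Nat.log 2 x + 1 with hlam
  set ly := Nat.log 2 y with hly
  set π := Nat.log 2 P with hπ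
  have hPle : P ≤ y := Nat.le_of_dvd (by omega) hPy
  have hπ1 : 1 ≤ π := Nat.log_pos (by norm_num) hP2
  have hπly : π ≤ ly := Nat.log_mono_right hPle
  have hlylam : ly < lam := Nat.lt_succ_of_le (Nat.log_mono_right hxy.le)
  have hπP : π ≤ P := Nat.log_le_self 2 P
  have hLπ := LL_mul_le (P := P) (m := m)
  have hkπ := kap_mul_le (P := P) (x := x)
  rw [← hπ] at hLπ hkπ
  rw [← hlam] at hkπ
  have hkπ' : kap P x * π ≤ 64 * lam := by omega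
  have hL0 : 1 ≤ LL P m := LL_pos
  set L := LL P m with hL
  set κ := kap P x with hκ
  -- first bound with `L`
  have key : (m - 1) ^ 2 * π ^ 2 ≤ 2 ^ 14 * P * L ^ 2 * (ly + 1) ^ 2 * n := by
    rcases main2 hP2 hPy h with hA | ⟨o, ho1, hoP, hB | hC⟩
    · calc (m - 1) ^ 2 * π ^ 2 = (m - 1) * (m - 1) * (π * π) := by ring
        _ ≤ lam * (m - 1) * (P * (ly + 1)) := by gcongr <;> omega
        _ ≤ (2 * (ly + 1) * n) * (P * (ly + 1)) := Nat.mul_le_mul_right _ hlm.le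
        _ = 2 * P * 1 ^ 2 * (ly + 1) ^ 2 * n := by ring
        _ ≤ 2 ^ 14 * P * L ^ 2 * (ly + 1) ^ 2 * n := by gcongr; norm_num
    · have h1 : m * π ≤ o * 64 * lam * L := by
        calc m * π ≤ (o * (κ * L)) * π := Nat.mul_le_mul_right _ hB.le
          _ = o * (κ * π) * L := by ring
          _ ≤ o * (64 * lam) * L := by gcongr
          _ = o * 64 * lam * L := by ring
      calc (m - 1) ^ 2 * π ^ 2 = ((m - 1) * π) * (m - 1) * π := by ring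
        _ ≤ (m * π) * (m - 1) * (ly + 1) := by gcongr <;> omega
        _ ≤ (o * 64 * lam * L) * (m - 1) * (ly + 1) := by gcongr
        _ = (lam * (m - 1)) * (o * 64 * L * (ly + 1)) := by ring
        _ ≤ (2 * (ly + 1) * n) * (o * 64 * L * (ly + 1)) := Nat.mul_le_mul_right _ hlm.le
        _ = 128 * o * L ^ 1 * (ly + 1) ^ 2 * n := by ring
        _ ≤ 2 ^ 14 * P * L ^ 2 * (ly + 1) ^ 2 * n := by
            gcongr
            · norm_num
            · norm_num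
    · have hn0 : 0 < n := by omega
      have h1 : n * π ^ 2 ≤ o * (64 * lam * L) ^ 2 := by
        calc n * π ^ 2 ≤ (o * (κ * L) ^ 2) * π ^ 2 := Nat.mul_le_mul_right _ hC.le
          _ = o * ((κ * π) * L) ^ 2 := by ring
          _ ≤ o * (64 * lam * L) ^ 2 := by gcongr
      have h2 : n * ((m - 1) ^ 2 * π ^ 2) ≤ n * (2 ^ 14 * P * L ^ 2 * (ly + 1) ^ 2 * n) := by
        calc n * ((m - 1) ^ 2 * π ^ 2) = (n * π ^ 2) * (m - 1) ^ 2 := by ring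
          _ ≤ (o * (64 * lam * L) ^ 2) * (m - 1) ^ 2 := Nat.mul_le_mul_right _ h1
          _ = (lam * (m - 1)) ^ 2 * (o * (64 * L) ^ 2) := by ring
          _ ≤ (2 * (ly + 1) * n) ^ 2 * (P * (64 * L) ^ 2) := by gcongr
          _ = n * (2 ^ 14 * P * L ^ 2 * (ly + 1) ^ 2 * n) := by ring
      exact Nat.le_of_mul_le_mul_left h2 hn0
  calc (m - 1) ^ 2 * π ^ 4 = ((m - 1) ^ 2 * π ^ 2) * π ^ 2 := by ring
    _ ≤ (2 ^ 14 * P * L ^ 2 * (ly + 1) ^ 2 * n) * π ^ 2 := Nat.mul_le_mul_right _ key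
    _ = 2 ^ 14 * P * (L * π) ^ 2 * (ly + 1) ^ 2 * n := by ring
    _ ≤ 2 ^ 14 * P * (8 * (mu2 m + π)) ^ 2 * (ly + 1) ^ 2 * n := by gcongr
    _ = 2 ^ 20 * P * (mu2 m + π) ^ 2 * (ly + 1) ^ 2 * n := by ring

theorem real_lg_le {z : ℕ} (hz : 1 ≤ z) : (Nat.log 2 z : ℝ) * Real.log 2 ≤ Real.log z := by
  rw [← Real.log_pow]
  apply Real.log_le_log (by positivity)
  exact_mod_cast Nat.pow_log_le_self 2 (by omega)

theorem real_lg_ge {z : ℕ} (hz : 2 ≤ z) : Real.log z ≤ 2 * (Nat.log 2 z : ℝ) * Real.log 2 := by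
  have h1 : 1 ≤ Nat.log 2 z := Nat.log_pos (by norm_num) hz
  have h2 : Real.log z ≤ ((Nat.log 2 z + 1 : ℕ) : ℝ) * Real.log 2 := by
    rw [← Real.log_pow]
    apply Real.log_le_log (by positivity)
    exact_mod_cast (lt_two_pow_lg z).le
  have h3 : ((Nat.log 2 z + 1 : ℕ) : ℝ) ≤ 2 * (Nat.log 2 z : ℝ) := by
    have : (1 : ℝ) ≤ (Nat.log 2 z : ℝ) := by exact_mod_cast h1
    push_cast; linarith
  calc Real.log z ≤ _ := h2
    _ ≤ 2 * (Nat.log 2 z : ℝ) * Real.log 2 := by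
        apply mul_le_mul_of_nonneg_right h3 (Real.log_nonneg (by norm_num))

/-- Length gap, real form. -/
theorem length_gap_real {P x y m n : ℕ} (hP2 : 2 ≤ P) (hPy : P ∣ y) (h : Sol x y m n) :
    (m : ℝ) ^ 2 * Real.log P ^ 4 ≤
      4 * 10 ^ 11 * P * Real.log y ^ 2 * (Real.log m + Real.log P) ^ 2 * n := by
  have hN := length_gap2 hP2 hPy h
  obtain ⟨hy, hxy, hm, hn, he⟩ := h
  set π := Nat.log 2 P with hπ
  set ly := Nat.log 2 y with hly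
  set lm := Nat.log 2 m with hlm
  have hπ1 : 1 ≤ π := Nat.log_pos (by norm_num) hP2
  have hly1 : 1 ≤ ly := Nat.log_pos (by norm_num) hy
  have hlm1 : 1 ≤ lm := Nat.log_pos (by norm_num) (by omega)
  have hN2 : m ^ 2 * π ^ 4 ≤ 2 ^ 22 * 1156 * 4 * P * (lm + π) ^ 2 * ly ^ 2 * n := by
    have a1 : m ^ 2 ≤ 4 * (m - 1) ^ 2 := by
      have : m ≤ 2 * (m - 1) := by omega
      calc m ^ 2 ≤ (2 * (m - 1)) ^ 2 := Nat.pow_le_pow_left this 2
        _ = _ := by ring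
    have a2 : mu2 m + π ≤ 34 * (lm + π) := by unfold mu2; omega
    calc m ^ 2 * π ^ 4 ≤ 4 * (m - 1) ^ 2 * π ^ 4 := Nat.mul_le_mul_right _ a1
      _ = 4 * ((m - 1) ^ 2 * π ^ 4) := by ring
      _ ≤ 4 * (2 ^ 20 * P * (mu2 m + π) ^ 2 * (ly + 1) ^ 2 * n) := Nat.mul_le_mul_left _ hN
      _ ≤ 4 * (2 ^ 20 * P * (34 * (lm + π)) ^ 2 * (2 * ly) ^ 2 * n) := by gcongr; omega
      _ = 2 ^ 22 * 1156 * 4 * P * (lm + π) ^ 2 * ly ^ 2 * n := by ring
  have hR : (m : ℝ) ^ 2 * (π : ℝ) ^ 4 ≤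
      2 ^ 22 * 1156 * 4 * P * ((lm : ℝ) + π) ^ 2 * (ly : ℝ) ^ 2 * n := by exact_mod_cast hN2
  have hl2 : 0 < Real.log 2 := Real.log_pos (by norm_num)
  have b1 := real_lg_ge hP2
  have b2 := real_lg_le (z := P) (by omega)
  have b3 := real_lg_le (z := m) (by omega)
  have b4 := real_lg_le (z := y) (by omega)
  rw [← hπ] at b1 b2
  rw [← hlm] at b3
  rw [← hly] at b4
  have hlP : 0 ≤ Real.log P := Real.log_nonneg (by exact_mod_cast (by omega : 1 ≤ P))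
  calc (m : ℝ) ^ 2 * Real.log P ^ 4 ≤ (m : ℝ) ^ 2 * (2 * (π : ℝ) * Real.log 2) ^ 4 := by gcongr
    _ = ((m : ℝ) ^ 2 * (π : ℝ) ^ 4) * (2 * Real.log 2) ^ 4 := by ring
    _ ≤ (2 ^ 22 * 1156 * 4 * P * ((lm : ℝ) + π) ^ 2 * (ly : ℝ) ^ 2 * n) * (2 * Real.log 2) ^ 4 :=
        mul_le_mul_of_nonneg_right hR (by positivity)
    _ = 2 ^ 26 * 1156 * 4 * P * ((lm : ℝ) * Real.log 2 + π * Real.log 2) ^ 2 *
        ((ly : ℝ) * Real.log 2) ^ 2 * n := by ring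
    _ ≤ 2 ^ 26 * 1156 * 4 * P * (Real.log m + Real.log P) ^ 2 * (Real.log y) ^ 2 * n := by gcongr
    _ = 310311387136 * (P * Real.log y ^ 2 * (Real.log m + Real.log P) ^ 2 * n) := by ring
    _ ≤ 4 * 10 ^ 11 * (P * Real.log y ^ 2 * (Real.log m + Real.log P) ^ 2 * n) := by
        apply mul_le_mul_of_nonneg_right (by norm_num) (by positivity)
    _ = _ := by ring

end Pool.Agent.MP_88e4f4_nt.GB
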