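import Pool.Agent.MP_88e4f4_nt.GApply3
import Pool.Agent.MP_88e4f4_nt.GFinal2

set_option autoImplicit false

namespace Pool.Agent.MP_88e4f4_nt.GB

open Finset

/-- Main alternative for a divisor of the larger base. -/
theorem main3 {P x y m n : ℕ} (hP2 : 2 ≤ P) (hPx : P ∣ x) (h : Sol x y m n) :
    m < Nat.log 2 x + 1 ∨ m < P * (kap P x * LL P n) ^ 2 := by
  have hm : 3 ≤ m := h.2.2.1
  have hmn := lt_len h
  by_cases hlam : m < Nat.log 2 x + 1
  · exact Or.inl hlam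
  push Not at hlam
  right
  have hco : Nat.Coprime P y := by
    by_contra hnc
    obtain ⟨p, hp, hpP, hpy⟩ := Nat.Prime.not_coprime_iff_dvd.1 hnc
    have := big_of_dvd hp hpy h (hpP.trans hPx)
    omega
  obtain ⟨o, ho1, hoP, hom, ho⟩ := lf_apply3 hP2 hPx h hco (mu2 n) (by unfold mu2; omega)
  have hk1 : kap P x ≤ 64 * n := by
    unfold kap
    have : (Nat.log 2 x + 1) / Nat.log 2 P ≤ Nat.log 2 x + 1 := Nat.div_le_self _ _
    omega
  have hk0 : 1 ≤ kap P x := kap_pos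
  have hL1 : LL P n ≤ 280 * n := by
    unfold LL
    have h1 : mu2 n / Nat.log 2 P ≤ mu2 n := Nat.div_le_self _ _
    have h2 : Nat.log 2 n ≤ n := Nat.log_le_self 2 n
    have h3 : mu2 n ≤ 4 * n + 30 := by unfold mu2; omega
    omega
  have hL0 : 1 ≤ LL P n := LL_pos
  have hom' : o ≤ n := (Nat.le_of_dvd (by omega) hom).trans (Nat.sub_le _ _)
  have hkL : 1 ≤ kap P x * LL P n := Nat.mul_pos hk0 hL0
  have hsize : LL P n + kap P x * LL P n + o + o * (kap P x * LL P n) * n ≤ 2 ^ mu2 n := by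
    set κ := kap P x with hκ
    set L := LL P n with hL
    have hbig : L + κ * L + o + o * (κ * L) * n ≤ 4 * (o * (κ * L) * n) := by
      have a1 : L ≤ o * (κ * L) * n := by
        calc L = 1 * (1 * L) * 1 := by ring
          _ ≤ o * (κ * L) * n := by gcongr; omega
      have a2 : κ * L ≤ o * (κ * L) * n := by
        calc κ * L = 1 * (κ * L) * 1 := by ring
          _ ≤ o * (κ * L) * n := by gcongr; omega
      have a3 : o ≤ o * (κ * L) * n := by
        calc o = o * 1 * 1 := by ring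
          _ ≤ o * (κ * L) * n := by gcongr; omega
      omega
    calc L + κ * L + o + o * (κ * L) * n ≤ 4 * (o * (κ * L) * n) := hbig
      _ ≤ 4 * (n * ((64 * n) * (280 * n)) * n) := by gcongr
      _ = 71680 * n ^ 4 := by ring
      _ ≤ 2 ^ 26 * n ^ 4 := by gcongr; norm_num
      _ ≤ 2 ^ mu2 n := mu2_bound
  have hle : o * (kap P x * LL P n) ^ 2 ≤ P * (kap P x * LL P n) ^ 2 :=
    Nat.mul_le_mul_right _ hoP.le
  rcases ho hsize with h1 | h1
  · calc m < n := hmn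
      _ < o * (kap P x * LL P n) := h1
      _ = o * (kap P x * LL P n) * 1 := by ring
      _ ≤ o * (kap P x * LL P n) * (kap P x * LL P n) := Nat.mul_le_mul_left _ hkL
      _ = o * (kap P x * LL P n) ^ 2 := by ring
      _ ≤ _ := hle
  · exact lt_of_lt_of_le h1 hle

/-- `n ≤ λ m`. -/
theorem len_le {x y m n : ℕ} (h : Sol x y m n) : n ≤ (Nat.log 2 x + 1) * m := by
  have h1 := le_two h
  obtain ⟨hy, hxy, hm, hn, he⟩ := h
  set lam := Nat.log 2 x + 1 with hlam
  have hlam2 : 2 ≤ lam := by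
    have : 1 ≤ Nat.log 2 x := Nat.log_pos (by norm_num) (by omega)
    omega
  have h2 : 2 ^ (n - 1) ≤ 2 ^ (1 + lam * (m - 1)) := by
    calc 2 ^ (n - 1) ≤ y ^ (n - 1) := Nat.pow_le_pow_left hy _
      _ ≤ 2 * x ^ (m - 1) := h1
      _ ≤ 2 * (2 ^ lam) ^ (m - 1) := by
          gcongr
          exact (lt_two_pow_lg x).le
      _ = 2 ^ (1 + lam * (m - 1)) := by rw [← pow_mul, pow_add, pow_one]
  have h3 : n - 1 ≤ 1 + lam * (m - 1) := (Nat.pow_le_pow_iff_right (by norm_num)).1 h2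
  have h4 : lam * m = lam * (m - 1) + lam := by
    obtain ⟨k, rfl⟩ : ∃ k, m = k + 1 := ⟨m - 1, by omega⟩
    rw [Nat.add_sub_cancel]; ring
  omega

theorem lin_sq (s : ℕ) : (187 + 16 * s) ^ 2 ≤ 2 ^ (16 + s) := by
  induction s with
  | zero => norm_num
  | succ s ih =>
    calc (187 + 16 * (s + 1)) ^ 2 ≤ 2 * (187 + 16 * s) ^ 2 := by nlinarith [Nat.zero_le s]
      _ ≤ 2 * 2 ^ (16 + s) := Nat.mul_le_mul_left _ ih
      _ = 2 ^ (16 + (s + 1)) := by rw [← add_assoc, pow_succ]; ring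

/-- In a solution the number of digits in the larger base is small compared to that base: for every
divisor `P ≥ 2` of the larger base `x`, `m < 2 ^ 37 * P * (log_2 x + 1) ^ 3`. -/
theorem upper_len {P x y m n : ℕ} (hP2 : 2 ≤ P) (hPx : P ∣ x) (h : Sol x y m n) :
    m < 2 ^ 37 * P * (Nat.log 2 x + 1) ^ 3 := by
  have hmain := main3 hP2 hPx h
  have hlen := len_le h
  obtain ⟨hy, hxy, hm, hn, he⟩ := h
  set lam := Nat.log 2 x + 1 with hlam
  have hlam1 : 1 ≤ lam := by omega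
  rcases hmain with h1 | h1
  · calc m < lam := h1
      _ = 1 * 1 * lam ^ 1 := by ring
      _ ≤ 2 ^ 37 * P * lam ^ 3 := by
          gcongr
          · norm_num
          · omega
          · norm_num
  by_contra hcon
  push Not at hcon
  set a := Nat.log 2 m with ha
  set l := Nat.log 2 lam with hl
  set π := Nat.log 2 P with hπ
  have hπ1 : 1 ≤ π := Nat.log_pos (by norm_num) hP2
  have hPπ : 2 ^ π ≤ P := Nat.pow_log_le_self 2 (by omega)
  have hPπ' : P ≤ 2 ^ (π + 1) := (lt_two_pow_lg P).le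
  have hll : 2 ^ l ≤ lam := Nat.pow_log_le_self 2 (by omega)
  have hll' : lam ≤ 2 ^ (l + 1) := (lt_two_pow_lg lam).le
  have ham : 2 ^ a ≤ m := Nat.pow_log_le_self 2 (by omega)
  have ham' : m < 2 ^ (a + 1) := lt_two_pow_lg m
  have hPx' : P ≤ x := Nat.le_of_dvd (by omega) hPx
  have hπlam : π ≤ lam := by
    have := Nat.log_mono_right (b := 2) hPx'
    omega
  -- lower bound for `a`
  have hage : 37 + π + 3 * l ≤ a := by
    have h2 : 2 ^ (37 + π + 3 * l) ≤ m := by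
      calc 2 ^ (37 + π + 3 * l) = 2 ^ 37 * 2 ^ π * (2 ^ l) ^ 3 := by
            rw [pow_add, pow_add, ← pow_mul, mul_comm 3 l]
        _ ≤ 2 ^ 37 * P * lam ^ 3 := by gcongr
        _ ≤ m := hcon
    exact (Nat.le_log_iff_pow_le (by norm_num) (by omega)).2 h2
  obtain ⟨r, hr⟩ : ∃ r, a = 37 + π + 3 * l + r := ⟨a - (37 + π + 3 * l), by omega⟩
  -- `log n`
  have hlgn : Nat.log 2 n ≤ a + l + 1 := by
    have h2 : n < 2 ^ (a + l + 2) := by
      calc n ≤ lam * m := hlen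
        _ < 2 ^ (l + 1) * 2 ^ (a + 1) := by
            calc lam * m ≤ 2 ^ (l + 1) * m := Nat.mul_le_mul_right _ hll'
              _ < _ := Nat.mul_lt_mul_of_pos_left ham' (by positivity)
        _ = 2 ^ (a + l + 2) := by rw [← pow_add]; congr 1; ring
    have := Nat.log_lt_of_lt_pow (b := 2) (by omega) h2
    omega
  have hmu : mu2 n + π ≤ 182 + 5 * π + 16 * l + 4 * r := by
    unfold mu2; omega
  have hmu' : mu2 n + π ≤ π * (187 + 16 * (l + r)) := by
    calc mu2 n + π ≤ 182 + 5 * π + 16 * l + 4 * r := hmu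
      _ ≤ π * (187 + 16 * (l + r)) := by nlinarith [Nat.zero_le l, Nat.zero_le r]
  -- the bound
  have hLπ := LL_mul_le (P := P) (m := n)
  have hkπ := kap_mul_le (P := P) (x := x)
  rw [← hπ] at hLπ hkπ
  rw [← hlam] at hkπ
  have hkπ' : kap P x * π ≤ 64 * lam := by omega
  have h2 : m * π ^ 4 < 2 ^ 18 * P * lam ^ 2 * (mu2 n + π) ^ 2 := by
    calc m * π ^ 4 < (P * (kap P x * LL P n) ^ 2) * π ^ 4 :=
          Nat.mul_lt_mul_of_pos_right h1 (by positivity)
      _ = P * ((kap P x * π) * (LL P n * π)) ^ 2 := by ring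
      _ ≤ P * ((64 * lam) * (8 * (mu2 n + π))) ^ 2 := by gcongr
      _ = 2 ^ 18 * P * lam ^ 2 * (mu2 n + π) ^ 2 := by ring
  have h3 : 2 ^ 18 * P * lam ^ 2 * (mu2 n + π) ^ 2 ≤ m * π ^ 4 := by
    calc 2 ^ 18 * P * lam ^ 2 * (mu2 n + π) ^ 2
        ≤ 2 ^ 18 * 2 ^ (π + 1) * (2 ^ (l + 1)) ^ 2 * (π * (187 + 16 * (l + r))) ^ 2 := by gcongr
      _ = (2 ^ 18 * 2 ^ (π + 1) * (2 ^ (l + 1)) ^ 2) * (187 + 16 * (l + r)) ^ 2 * π ^ 2 := by ring
      _ ≤ (2 ^ 18 * 2 ^ (π + 1) * (2 ^ (l + 1)) ^ 2) * 2 ^ (16 + (l + r)) * π ^ 4 := by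
          apply Nat.mul_le_mul (Nat.mul_le_mul_left _ (lin_sq _))
          exact Nat.pow_le_pow_right (by omega) (by norm_num)
      _ = 2 ^ a * π ^ 4 := by
          rw [← pow_mul, ← pow_add, ← pow_add, ← pow_add, hr]
          congr 2
          ring
      _ ≤ m * π ^ 4 := Nat.mul_le_mul_right _ ham
  omega

end Pool.Agent.MP_88e4f4_nt.GB
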