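import Mathlib

set_option autoImplicit false

namespace Pool.Agent.MP_88e4f4_nt.GB

open Finset Polynomial

/-- The matrix `[P_l(X + i) v_l ^ i]_{i,l}`. -/
noncomputable def shiftMat {q : ℕ} (P : Fin q → ℚ[X]) (v : Fin q → ℚ) :
    Matrix (Fin q) (Fin q) ℚ[X] :=
  Matrix.of fun i l => (P l).comp (X + C ((i : ℕ) : ℚ)) * C (v l ^ (i : ℕ))

/-- The degree of the determinant is at most `q (K - 1)` if all `deg P_l < K`
(Leibniz formula). -/
theorem natDegree_det_shiftMat {q K : ℕ} (P : Fin q → ℚ[X]) (v : Fin q → ℚ)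
    (hP : ∀ l, (P l).natDegree < K) : (shiftMat P v).det.natDegree ≤ q * (K - 1) := by
  rw [Matrix.det_apply]
  refine Polynomial.natDegree_sum_le_of_forall_le _ _ fun σ _ => ?_
  refine (Polynomial.natDegree_smul_le _ _).trans ?_
  refine (Polynomial.natDegree_prod_le _ _).trans ?_
  have h1 : ∀ i ∈ (univ : Finset (Fin q)), (shiftMat P v (σ i) i).natDegree ≤ K - 1 := by
    intro i _
    unfold shiftMat
    rw [Matrix.of_apply]
    refine (Polynomial.natDegree_mul_C_le _ _).trans ?_
    rw [Polynomial.natDegree_comp, Polynomial.natDegree_X_add_C, mul_one]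
    have := hP i
    omega
  have h2 := Finset.sum_le_card_nsmul _ _ _ h1
  rw [Finset.card_univ, Fintype.card_fin, smul_eq_mul] at h2
  exact h2

/-- The determinant is non-zero if all `P_l ≠ 0` and the `v_l` are distinct.
Proof: multiply column `l` by `X ^ (D - deg P_l)`, `D` a common bound for the degrees; the new matrix
`M'` has `det M' = X ^ (...) * det M`, all its entries have degree `≤ D`, and by the Leibniz formula
(`Polynomial.coeff_prod_of_natDegree_le` or similar) the coefficient of `X ^ (q D)` in `det M'` is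
`det [lead(P_l) v_l ^ i] = (∏ lead(P_l)) * det (vandermonde v)ᵀ ≠ 0` (`Matrix.det_mul_row` /
`Matrix.det_mul_column`, `Matrix.det_vandermonde_ne_zero_iff`). -/
theorem det_shiftMat_ne_zero {q : ℕ} (P : Fin q → ℚ[X]) (v : Fin q → ℚ)
    (hP : ∀ l, P l ≠ 0) (hv : Function.Injective v) : (shiftMat P v).det ≠ 0 := by
  have hprod : ∀ (s : Finset (Fin q)) (f : Fin q → ℚ[X]) (n : Fin q → ℕ), (∀ i, (f i).natDegree ≤ n i) →
      (∏ i ∈ s, f i).natDegree ≤ ∑ i ∈ s, n i ∧
        (∏ i ∈ s, f i).coeff (∑ i ∈ s, n i) = ∏ i ∈ s, (f i).coeff (n i) := by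
    intro s f n hf
    classical
    induction s using Finset.induction_on with
    | empty => simp
    | insert a s ha ih =>
      rw [Finset.prod_insert ha, Finset.sum_insert ha, Finset.prod_insert ha]
      refine ⟨(Polynomial.natDegree_mul_le).trans (add_le_add (hf a) ih.1), ?_⟩
      rw [Polynomial.coeff_mul_add_eq_of_natDegree_le (hf a) ih.1, ih.2]
  have hdeg : ∀ (l i : Fin q), (shiftMat P v i l).natDegree ≤ (P l).natDegree := by
    intro l i
    unfold shiftMat
    rw [Matrix.of_apply]
    refine (Polynomial.natDegree_mul_C_le _ _).trans ?_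
    rw [Polynomial.natDegree_comp, Polynomial.natDegree_X_add_C, mul_one]
  have hcoeff : ∀ (l i : Fin q), (shiftMat P v i l).coeff (P l).natDegree =
      (P l).leadingCoeff * v l ^ (i : ℕ) := by
    intro l i
    unfold shiftMat
    rw [Matrix.of_apply, Polynomial.coeff_mul_C]
    congr 1
    have h1 := Polynomial.coeff_comp_degree_mul_degree (p := P l) (q := X + C ((i : ℕ) : ℚ))
      (by rw [Polynomial.natDegree_X_add_C]; exact one_ne_zero)
    rw [Polynomial.natDegree_X_add_C, mul_one, Polynomial.leadingCoeff_X_add_C, one_pow, mul_one] at h1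
    exact h1
  intro h0
  have h1 : (shiftMat P v).det.coeff (∑ l, (P l).natDegree) =
      Matrix.det (Matrix.of fun i l : Fin q => (P l).leadingCoeff * (Matrix.vandermonde v).transpose i l) := by
    rw [Matrix.det_apply, Matrix.det_apply, Polynomial.finsetSum_coeff]
    refine Finset.sum_congr rfl fun σ _ => ?_
    rw [Polynomial.coeff_smul]
    congr 1
    rw [(hprod univ (fun i => shiftMat P v (σ i) i) (fun l => (P l).natDegree) (fun i => hdeg i (σ i))).2]
    refine Finset.prod_congr rfl fun i _ => ?_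
    rw [hcoeff, Matrix.of_apply, Matrix.transpose_apply, Matrix.vandermonde_apply]
  rw [h0, Polynomial.coeff_zero, Matrix.det_mul_row, Matrix.det_transpose] at h1
  have h2 : (∏ l, (P l).leadingCoeff) ≠ 0 := Finset.prod_ne_zero_iff.2 fun l _ =>
    Polynomial.leadingCoeff_ne_zero.2 (hP l)
  exact mul_ne_zero h2 (Matrix.det_vandermonde_ne_zero_iff.2 hv) h1.symm

end Pool.Agent.MP_88e4f4_nt.GB
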