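import Pool.Agent.MP_88e4f4_nt.GBasic
import Pool.Agent.MP_88e4f4_nt.GCore

set_option autoImplicit false

namespace Pool.Agent.MP_88e4f4_nt.GB

open Finset

/-- The parameter `μ`. -/
def muu (p m : ℕ) : ℕ := 20 + 3 * Nat.log 2 m + 2 * Nat.log 2 p

/-- The parameter `Q`. -/
def QQ (p m : ℕ) : ℕ := 192 * p * muu p m

theorem muu_bound {p m : ℕ} (hp : 2 ≤ p) (hm : 3 ≤ m) :
    320 * m ^ 2 * p * muu p m ≤ 2 ^ muu p m := by
  have h1 : m ≤ 2 * 2 ^ Nat.log 2 m := by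
    have := (lt_two_pow_lg m).le; rw [pow_succ] at this; linarith
  have h2 : p ≤ 2 * 2 ^ Nat.log 2 p := by
    have := (lt_two_pow_lg p).le; rw [pow_succ] at this; linarith
  have h3 : m ^ 3 ≤ (2 * 2 ^ Nat.log 2 m) ^ 3 := Nat.pow_le_pow_left h1 3
  have h4 : p ^ 2 ≤ (2 * 2 ^ Nat.log 2 p) ^ 2 := Nat.pow_le_pow_left h2 2
  have h5 : 2 ^ muu p m = 2 ^ 20 * (2 ^ Nat.log 2 m) ^ 3 * (2 ^ Nat.log 2 p) ^ 2 := by
    unfold muu
    rw [pow_add, pow_add, ← pow_mul, ← pow_mul, mul_comm 3, mul_comm 2 (Nat.log 2 p)]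
  have h6 : 2 ^ 15 * (m ^ 3 * p ^ 2) ≤ 2 ^ muu p m := by
    rw [h5]
    calc 2 ^ 15 * (m ^ 3 * p ^ 2)
        ≤ 2 ^ 15 * ((2 * 2 ^ Nat.log 2 m) ^ 3 * (2 * 2 ^ Nat.log 2 p) ^ 2) :=
          Nat.mul_le_mul_left _ (Nat.mul_le_mul h3 h4)
      _ = 2 ^ 20 * (2 ^ Nat.log 2 m) ^ 3 * (2 ^ Nat.log 2 p) ^ 2 := by ring
  have h7 : muu p m ≤ 20 + 3 * m + 2 * p := by
    have := Nat.log_le_self 2 m
    have := Nat.log_le_self 2 p
    unfold muu; omega
  have h8 : 20 + 3 * m + 2 * p ≤ 6 * (m * p) := by nlinarith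
  have h9 : 320 * muu p m ≤ 2 ^ 15 * (m * p) := by
    have : (2:ℕ) ^ 15 = 32768 := by norm_num
    rw [this]; omega
  calc 320 * m ^ 2 * p * muu p m = (320 * muu p m) * (m ^ 2 * p) := by ring
    _ ≤ (2 ^ 15 * (m * p)) * (m ^ 2 * p) := Nat.mul_le_mul_right _ h9
    _ = 2 ^ 15 * (m ^ 3 * p ^ 2) := by ring
    _ ≤ _ := h6

/-- `λ (m - 1) < 2 (log y + 1) n`. -/
theorem lam_mul_lt {x y m n : ℕ} (h : Sol x y m n) :
    (Nat.log 2 x + 1) * (m - 1) < 2 * (Nat.log 2 y + 1) * n := by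
  have hpow := pow_le h
  obtain ⟨hy, hxy, hm, hn, he⟩ := h
  have h1 : 2 ^ Nat.log 2 x ≤ x := Nat.pow_log_le_self 2 (by omega)
  have h2 : (2 ^ Nat.log 2 x) ^ (m - 1) ≤ x ^ (m - 1) := Nat.pow_le_pow_left h1 _
  have h3 : y ^ n < (2 ^ (Nat.log 2 y + 1)) ^ n := Nat.pow_lt_pow_left (lt_two_pow_lg y) (by omega)
  rw [← pow_mul] at h2 h3
  have h4 : 2 ^ (Nat.log 2 x * (m - 1)) < 2 ^ ((Nat.log 2 y + 1) * n) :=
    lt_of_le_of_lt (h2.trans hpow) h3
  have h5 : Nat.log 2 x * (m - 1) < (Nat.log 2 y + 1) * n := (Nat.pow_lt_pow_iff_right (by norm_num)).1 h4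
  have h6 : 1 ≤ Nat.log 2 x := Nat.log_pos (by norm_num) (by omega)
  have h7 : (Nat.log 2 x + 1) * (m - 1) ≤ 2 * (Nat.log 2 x * (m - 1)) := by
    calc (Nat.log 2 x + 1) * (m - 1) ≤ (2 * Nat.log 2 x) * (m - 1) := Nat.mul_le_mul_right _ (by omega)
      _ = _ := by ring
  calc _ ≤ 2 * (Nat.log 2 x * (m - 1)) := h7
    _ < 2 * ((Nat.log 2 y + 1) * n) := by omega
    _ = _ := by ring

/-- If the prime `p` divides both bases then `x > 2 ^ m`. -/
theorem big_of_dvd {p x y m n : ℕ} (hp : p.Prime) (hpy : p ∣ y) (h : Sol x y m n) (hpx : p ∣ x) :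
    m < Nat.log 2 x + 1 := by
  have hrel := rel h
  have hlt := lt_len h
  obtain ⟨hy, hxy, hm, hn, he⟩ := h
  have h1 : (p : ℤ) ^ m ∣ (y : ℤ) ^ n * ((x : ℤ) - 1) := by
    apply Dvd.dvd.mul_right
    calc (p : ℤ) ^ m ∣ (p : ℤ) ^ n := pow_dvd_pow _ hlt.le
      _ ∣ (y : ℤ) ^ n := pow_dvd_pow_of_dvd (by exact_mod_cast hpy) n
  have h2 : (p : ℤ) ^ m ∣ ((y : ℤ) - 1) * (x : ℤ) ^ m :=
    (pow_dvd_pow_of_dvd (by exact_mod_cast hpx) m).mul_left _
  rw [hrel] at h1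
  have h3 : (p : ℤ) ^ m ∣ (x : ℤ) - y := (dvd_add_right h2).1 h1
  have h4 : (p : ℤ) ^ m ≤ (x : ℤ) - y := Int.le_of_dvd (by
    have : (y : ℤ) < x := by exact_mod_cast hxy
    linarith) h3
  have h5 : 2 ^ m ≤ p ^ m := Nat.pow_le_pow_left hp.two_le m
  have h6 : (2 : ℤ) ^ m ≤ (p : ℤ) ^ m := by exact_mod_cast h5
  have h7 : (2 : ℤ) ^ m ≤ x := by
    have : (0 : ℤ) ≤ y := by positivity
    linarith
  have h8 : 2 ^ m ≤ x := by exact_mod_cast h7
  have h9 : m ≤ Nat.log 2 x := (Nat.le_log_iff_pow_le (by norm_num) (by omega)).2 h8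
  omega

/-- The `p`-adic linear form estimate. -/
theorem lf_apply {p x y m n : ℕ} (hp : p.Prime) (hpy : p ∣ y) (h : Sol x y m n) (hpx : ¬ p ∣ x)
    (hlam : Nat.log 2 x + 1 ≤ m) :
    m < QQ p m * (Nat.log 2 x + 1) ∨ n < (QQ p m * (Nat.log 2 x + 1)) ^ 2 := by
  have hrel := rel h
  obtain ⟨hy, hxy, hm, hn, he⟩ := h
  have hp2 := hp.two_le
  set lam := Nat.log 2 x + 1 with hlamdef
  set μ := muu p m with hμ
  set α := lam * (p - 1) with hα
  set κ := 24 * α with hκ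
  set L := 8 * μ with hL
  have hμ20 : 20 ≤ μ := by rw [hμ]; unfold muu; omega
  have hlam1 : 1 ≤ lam := by omega
  have hα1 : 1 ≤ α := Nat.mul_pos hlam1 (by omega)
  have hκ24 : 24 ≤ κ := by omega
  have hκQ : κ * L ≤ QQ p m * lam := by
    rw [hκ, hα, hL, QQ, ← hμ]
    calc 24 * (lam * (p - 1)) * (8 * μ) = 192 * (p - 1) * μ * lam := by ring
      _ ≤ 192 * p * μ * lam := by gcongr; omega
  by_contra hcon
  push Not at hcon
  obtain ⟨hc1, hc2⟩ := hcon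
  have hRm : κ * L ≤ m := hκQ.trans hc1
  have hKLn : κ ^ 2 * L * L ≤ n := by
    calc κ ^ 2 * L * L = (κ * L) ^ 2 := by ring
      _ ≤ (QQ p m * lam) ^ 2 := Nat.pow_le_pow_left hκQ 2
      _ ≤ n := hc2
  have hκm : κ ≤ 24 * (m * p) := by
    rw [hκ, hα]
    have : lam * (p - 1) ≤ m * p := Nat.mul_le_mul hlam (by omega)
    omega
  have hmu : L + κ * L + κ * L * m ≤ 2 ^ μ := by
    have h1 := muu_bound hp2 hm
    rw [← hμ] at h1
    calc L + κ * L + κ * L * m = L * (1 + κ * (m + 1)) := by ring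
      _ ≤ L * (κ * (m + 2)) := by
          apply Nat.mul_le_mul_left
          nlinarith
      _ ≤ L * (24 * (m * p) * (m + 2)) := by gcongr
      _ = 192 * μ * m * p * (m + 2) := by rw [hL]; ring
      _ ≤ 320 * m ^ 2 * p * μ := by
          have h2 : 192 * (m + 2) ≤ 320 * m := by omega
          calc 192 * μ * m * p * (m + 2) = (192 * (m + 2)) * (μ * m * p) := by ring
            _ ≤ (320 * m) * (μ * m * p) := Nat.mul_le_mul_right _ h2
            _ = _ := by ring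
      _ ≤ 2 ^ μ := h1
  have hx2 : (x : ℤ) ≤ 2 ^ lam := by exact_mod_cast (lt_two_pow_lg x).le
  have hxyz : (y : ℤ) < x := by exact_mod_cast hxy
  have hyz : (2 : ℤ) ≤ y := by exact_mod_cast hy
  have hcop : IsCoprime (x : ℤ) (p : ℤ) := by
    rw [Nat.isCoprime_iff_coprime]
    exact ((Nat.Prime.coprime_iff_not_dvd hp).2 hpx).symm
  have hpa : (p : ℤ) ∣ (x : ℤ) ^ (p - 1) - 1 := by
    have := Int.ModEq.pow_card_sub_one_eq_one hp hcop
    exact (Int.modEq_iff_dvd.1 this.symm)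
  have hVd : (p : ℤ) ^ n ∣ ((x : ℤ) - y) ^ (p - 1) - ((x : ℤ) ^ (p - 1)) ^ m * (1 - (y : ℤ)) ^ (p - 1) := by
    have h1 : ((x : ℤ) ^ (p - 1)) ^ m * (1 - (y : ℤ)) ^ (p - 1) = ((1 - (y : ℤ)) * (x : ℤ) ^ m) ^ (p - 1) := by
      rw [mul_pow, ← pow_mul, ← pow_mul, mul_comm (p - 1) m]; ring
    rw [h1]
    refine dvd_trans ?_ (sub_dvd_pow_sub_pow _ _ _)
    have h2 : ((x : ℤ) - y) - (1 - (y : ℤ)) * (x : ℤ) ^ m = (y : ℤ) ^ n * ((x : ℤ) - 1) := by
      rw [hrel]; ring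
    rw [h2]
    exact (pow_dvd_pow_of_dvd (by exact_mod_cast hpy) n).mul_right _
  have hpow2 : ∀ c : ℤ, |c| ≤ 2 ^ lam → |c ^ (p - 1)| ≤ 2 ^ α := by
    intro c hc
    rw [abs_pow, hα, pow_mul]
    exact pow_le_pow_left₀ (abs_nonneg _) hc _
  have key := lf_core (p := p) (V := n) (K := κ ^ 2 * L) (L := L) (R := κ * L) (S := κ * L) (m := m)
    (α := α) (μ := μ) (ν := 2 * μ) (a := (x : ℤ) ^ (p - 1)) (b1 := ((x : ℤ) - y) ^ (p - 1))
    (b2 := (1 - (y : ℤ)) ^ (p - 1)) hp2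
    (by
      have h1 : (x : ℤ) ^ 1 ≤ (x : ℤ) ^ (p - 1) := pow_le_pow_right₀ (by linarith) (by omega)
      rw [pow_one] at h1; linarith)
    hpa (pow_ne_zero _ (by linarith)) (pow_ne_zero _ (by linarith)) hVd hRm
    (by apply le_of_eq; ring) hKLn
    (by
      have := hpow2 x (by rw [abs_of_nonneg (by positivity)]; exact hx2)
      exact (le_abs_self _).trans this)
    (hpow2 _ (by rw [abs_of_nonneg (by linarith)]; linarith))
    (hpow2 _ (by rw [abs_of_nonpos (by linarith)]; linarith))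
    hmu
    (by
      have h1 : κ * L ≤ 2 ^ μ := by
        have : κ * L ≤ L + κ * L + κ * L * m := by omega
        exact this.trans hmu
      calc κ ^ 2 * L * L = (κ * L) ^ 2 := by ring
        _ ≤ (2 ^ μ) ^ 2 := Nat.pow_le_pow_left h1 2
        _ = 2 ^ (2 * μ) := by rw [← pow_mul, mul_comm])
    (Nat.succ_le_of_lt (by positivity)) (by omega)
  -- contradiction with the size of the right-hand side
  set A := κ ^ 2 * L * L with hA
  have e1 : 12 * (2 * α * L * (L + κ * L + κ * L)) ≤ 3 * A := by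
    calc 12 * (2 * α * L * (L + κ * L + κ * L)) = κ * (L * L) * (1 + 2 * κ) := by rw [hκ]; ring
      _ ≤ κ * (L * L) * (3 * κ) := Nat.mul_le_mul_left _ (by omega)
      _ = 3 * A := by rw [hA]; ring
  have e2 : 4 * (2 * (κ ^ 2 * L) * μ) = A := by
    rw [hA]; nth_rewrite 3 [hL]; ring
  have e3 : 80 * (2 * (κ ^ 2 * L)) ≤ A := by
    calc 80 * (2 * (κ ^ 2 * L)) = (κ ^ 2 * L) * 160 := by ring
      _ ≤ (κ ^ 2 * L) * L := Nat.mul_le_mul_left _ (by omega)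
      _ = A := by rw [hA]
  have e4 : 2 * (1 + 2 * (2 * μ)) ≤ 2 * L := by omega
  have e5 : 160 * L ≤ A := by
    calc 160 * L ≤ L * L := Nat.mul_le_mul_right _ (by omega)
      _ ≤ κ ^ 2 * (L * L) := Nat.le_mul_of_pos_left _ (by positivity)
      _ = A := by rw [hA]; ring
  have hApos : 0 < A := by positivity
  omega

/-- Step A: lower bound for the larger base. -/
theorem stepA {p x y m n : ℕ} (hp : p.Prime) (hpy : p ∣ y) (h : Sol x y m n) :
    m - 1 < 2 * (Nat.log 2 y + 1) * QQ p m ^ 2 * (Nat.log 2 x + 1) := by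
  have hQ1 : 1 ≤ QQ p m := by
    have := hp.two_le
    unfold QQ muu
    exact Nat.succ_le_of_lt (by positivity)
  set lam := Nat.log 2 x + 1 with hlam
  have hbase : m < QQ p m * lam → m - 1 < 2 * (Nat.log 2 y + 1) * QQ p m ^ 2 * lam := by
    intro h1
    have h2 : QQ p m * lam ≤ 2 * (Nat.log 2 y + 1) * QQ p m ^ 2 * lam := by
      calc QQ p m * lam = 1 * (QQ p m * 1) * lam := by ring
        _ ≤ (2 * (Nat.log 2 y + 1)) * (QQ p m * QQ p m) * lam := by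
            gcongr
            omega
        _ = _ := by ring
    omega
  by_cases hpx : p ∣ x
  · have h1 := big_of_dvd hp hpy h hpx
    apply hbase
    calc m < lam := h1
      _ = 1 * lam := by ring
      _ ≤ QQ p m * lam := Nat.mul_le_mul_right _ hQ1
  · by_cases hl : lam ≤ m
    · rcases lf_apply hp hpy h hpx hl with h1 | h1
      · exact hbase h1
      · have h2 := lam_mul_lt h
        rw [← hlam] at h1 h2
        have h3 : lam * (m - 1) < lam * (2 * (Nat.log 2 y + 1) * QQ p m ^ 2 * lam) := by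
          calc lam * (m - 1) < 2 * (Nat.log 2 y + 1) * n := h2
            _ ≤ 2 * (Nat.log 2 y + 1) * (QQ p m * lam) ^ 2 := Nat.mul_le_mul_left _ h1.le
            _ = _ := by ring
        exact Nat.lt_of_mul_lt_mul_left h3
    · push Not at hl
      apply hbase
      calc m < lam := hl
        _ = 1 * lam := by ring
        _ ≤ QQ p m * lam := Nat.mul_le_mul_right _ hQ1

/-- The length gap. -/
theorem length_gap {p x y m n : ℕ} (hp : p.Prime) (hpy : p ∣ y) (h : Sol x y m n) :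
    (m - 1) ^ 2 < (2 * (Nat.log 2 y + 1) * QQ p m) ^ 2 * n := by
  have h1 := stepA hp hpy h
  have h2 := lam_mul_lt h
  have hm : 3 ≤ m := h.2.2.1
  set lam := Nat.log 2 x + 1 with hlam
  have hQ1 : 1 ≤ QQ p m := by
    have := hp.two_le
    unfold QQ muu
    exact Nat.succ_le_of_lt (by positivity)
  calc (m - 1) ^ 2 = (m - 1) * (m - 1) := by ring
    _ < (2 * (Nat.log 2 y + 1) * QQ p m ^ 2 * lam) * (m - 1) :=
        Nat.mul_lt_mul_of_pos_right h1 (by omega)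
    _ = 2 * (Nat.log 2 y + 1) * QQ p m ^ 2 * (lam * (m - 1)) := by ring
    _ ≤ 2 * (Nat.log 2 y + 1) * QQ p m ^ 2 * (2 * (Nat.log 2 y + 1) * n) :=
        Nat.mul_le_mul_left _ h2.le
    _ = _ := by ring

end Pool.Agent.MP_88e4f4_nt.GB
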