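import Mathlib

set_option autoImplicit false

namespace Pool.Agent.MP_88e4f4_nt.GB

open Finset

/-- `F` has Newton coefficients `c j` divisible by `p ^ (j - k)` (truncated subtraction). -/
def Ty (p k : ℕ) (F : ℕ → ℤ) : Prop :=
  ∃ c : ℕ → ℤ, (∀ j, (p : ℤ) ^ (j - k) ∣ c j) ∧
    ∀ z, F z = ∑ j ∈ range (z + 1), c j * (z.choose j : ℤ)

theorem Ty.pow_of_dvd {p : ℕ} {a : ℤ} (h : (p : ℤ) ∣ a - 1) : Ty p 0 (fun z => a ^ z) := by
  refine ⟨fun j => (a - 1) ^ j, fun j => ?_, fun z => ?_⟩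
  · rw [Nat.sub_zero]; exact pow_dvd_pow_of_dvd h j
  · have h1 : a ^ z = ((a - 1) + 1) ^ z := by ring_nf
    simp only
    rw [h1, add_pow]
    refine Finset.sum_congr rfl fun j _ => ?_
    rw [one_pow, mul_one]

theorem Ty.mul_z {p k : ℕ} {F : ℕ → ℤ} (h : Ty p k F) : Ty p (k + 1) (fun z => (z : ℤ) * F z) := by
  obtain ⟨c, hc, hF⟩ := h
  refine ⟨fun j => (j : ℤ) * (c j + c (j - 1)), fun j => ?_, fun z => ?_⟩
  · rcases j with _ | j
    · simp
    · apply Dvd.dvd.mul_left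
      apply dvd_add
      · exact (pow_dvd_pow _ (by omega)).trans (hc (j + 1))
      · have : j + 1 - (k + 1) = j - k := by omega
        rw [this]; simpa using hc j
  · simp only
    rw [hF z, Finset.mul_sum]
    -- z * (c j * C(z,j)) = c j * (j C(z,j) + (j+1) C(z,j+1))
    have h1 : ∀ j ∈ range (z + 1), (z : ℤ) * (c j * (z.choose j : ℤ)) =
        (j : ℤ) * c j * (z.choose j : ℤ) + ((j : ℤ) + 1) * c j * (z.choose (j + 1) : ℤ) := by
      intro j hj
      have hjz : j ≤ z := by rw [mem_range] at hj; omega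
      have h2 : z.choose (j + 1) * (j + 1) = z.choose j * (z - j) := Nat.choose_succ_right_eq z j
      have h3 : (z.choose (j + 1) : ℤ) * ((j : ℤ) + 1) = (z.choose j : ℤ) * ((z : ℤ) - j) := by
        have := congrArg (fun t : ℕ => (t : ℤ)) h2
        push_cast [Nat.cast_sub hjz] at this
        exact this
      have h4 : ((j : ℤ) + 1) * c j * (z.choose (j + 1) : ℤ) = c j * ((z.choose j : ℤ) * ((z : ℤ) - j)) := by
        rw [← h3]; ring
      rw [h4]; ring
    rw [Finset.sum_congr rfl h1, Finset.sum_add_distrib]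
    have h5 : ∑ j ∈ range (z + 1), ((j : ℤ) + 1) * c j * (z.choose (j + 1) : ℤ) =
        ∑ j ∈ range (z + 1), (j : ℤ) * c (j - 1) * (z.choose j : ℤ) := by
      rw [Finset.sum_range_succ, Finset.sum_range_succ']
      simp
    rw [h5, ← Finset.sum_add_distrib]
    refine Finset.sum_congr rfl fun j _ => ?_
    ring

theorem Ty.const_mul {p k : ℕ} {F : ℕ → ℤ} (h : Ty p k F) (c : ℤ) : Ty p k (fun z => c * F z) := by
  obtain ⟨d, hd, hF⟩ := h
  refine ⟨fun j => c * d j, fun j => (hd j).mul_left _, fun z => ?_⟩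
  simp only
  rw [hF z, Finset.mul_sum]
  exact Finset.sum_congr rfl fun j _ => by ring

theorem Ty.mono {p k k' : ℕ} {F : ℕ → ℤ} (hk : k ≤ k') (h : Ty p k F) : Ty p k' F := by
  obtain ⟨c, hc, hF⟩ := h
  exact ⟨c, fun j => (pow_dvd_pow _ (by omega)).trans (hc j), hF⟩

theorem Ty.main {p : ℕ} {a : ℤ} (h : (p : ℤ) ∣ a - 1) (k l : ℕ) (c : ℤ) :
    Ty p k (fun z => c * ((z : ℤ) ^ k * (a ^ l) ^ z)) := by
  apply Ty.const_mul
  have hl : (p : ℤ) ∣ a ^ l - 1 := by
    have h1 : a - 1 ∣ a ^ l - 1 := by simpa using sub_dvd_pow_sub_pow a 1 l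
    exact h.trans h1
  induction k with
  | zero => simpa using Ty.pow_of_dvd hl
  | succ k ih =>
    have h2 := Ty.mul_z ih
    have h3 : (fun z : ℕ => (z : ℤ) * ((z : ℤ) ^ k * (a ^ l) ^ z)) =
        (fun z : ℕ => (z : ℤ) ^ (k + 1) * (a ^ l) ^ z) := by
      funext z; ring
    rwa [h3] at h2

theorem Ty.extend {p k : ℕ} {F : ℕ → ℤ} (h : Ty p k F) :
    ∃ c : ℕ → ℤ, (∀ j, (p : ℤ) ^ (j - k) ∣ c j) ∧
      ∀ J z, z < J → F z = ∑ j ∈ range J, c j * (z.choose j : ℤ) := by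
  obtain ⟨c, hc, hF⟩ := h
  refine ⟨c, hc, fun J z hz => ?_⟩
  rw [hF z]
  apply Finset.sum_subset (range_mono (by omega))
  intro j _ hj
  rw [mem_range] at hj
  rw [Nat.choose_eq_zero_of_lt (by omega)]
  simp

end Pool.Agent.MP_88e4f4_nt.GB
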