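import Pool.Agent.MP_88e4f4_nt.Basic

set_option autoImplicit false

namespace Pool.Agent.MP_88e4f4_nt

open Finset

/-- scaled version of `S m (g a + K) (g a)`, at the rational point `a = A / L` -/
def T (m g K L A : ℕ) : ℕ := ∑ i ∈ range m, L ^ (m + 1 - i) * G i (g * A + L * K) (g * A)

theorem G_scale (i L u v : ℕ) : G i (L * u) (L * v) = L ^ (i - 1) * G i u v := by
  rw [G, G, mul_sum]
  refine sum_congr rfl fun j hj => ?_
  rw [mem_range] at hj
  rw [mul_pow, mul_pow]
  have : L ^ (i - 1) = L ^ j * L ^ (i - 1 - j) := by rw [← pow_add]; congr 1; omega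
  rw [this]; ring

theorem T_eq (m g K L a : ℕ) : T m g K L (L * a) = L ^ m * S m (g * a + K) (g * a) := by
  rw [T, S, mul_sum]
  refine sum_congr rfl fun i hi => ?_
  rw [mem_range] at hi
  rcases Nat.eq_zero_or_pos i with h0 | h0
  · subst h0; simp [G_zero]
  · have h1 : g * (L * a) + L * K = L * (g * a + K) := by ring
    have h2 : g * (L * a) = L * (g * a) := by ring
    rw [h1, h2, G_scale, ← mul_assoc, ← pow_add]
    congr 2; omega

theorem T_mono {m g K L P A : ℕ} (h : P ≤ A) : T m g K L A * P ^ m ≤ T m g K L P * A ^ m := by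
  rw [T, T, sum_mul, sum_mul]
  refine sum_le_sum fun i hi => ?_
  rw [mem_range] at hi
  rcases Nat.eq_zero_or_pos i with h0 | h0
  · subst h0; simp [G_zero]
  · have hP : P ^ m = P ^ (i - 1) * P ^ (m - (i - 1)) := by rw [← pow_add]; congr 1; omega
    have hA : A ^ m = A ^ (i - 1) * A ^ (m - (i - 1)) := by rw [← pow_add]; congr 1; omega
    have key : G i (g * A + L * K) (g * A) * P ^ (i - 1) ≤ G i (g * P + L * K) (g * P) * A ^ (i - 1) := by
      rw [G, G, sum_mul, sum_mul]
      refine sum_le_sum fun j hj => ?_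
      rw [mem_range] at hj
      have hPi : P ^ (i - 1) = P ^ j * P ^ (i - 1 - j) := by rw [← pow_add]; congr 1; omega
      have hAi : A ^ (i - 1) = A ^ j * A ^ (i - 1 - j) := by rw [← pow_add]; congr 1; omega
      have e1 : (g * A + L * K) ^ j * (g * A) ^ (i - 1 - j) * P ^ (i - 1) =
          ((g * A + L * K) * P) ^ j * (g * A * P) ^ (i - 1 - j) := by
        rw [hPi, mul_pow (g * A + L * K) P, mul_pow (g * A) P]; ring
      have e2 : (g * P + L * K) ^ j * (g * P) ^ (i - 1 - j) * A ^ (i - 1) =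
          ((g * P + L * K) * A) ^ j * (g * P * A) ^ (i - 1 - j) := by
        rw [hAi, mul_pow (g * P + L * K) A, mul_pow (g * P) A]; ring
      rw [e1, e2]
      refine Nat.mul_le_mul (Nat.pow_le_pow_left ?_ _) (Nat.pow_le_pow_left (le_of_eq (by ring)) _)
      have : L * K * P ≤ L * K * A := Nat.mul_le_mul_left _ h
      nlinarith
    rw [hP, hA]
    calc L ^ (m + 1 - i) * G i (g * A + L * K) (g * A) * (P ^ (i - 1) * P ^ (m - (i - 1)))
        = L ^ (m + 1 - i) * ((G i (g * A + L * K) (g * A) * P ^ (i - 1)) * P ^ (m - (i - 1))) := by ring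
      _ ≤ L ^ (m + 1 - i) * ((G i (g * P + L * K) (g * P) * A ^ (i - 1)) * A ^ (m - (i - 1))) :=
          Nat.mul_le_mul_left _ (Nat.mul_le_mul key (Nat.pow_le_pow_left h _))
      _ = _ := by ring

theorem upper {m g K L a P : ℕ} (hL : 0 < L) (ha : 0 < a)
    (hS : S m (g * a + K) (g * a) = a ^ m) (h : P ≤ L * a) (hT : T m g K L P < P ^ m) : False := by
  have h1 := T_mono (m := m) (g := g) (K := K) (L := L) h
  rw [T_eq, hS, ← mul_pow] at h1
  have h2 : T m g K L P * (L * a) ^ m < P ^ m * (L * a) ^ m :=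
    Nat.mul_lt_mul_of_pos_right hT (pow_pos (Nat.mul_pos hL ha) _)
  have h3 : (L * a) ^ m * P ^ m = P ^ m * (L * a) ^ m := mul_comm _ _
  omega

theorem lower {m g K L a P : ℕ} (hL : 0 < L) (ha : 0 < a)
    (hS : S m (g * a + K) (g * a) = a ^ m) (h : L * a ≤ P) (hT : P ^ m < T m g K L P) : False := by
  have h1 := T_mono (m := m) (g := g) (K := K) (L := L) h
  rw [T_eq, hS, ← mul_pow] at h1
  have h2 : P ^ m * (L * a) ^ m < T m g K L P * (L * a) ^ m :=
    Nat.mul_lt_mul_of_pos_right hT (pow_pos (Nat.mul_pos hL ha) _)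
  have h3 : (L * a) ^ m * P ^ m = P ^ m * (L * a) ^ m := mul_comm _ _
  omega

/-- no solution when `L a` is squeezed between `Q + r` and `Q + r + 1` -/
theorem squeeze {m g K L a Q r : ℕ} (hL : 0 < L) (ha : 0 < a)
    (hS : S m (g * a + K) (g * a) = a ^ m)
    (h1 : (Q + r) ^ m < T m g K L (Q + r)) (h2 : T m g K L (Q + (r + 1)) < (Q + (r + 1)) ^ m) : False := by
  rcases Nat.lt_or_ge (Q + r) (L * a) with h | h
  · exact upper hL ha hS (by omega : Q + (r + 1) ≤ L * a) h2
  · exact lower hL ha hS h h1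

theorem lt_aux {X Y W c : ℕ} (e : X = Y + (W + c)) (h : 0 < c) : Y < X := by omega

end Pool.Agent.MP_88e4f4_nt
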